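import Pool.Agent.K1H83.VN.Ht1

/-!
From the inequalities at the places to the inequality of heights, at one point.
-/

set_option autoImplicit false
set_option linter.unusedSectionVars false

namespace Pool.Agent.K1H83.VN

open NumberField IsDedekindDomain Height MvPolynomial
open Pool.Agent.W180.OP (Pl av wt fv fv_support_finite wt_nonneg)

/-- two bases of the orthogonal complement of independent rows have proportional minors -/
theorem plucker {k : Type} [Field k] {ν n s : ℕ} (hν : ν = n + s) (M : Fin s → Fin ν → k)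
    (hM : LinearIndependent k M) (A T : Matrix (Fin ν) (Fin n) k)
    (hA : LinearIndependent k fun c : Fin n => fun y => A y c)
    (hT : LinearIndependent k fun c : Fin n => fun y => T y c)
    (hMA : ∀ a c, ∑ y, M a y * A y c = 0) (hMT : ∀ a c, ∑ y, M a y * T y c = 0) :
    ∃ q : k, q ≠ 0 ∧ ∀ J : Fin n → Fin ν, (A.submatrix J id).det = q * (T.submatrix J id).det := by
  classical
  set L := LinearMap.ker (Matrix.of M).mulVecLin with hL
  have hmem : ∀ (B : Matrix (Fin ν) (Fin n) k), (∀ a c, ∑ y, M a y * B y c = 0) →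
      ∀ c, (fun y => B y c) ∈ L := by
    intro B hB c
    rw [hL, LinearMap.mem_ker, Matrix.mulVecLin_apply]
    funext a
    exact hB a c
  have hfin : Module.finrank k L = n := by
    have h3 := LinearMap.finrank_range_add_finrank_ker (Matrix.of M).mulVecLin
    rw [Module.finrank_fin_fun] at h3
    have h4 : (Matrix.of M).rank = s := by
      have h5 : LinearIndependent k (Matrix.of M).row := hM
      rw [h5.rank_matrix, Fintype.card_fin]
    have h5 : Module.finrank k (LinearMap.range (Matrix.of M).mulVecLin) = (Matrix.of M).rank := rfl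
    rw [h5, h4, ← hL] at h3
    omega
  let t : Fin n → L := fun c => ⟨fun y => T y c, hmem T hMT c⟩
  have ht : LinearIndependent k t := by
    apply LinearIndependent.of_comp L.subtype
    exact hT
  have hspan := ht.span_eq_top_of_card_eq_finrank' (by rw [Fintype.card_fin, hfin])
  have hQ : ∀ c, ∃ Q : Fin n → k, ∑ d, Q d • t d = (⟨fun y => A y c, hmem A hMA c⟩ : L) := by
    intro c
    have h1 : (⟨fun y => A y c, hmem A hMA c⟩ : L) ∈ Submodule.span k (Set.range t) := by
      rw [hspan]
      exact Submodule.mem_top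
    exact (Submodule.mem_span_range_iff_exists_fun k).1 h1
  choose Q hQ using hQ
  let Qm : Matrix (Fin n) (Fin n) k := Matrix.of fun d c => Q c d
  have hAT : ∀ y c, A y c = ∑ d, T y d * Qm d c := by
    intro y c
    have h1 := congrFun (congrArg Subtype.val (hQ c)) y
    rw [AddSubmonoidClass.coe_finsetSum, Finset.sum_apply] at h1
    refine Eq.trans h1.symm ?_
    refine Finset.sum_congr rfl fun d _ => ?_
    show Q c d * T y d = T y d * Q c d
    ring
  refine ⟨Qm.det, ?_, ?_⟩
  · intro h0
    obtain ⟨z, hz, h1⟩ := Matrix.exists_mulVec_eq_zero_iff.2 h0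
    apply hz
    have h2 : ∑ c, z c • (fun y => A y c) = 0 := by
      funext y
      rw [Finset.sum_apply, Pi.zero_apply]
      simp only [Pi.smul_apply, smul_eq_mul]
      simp_rw [hAT y, Finset.mul_sum]
      rw [Finset.sum_comm]
      refine Finset.sum_eq_zero fun d _ => ?_
      have h3 : ∑ c, Qm d c * z c = 0 := congrFun h1 d
      calc ∑ c, z c * (T y d * Qm d c) = T y d * ∑ c, Qm d c * z c := by
            rw [Finset.mul_sum]
            exact Finset.sum_congr rfl fun c _ => by ring
        _ = 0 := by rw [h3, mul_zero]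
    exact funext (Fintype.linearIndependent_iff.1 hA z h2)
  · intro J
    have h1 : A.submatrix J id = T.submatrix J id * Qm := by
      ext i c
      rw [Matrix.mul_apply]
      exact hAT _ _
    rw [h1, Matrix.det_mul, mul_comm]

variable {k : Type} [Field k] [NumberField k]

/-- the local height of the subvariety with the equations `F j` -/
noncomputable def lam (f : AbsoluteValue k ℝ) {ν w : ℕ} (F : Fin w → MvPolynomial (Fin ν) k)
    (d : Fin w → ℕ) (x : Fin ν → k) : ℝ :=
  -Real.log (⨆ j, f (eval x (F j)) / nm f x ^ d j)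

/-- the proximity function -/
noncomputable def prox (S : Finset (Pl k)) {ν q w : ℕ} (F : Fin q → Fin w → MvPolynomial (Fin ν) k)
    (d : Fin q → Fin w → ℕ) (x : Fin ν → k) : ℝ :=
  ∑ v ∈ S, wt v * ∑ i, lam (av v) (F i) (d i) x

/-- the canonical height -/
noncomputable def hK {ν n : ℕ} (x : Fin ν → k) (A : Matrix (Fin ν) (Fin n) k) : ℝ :=
  logHeight (fun J : Fin n → Fin ν => (A.submatrix J id).det) - n * logHeight x

/-- a basis of the tangent space -/
def IsTB {ν g n : ℕ} (Gp : Fin g → MvPolynomial (Fin ν) k) (x : Fin ν → k)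
    (A : Matrix (Fin ν) (Fin n) k) : Prop :=
  LinearIndependent k (fun c : Fin n => fun y => A y c) ∧
    ∀ a c, ∑ y, eval x (pderiv y (Gp a)) * A y c = 0

theorem lam_le (f : AbsoluteValue k ℝ) {ν w : ℕ} (F : Fin w → MvPolynomial (Fin ν) k)
    (d : Fin w → ℕ) (x : Fin ν → k) (hx : x ≠ 0) (j : Fin w) (hj : eval x (F j) ≠ 0) :
    lam f F d x ≤ d j * Real.log (nm f x) - Real.log (f (eval x (F j))) := by
  unfold lam
  have h0 := nm_pos f hx
  have h1 : 0 < f (eval x (F j)) := f.pos hj
  have h2 : f (eval x (F j)) / nm f x ^ d j ≤ ⨆ j, f (eval x (F j)) / nm f x ^ d j :=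
    le_ciSup (f := fun j => f (eval x (F j)) / nm f x ^ d j) (Set.finite_range _).bddAbove j
  have h3 := Real.log_le_log (div_pos h1 (pow_pos h0 _)) h2
  rw [Real.log_div h1.ne' (pow_pos h0 _).ne', Real.log_pow] at h3
  linarith

/-- the inequality of heights from the inequalities at the places -/
theorem at_point (S : Finset (Pl k)) (hS : ∀ w : InfinitePlace k, Sum.inl w ∈ S)
    {ν n sc g q w : ℕ} (hν : ν = n + sc) (Gp : Fin g → MvPolynomial (Fin ν) k)
    (F : Fin q → Fin w → MvPolynomial (Fin ν) k) (d : Fin q → Fin w → ℕ) (x : Fin ν → k)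
    (hx : x ≠ 0) (K : Fin sc → Fin g)
    (hK' : LinearIndependent k fun a : Fin sc => fun y => eval x (pderiv y (Gp (K a))))
    (T : Matrix (Fin ν) (Fin n) k)
    (hT : ∀ a c, ∑ y, eval x (pderiv y (Gp a)) * T y c = 0) (J0 : Fin n → Fin ν)
    (hdet : (T.submatrix J0 id).det ≠ 0) (y0 : Pl k → Fin ν)
    (hy0 : ∀ v ∈ S, ∀ y, av v (x y) ≤ av v (x (y0 v))) (jj : Pl k → Fin q → Fin w)
    (hF : ∀ v ∈ S, ∀ i, eval x (F i (jj v i)) ≠ 0) (δ : ℝ)
    (hineq : ∀ v ∈ S, ∀ J : Fin n → Fin ν, av v ((T.submatrix J id).det *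
      ∏ i, x (y0 v) ^ (d i (jj v i))) ≤ av v (x (y0 v) ^ n *
        ∏ i, eval x (F i (jj v i))) * Real.exp δ)
    (A : Matrix (Fin ν) (Fin n) k) (hA : IsTB Gp x A) :
    prox S F d x + hK x A ≤ ho S (fun J : Fin n → Fin ν => (T.submatrix J id).det) -
      n * ho S x + (∑ v ∈ S, wt v) * δ := by
  classical
  have hTi : LinearIndependent k fun c : Fin n => fun y => T y c := by
    rw [Fintype.linearIndependent_iff]
    intro z hz
    have h1 : (T.submatrix J0 id).mulVec z = 0 := by
      funext i
      have h2 := congrFun hz (J0 i)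
      rw [Finset.sum_apply, Pi.zero_apply] at h2
      rw [Pi.zero_apply, ← h2]
      show ∑ c, T (J0 i) c * z c = _
      refine Finset.sum_congr rfl fun c _ => ?_
      rw [Pi.smul_apply, smul_eq_mul, mul_comm]
    have h2 := Matrix.eq_zero_of_mulVec_eq_zero hdet h1
    exact fun i => congrFun h2 i
  obtain ⟨c, hc, hpl⟩ := plucker hν _ hK' A T hA.1 hTi (fun a c => hA.2 _ c) (fun a c => hT _ c)
  have hlog : logHeight (fun J : Fin n → Fin ν => (A.submatrix J id).det) =
      logHeight (fun J : Fin n → Fin ν => (T.submatrix J id).det) := by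
    have h1 : (fun J : Fin n → Fin ν => (A.submatrix J id).det) =
        c • (fun J : Fin n → Fin ν => (T.submatrix J id).det) := funext hpl
    rw [h1, logHeight_smul_eq_logHeight _ hc]
  have hne : Nonempty (Fin n → Fin ν) := ⟨J0⟩
  unfold hK prox
  rw [hlog, logHeight_split S hS _ (ne_of_coord (i := J0) hdet), logHeight_split S hS x hx]
  have hloc : ∀ v ∈ S, wt v * ∑ i, lam (av v) (F i) (d i) x +
      wt v * Real.log (nm (av v) fun J : Fin n → Fin ν => (T.submatrix J id).det) -
      n * (wt v * Real.log (nm (av v) x)) ≤ wt v * δ := by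
    intro v hv
    have h1 : nm (av v) x = av v (x (y0 v)) :=
      le_antisymm (nm_le _ ((av v).nonneg _) (hy0 v hv)) (le_nm _ _ _)
    have hpos : 0 < av v (x (y0 v)) := by
      rw [← h1]
      exact nm_pos _ hx
    obtain ⟨J, hJ⟩ := exists_nm (av v) fun J : Fin n → Fin ν => (T.submatrix J id).det
    have h2 : 0 < av v (T.submatrix J id).det := by
      rw [hJ]
      exact nm_pos _ (ne_of_coord (i := J0) hdet)
    have h3 := hineq v hv J
    rw [map_mul, map_mul, map_prod, map_prod, map_pow] at h3
    simp only [map_pow] at h3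
    have hF' : ∀ i, 0 < av v (eval x (F i (jj v i))) := fun i => (av v).pos (hF v hv i)
    have h4 : 0 < ∏ i, av v (x (y0 v)) ^ (d i (jj v i)) :=
      Finset.prod_pos fun i _ => pow_pos hpos _
    have h5 : 0 < ∏ i, av v (eval x (F i (jj v i))) := Finset.prod_pos fun i _ => hF' i
    have h6 := Real.log_le_log (mul_pos h2 h4) h3
    rw [Real.log_mul h2.ne' h4.ne', Real.log_mul (mul_pos (pow_pos hpos _) h5).ne'
      (Real.exp_pos _).ne', Real.log_mul (pow_pos hpos _).ne' h5.ne', Real.log_exp,
      Real.log_pow, Real.log_prod fun i _ => (pow_pos hpos _).ne',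
      Real.log_prod fun i _ => (hF' i).ne'] at h6
    simp only [Real.log_pow] at h6
    have h7 : ∑ i, lam (av v) (F i) (d i) x ≤ ∑ i, ((d i (jj v i) : ℝ) *
        Real.log (av v (x (y0 v))) - Real.log (av v (eval x (F i (jj v i))))) := by
      refine Finset.sum_le_sum fun i _ => ?_
      have h8 := lam_le (av v) (F i) (d i) x hx (jj v i) (hF v hv i)
      rwa [h1] at h8
    rw [Finset.sum_sub_distrib] at h7
    have h9 : ∑ i, lam (av v) (F i) (d i) x +
        Real.log (nm (av v) fun J : Fin n → Fin ν => (T.submatrix J id).det) -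
        n * Real.log (nm (av v) x) ≤ δ := by
      rw [h1, ← hJ]
      linarith
    have h10 := mul_le_mul_of_nonneg_left h9 (wt_nonneg v)
    linarith
  have hsum := Finset.sum_le_sum hloc
  rw [Finset.sum_sub_distrib, Finset.sum_add_distrib, ← Finset.mul_sum, ← Finset.sum_mul] at hsum
  linarith

end Pool.Agent.K1H83.VN
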