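import Mathlib
import Pool.Agent.W602.GT.Der

/-!
Good directions at polynomial points.
-/

set_option autoImplicit false
set_option linter.unusedSectionVars false

namespace Pool.Agent.K1H83.VN

open MvPolynomial

variable {k K G : Type} [Field k] [Field K] [Field G] [Algebra k K] [Algebra K G] [Algebra k G]
  [IsScalarTower k K G] {m ν n : ℕ}

/-- the derivative of `F` at `R` in the direction `W` -/
noncomputable def DF (R W : Fin ν → MvPolynomial (Fin m) K) (F : MvPolynomial (Fin ν) k) :
    MvPolynomial (Fin m) K :=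
  ∑ i, aeval R (pderiv i F) * W i

section DF
variable (R W : Fin ν → MvPolynomial (Fin m) K)

theorem DF_add (F F' : MvPolynomial (Fin ν) k) : DF R W (F + F') = DF R W F + DF R W F' := by
  unfold DF
  rw [← Finset.sum_add_distrib]
  refine Finset.sum_congr rfl fun i _ => ?_
  rw [map_add, map_add, add_mul]

theorem DF_C (a : k) : DF R W (C a) = 0 := by
  unfold DF
  refine Finset.sum_eq_zero fun i _ => ?_
  rw [pderiv_C, map_zero, zero_mul]

theorem DF_mul_X (F : MvPolynomial (Fin ν) k) (i : Fin ν) :
    DF R W (F * X i) = DF R W F * R i + aeval R F * W i := by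
  classical
  unfold DF
  have h1 : ∀ j, aeval R (pderiv j (F * X i)) * W j =
      (aeval R (pderiv j F) * W j) * R i + (if j = i then aeval R F * W j else 0) := by
    intro j
    rw [pderiv_mul, map_add, map_mul, map_mul, aeval_X, pderiv_X]
    by_cases hj : j = i
    · rw [if_pos hj, hj, Pi.single_eq_same, map_one]
      ring
    · rw [if_neg hj, Pi.single_eq_of_ne (Ne.symm hj), map_zero]
      ring
  rw [Finset.sum_congr rfl fun j _ => h1 j, Finset.sum_add_distrib, ← Finset.sum_mul,
    Finset.sum_ite_eq' Finset.univ i, if_pos (Finset.mem_univ _)]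

end DF

/-- the coefficients of `Q'` are obtained from those of `Q` by a derivation -/
def IsD (δ : Derivation k K K) (ℓ : (Fin m →₀ ℕ) → K) (Q Q' : MvPolynomial (Fin m) K) : Prop :=
  ∀ α, coeff α Q' = δ (coeff α Q) + ℓ α * coeff α Q

section IsD
variable {δ : Derivation k K K} {ℓ : (Fin m →₀ ℕ) → K}

theorem IsD.add {Q Q' R R' : MvPolynomial (Fin m) K} (h : IsD δ ℓ Q Q') (h' : IsD δ ℓ R R') :
    IsD δ ℓ (Q + R) (Q' + R') := by
  intro α
  rw [coeff_add, coeff_add, map_add, h, h']
  ring

theorem IsD.mul (hℓ : ∀ α β, ℓ (α + β) = ℓ α + ℓ β) {Q Q' R R' : MvPolynomial (Fin m) K}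
    (h : IsD δ ℓ Q Q') (h' : IsD δ ℓ R R') : IsD δ ℓ (Q * R) (Q' * R + Q * R') := by
  classical
  intro α
  rw [coeff_add, coeff_mul, coeff_mul, coeff_mul, map_sum, ← Finset.sum_add_distrib,
    Finset.mul_sum, ← Finset.sum_add_distrib]
  refine Finset.sum_congr rfl fun x hx => ?_
  rw [Finset.HasAntidiagonal.mem_antidiagonal] at hx
  rw [h, h', Derivation.leibniz, smul_eq_mul, smul_eq_mul, ← hx, hℓ]
  ring

theorem IsD.support {Q Q' : MvPolynomial (Fin m) K} (h : IsD δ ℓ Q Q') :
    Q'.support ⊆ Q.support := by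
  intro α hα
  rw [mem_support_iff] at hα ⊢
  intro h0
  apply hα
  rw [h α, h0, map_zero, mul_zero, add_zero]

theorem isD_aeval (hℓ : ∀ α β, ℓ (α + β) = ℓ α + ℓ β) (R W : Fin ν → MvPolynomial (Fin m) K)
    (h : ∀ i, IsD δ ℓ (R i) (W i)) (F : MvPolynomial (Fin ν) k) :
    IsD δ ℓ (aeval R F) (DF R W F) := by
  classical
  have h0 : ℓ 0 = 0 := by
    have := hℓ 0 0
    rw [add_zero] at this
    simpa using this
  induction F using MvPolynomial.induction_on with
  | C a =>
    intro α
    have h1 : aeval R (C a : MvPolynomial (Fin ν) k) = C (algebraMap k K a) := by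
      rw [aeval_C]
      rfl
    rw [DF_C, h1, coeff_C, coeff_zero]
    split_ifs with h2
    · rw [← h2, h0, Derivation.map_algebraMap, zero_mul, add_zero]
    · rw [map_zero, mul_zero, add_zero]
  | add p q hp hq =>
    rw [map_add, DF_add]
    exact hp.add hq
  | mul_X p i hp =>
    rw [map_mul, aeval_X, DF_mul_X]
    exact hp.mul hℓ (h i)

end IsD

/-- good directions: all the terms which occur in a derivative of a form occur in the form -/
def Good (k : Type) [Field k] [Algebra k K] (R W : Fin ν → MvPolynomial (Fin m) K) : Prop :=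
  ∀ (F : MvPolynomial (Fin ν) k) (e : ℕ), F.IsHomogeneous e →
    (DF R W F).support ⊆ (aeval R F).support

theorem good_self (R : Fin ν → MvPolynomial (Fin m) K) : Good k R R := by
  intro F e hF
  have h1 : DF R R F = (e : MvPolynomial (Fin m) K) * aeval R F := by
    have h2 := hF.sum_X_mul_pderiv
    have h3 := congrArg (aeval R) h2
    rw [map_sum] at h3
    unfold DF
    rw [nsmul_eq_mul, map_mul, map_natCast] at h3
    rw [← h3]
    refine Finset.sum_congr rfl fun i _ => ?_
    rw [map_mul, aeval_X, mul_comm]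
  rw [h1]
  intro α hα
  rw [mem_support_iff] at hα ⊢
  intro h0
  apply hα
  have h2 : (e : MvPolynomial (Fin m) K) = C (e : K) := by simp
  rw [h2, coeff_C_mul, h0, mul_zero]

theorem good_of_isD {δ : Derivation k K K} {ℓ : (Fin m →₀ ℕ) → K}
    (hℓ : ∀ α β, ℓ (α + β) = ℓ α + ℓ β) (R W : Fin ν → MvPolynomial (Fin m) K)
    (h : ∀ i, IsD δ ℓ (R i) (W i)) : Good k R W :=
  fun F _ _ => (isD_aeval hℓ R W h F).support

/-- the monomials in `T` -/
def mo (T : Fin m → G) (α : Fin m →₀ ℕ) : G := ∏ j, T j ^ α j

theorem mo_add (T : Fin m → G) (α β : Fin m →₀ ℕ) : mo T (α + β) = mo T α * mo T β := by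
  unfold mo
  rw [← Finset.prod_mul_distrib]
  exact Finset.prod_congr rfl fun j _ => by rw [Finsupp.add_apply, pow_add]

theorem mo_ne {T : Fin m → G} (hT : ∀ j, T j ≠ 0) (α : Fin m →₀ ℕ) : mo T α ≠ 0 :=
  Finset.prod_ne_zero_iff.2 fun j _ => pow_ne_zero _ (hT j)

theorem aeval_eq (T : Fin m → G) (P : MvPolynomial (Fin m) K) :
    aeval T P = ∑ α ∈ P.support, coeff α P • mo T α := by
  rw [aeval_def, eval₂_eq']
  exact Finset.sum_congr rfl fun α _ => (Algebra.smul_def _ _).symm

theorem aeval_eq' (T : Fin m → G) (P : MvPolynomial (Fin m) K) (s : Finset (Fin m →₀ ℕ))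
    (hs : P.support ⊆ s) : aeval T P = ∑ α ∈ s, coeff α P • mo T α := by
  rw [aeval_eq]
  refine Finset.sum_subset hs fun α _ hα => ?_
  rw [notMem_support_iff.1 hα, zero_smul]

/-- the derivative of a polynomial point is a combination of good directions -/
theorem good_decomp (T : Fin m → G) (hT : ∀ j, T j ≠ 0) (R : Fin ν → MvPolynomial (Fin m) K)
    (E : Derivation k G G) :
    ∃ (ι : Type) (s : Finset ι) (e : ι → G) (W : ι → Fin ν → MvPolynomial (Fin m) K),
      (∀ b, Good k R (W b)) ∧ ∀ i, E (aeval T (R i)) = ∑ b ∈ s, e b * aeval T (W b i) := by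
  classical
  let B := Module.Basis.ofVectorSpace K G
  have hKG : ∀ (c : K) (x : G), E (c • x) = c • E x + x * E (algebraMap K G c) := by
    intro c x
    rw [Algebra.smul_def, Derivation.leibniz, smul_eq_mul, smul_eq_mul, Algebra.smul_def]
  -- the derivations of `K`
  let δ := fun b => Derivation.mk' (R := k) (A := K) (M := K)
    { toFun := fun c => B.repr (E (algebraMap K G c)) b
      map_add' := by
        intro x y
        rw [map_add, map_add, map_add, Finsupp.add_apply]
      map_smul' := by
        intro c x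
        have h1 : algebraMap K G (c • x) = c • algebraMap K G x := by
          rw [Algebra.smul_def, map_mul, ← IsScalarTower.algebraMap_apply, ← Algebra.smul_def]
        rw [RingHom.id_apply, h1, Derivation.map_smul]
        have h2 : c • E (algebraMap K G x) = (algebraMap k K c) • E (algebraMap K G x) := by
          rw [algebraMap_smul]
        rw [h2, map_smul, Finsupp.smul_apply, algebraMap_smul] } (by
      intro x y
      show B.repr (E (algebraMap K G (x * y))) b = x • B.repr (E (algebraMap K G y)) b +
        y • B.repr (E (algebraMap K G x)) b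
      rw [map_mul, Derivation.leibniz, map_add, Finsupp.add_apply]
      have h1 : ∀ z w : K, algebraMap K G z • E (algebraMap K G w) = z • E (algebraMap K G w) := by
        intro z w
        rw [smul_eq_mul, Algebra.smul_def]
      rw [h1, h1, map_smul, map_smul, Finsupp.smul_apply, Finsupp.smul_apply])
  let ℓ := fun b (α : Fin m →₀ ℕ) => B.repr (E (mo T α) / mo T α) b
  have hδ : ∀ b c, δ b c = B.repr (E (algebraMap K G c)) b := fun b c => rfl
  have hℓ : ∀ b α β, ℓ b (α + β) = ℓ b α + ℓ b β := by
    intro b α β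
    show B.repr (E (mo T (α + β)) / mo T (α + β)) b = B.repr (E (mo T α) / mo T α) b +
      B.repr (E (mo T β) / mo T β) b
    rw [← Finsupp.add_apply, ← map_add]
    congr 2
    rw [mo_add, Derivation.leibniz, smul_eq_mul, smul_eq_mul]
    have h1 := mo_ne hT α
    have h2 := mo_ne hT β
    field_simp
    ring
  -- the values
  let w : Fin ν → (Fin m →₀ ℕ) → G := fun i α => E (coeff α (R i) • mo T α) / mo T α
  have hw : ∀ b i α, B.repr (w i α) b = δ b (coeff α (R i)) + ℓ b α * coeff α (R i) := by
    intro b i α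
    rw [hδ]
    show B.repr (E (coeff α (R i) • mo T α) / mo T α) b = _ +
      B.repr (E (mo T α) / mo T α) b * coeff α (R i)
    have h1 : E (coeff α (R i) • mo T α) / mo T α = E (algebraMap K G (coeff α (R i))) +
        coeff α (R i) • (E (mo T α) / mo T α) := by
      have h2 := mo_ne hT α
      rw [hKG, Algebra.smul_def, Algebra.smul_def]
      field_simp
      ring
    rw [h1, map_add, map_smul, Finsupp.add_apply, Finsupp.smul_apply, smul_eq_mul, mul_comm]
  let W : _ → Fin ν → MvPolynomial (Fin m) K := fun b i =>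
    ∑ α ∈ (R i).support, monomial α (B.repr (w i α) b)
  have hWc : ∀ b i, IsD (δ b) (ℓ b) (R i) (W b i) := by
    intro b i α
    rw [← hw]
    show coeff α (∑ α ∈ (R i).support, monomial α (B.repr (w i α) b)) = _
    rw [coeff_sum]
    simp_rw [coeff_monomial]
    rw [Finset.sum_ite_eq' (R i).support α]
    split_ifs with h
    · rfl
    · rw [hw, notMem_support_iff.1 h, map_zero, mul_zero, add_zero]
  refine ⟨_, Finset.univ.biUnion fun i => (R i).support.biUnion fun α => (B.repr (w i α)).support,
    fun b => B b, W, fun b => good_of_isD (hℓ b) R (W b) (hWc b), ?_⟩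
  intro i
  have h1 : E (aeval T (R i)) = ∑ α ∈ (R i).support, w i α * mo T α := by
    rw [aeval_eq, map_sum]
    refine Finset.sum_congr rfl fun α _ => ?_
    exact (div_mul_cancel₀ _ (mo_ne hT α)).symm
  have h2 : ∀ b, aeval T (W b i) = ∑ α ∈ (R i).support, B.repr (w i α) b • mo T α := by
    intro b
    rw [aeval_eq' T (W b i) (R i).support ((hWc b i).support)]
    refine Finset.sum_congr rfl fun α _ => ?_
    rw [hWc b i α, ← hw]
  rw [h1]
  simp_rw [h2, Finset.mul_sum]
  rw [Finset.sum_comm]
  refine Finset.sum_congr rfl fun α hα => ?_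
  have h3 : w i α = ∑ b ∈ (B.repr (w i α)).support, B.repr (w i α) b • B b := by
    have h4 := (B.linearCombination_repr (w i α)).symm
    rw [Finsupp.linearCombination_apply, Finsupp.sum] at h4
    exact h4
  have h5 : w i α = ∑ b ∈ (Finset.univ.biUnion fun i => (R i).support.biUnion fun α =>
      (B.repr (w i α)).support), B.repr (w i α) b • B b := by
    refine h3.trans (Finset.sum_subset ?_ ?_)
    · intro b hb
      exact Finset.mem_biUnion.2 ⟨i, Finset.mem_univ _, Finset.mem_biUnion.2 ⟨α, hα, hb⟩⟩
    · intro b _ hb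
      rw [Finsupp.notMem_support_iff.1 hb, zero_smul]
  conv_lhs => rw [h5]
  rw [Finset.sum_mul]
  refine Finset.sum_congr rfl fun b _ => ?_
  rw [Algebra.smul_def, Algebra.smul_def]
  ring

/-- dual derivations of algebraically independent elements -/
theorem exists_dual [CharZero k] (y : Fin n → G) (hy : AlgebraicIndependent k y) (c : Fin n) :
    ∃ E : Derivation k G G, ∀ i, E (y i) = if i = c then 1 else 0 := by
  classical
  have hyr : AlgebraicIndepOn k id (Set.range y) := hy.coe_range
  obtain ⟨t, hst, ht⟩ := exists_isTranscendenceBasis_superset hyr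
  obtain ⟨E, hE⟩ := Pool.Agent.W602.GT.exists_der (L := k) (K := G) (fun z : t => (z : G)) ht
    (fun z => if (z : G) = y c then 1 else 0)
  refine ⟨E, fun i => ?_⟩
  have h1 := hE ⟨y i, hst ⟨i, rfl⟩⟩
  simp only at h1
  rw [h1]
  by_cases h : i = c
  · rw [if_pos h, if_pos (by rw [h])]
  · rw [if_neg h, if_neg (fun h' => h (hy.injective h'))]

/-- enough good directions -/
theorem exists_good_abs [CharZero k] (T : Fin m → G) (hT : ∀ j, T j ≠ 0)
    (R : Fin ν → MvPolynomial (Fin m) K) (J0 : Fin n → Fin ν) (σ : G)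
    (hσ : AlgebraicIndependent k (fun i => σ * aeval T (R (J0 i)))) :
    ∃ W : Fin n → Fin ν → MvPolynomial (Fin m) K, (∀ c, Good k R (W c)) ∧
      (Matrix.of fun (i c : Fin n) => aeval T (W c (J0 i))).det ≠ 0 := by
  classical
  choose E hE using fun c => exists_dual _ hσ c
  -- the span of the good directions
  set S : Set (Fin n → G) := {w | ∃ W : Fin ν → MvPolynomial (Fin m) K, Good k R W ∧
    w = fun i => aeval T (W (J0 i))} with hS
  have hx1 : (fun i => aeval T (R (J0 i))) ∈ Submodule.span G S :=
    Submodule.subset_span ⟨R, good_self R, rfl⟩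
  have hx2 : ∀ D : Derivation k G G, (fun i => D (aeval T (R (J0 i)))) ∈ Submodule.span G S := by
    intro D
    obtain ⟨ι, s, e, W, hW, hdec⟩ := good_decomp T hT R D
    have h1 : (fun i => D (aeval T (R (J0 i)))) =
        ∑ b ∈ s, e b • (fun i => aeval T (W b (J0 i))) := by
      funext i
      rw [Finset.sum_apply, hdec]
      rfl
    rw [h1]
    refine Submodule.sum_mem _ fun b _ => Submodule.smul_mem _ _ ?_
    exact Submodule.subset_span ⟨W b, hW b, rfl⟩
  have htop : Submodule.span G S = ⊤ := by
    rw [eq_top_iff]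
    intro w _
    have h1 : ∀ c : Fin n, (Pi.single c 1 : Fin n → G) ∈ Submodule.span G S := by
      intro c
      have h2 : (Pi.single c 1 : Fin n → G) =
          σ • (fun i => E c (aeval T (R (J0 i)))) + E c σ • (fun i => aeval T (R (J0 i))) := by
        funext i
        have h3 := hE c i
        rw [Derivation.leibniz, smul_eq_mul, smul_eq_mul] at h3
        rw [Pi.add_apply, Pi.smul_apply, Pi.smul_apply, smul_eq_mul, smul_eq_mul,
          mul_comm (E c σ), Pi.single_apply]
        exact h3.symm
      rw [h2]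
      exact Submodule.add_mem _ (Submodule.smul_mem _ _ (hx2 _)) (Submodule.smul_mem _ _ hx1)
    have h2 : w = ∑ c, w c • (Pi.single c 1 : Fin n → G) := by
      funext i
      rw [Finset.sum_apply]
      simp [Pi.single_apply]
    rw [h2]
    exact Submodule.sum_mem _ fun c _ => Submodule.smul_mem _ _ (h1 c)
  -- a basis
  obtain ⟨B, hBS, hBspan, hB⟩ := exists_linearIndependent G S
  rw [htop] at hBspan
  have hBfin : B.Finite := hB.setFinite
  have : Fintype B := hBfin.fintype
  have hcard : Fintype.card B = n := by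
    have h1 := finrank_span_set_eq_card hB
    rw [hBspan, finrank_top, Module.finrank_fin_fun] at h1
    rw [← Set.toFinset_card, ← h1]
  let eq := (Fintype.equivFinOfCardEq hcard).symm
  choose W hW1 hW2 using fun c : Fin n => hBS (eq c).2
  refine ⟨W, hW1, ?_⟩
  have hli : LinearIndependent G (fun c : Fin n => ((eq c : B) : Fin n → G)) :=
    hB.comp eq eq.injective
  have h1 : (Matrix.of fun (i c : Fin n) => aeval T (W c (J0 i))) =
      (Matrix.of fun c : Fin n => ((eq c : B) : Fin n → G)).transpose := by
    ext i c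
    rw [Matrix.transpose_apply, Matrix.of_apply, Matrix.of_apply, hW2]
  rw [h1, Matrix.det_transpose]
  have h2 : LinearIndependent G (Matrix.of fun c : Fin n => ((eq c : B) : Fin n → G)).row := hli
  exact ((Matrix.linearIndependent_rows_iff_isUnit.1 h2).map Matrix.detMonoidHom).ne_zero

end Pool.Agent.K1H83.VN
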