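import Mathlib

/-!
Generic algebra: coprime combinations of polynomials and multiplicative bases modulo a subfield
(the proofs are those of the starting library, files `Y724/Vj/GTa.lean` and `Y724/Vj/Grp.lean`).
-/

set_option autoImplicit false

namespace Pool.Agent.K1H83.VN

open MvPolynomial

section poly
variable {K : Type} [Field K] {m ν : ℕ}

lemma extract (P : Fin ν → MvPolynomial (Fin m) K) (y1 : Fin ν) (h1 : P y1 ≠ 0) :
    ∃ (Q : MvPolynomial (Fin m) K) (R : Fin ν → MvPolynomial (Fin m) K),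
      (∀ y, P y = Q * R y) ∧ Q ≠ 0 ∧ R y1 ≠ 0 ∧ ∀ π, Prime π → ∃ y, ¬ π ∣ R y := by
  classical
  let _ : NormalizationMonoid (MvPolynomial (Fin m) K) :=
    Classical.choice inferInstance
  let _ := UniqueFactorizationMonoid.toNormalizedGCDMonoid (MvPolynomial (Fin m) K)
  obtain ⟨R, hR, hR1⟩ := Finset.extract_gcd (s := Finset.univ) P ⟨y1, Finset.mem_univ _⟩
  refine ⟨Finset.univ.gcd P, R, fun y => hR y (Finset.mem_univ _), ?_, ?_, ?_⟩
  · intro h0
    apply h1
    rw [hR y1 (Finset.mem_univ _), h0, zero_mul]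
  · intro h0
    apply h1
    rw [hR y1 (Finset.mem_univ _), h0, mul_zero]
  · intro π hπ
    by_contra hcon
    push Not at hcon
    have h2 : π ∣ Finset.univ.gcd R := Finset.dvd_gcd fun y _ => hcon y
    rw [hR1] at h2
    exact hπ.not_isUnit (isUnit_of_dvd_one h2)

lemma exists_coprime [Infinite K] (R : Fin ν → MvPolynomial (Fin m) K) (y1 : Fin ν)
    (h1 : R y1 ≠ 0) (hcop : ∀ π, Prime π → ∃ y, ¬ π ∣ R y) :
    ∃ c : Fin ν → K, (∑ y, C (c y) * R y) ≠ 0 ∧ IsRelPrime (R y1) (∑ y, C (c y) * R y) := by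
  classical
  let ℓ : (Fin ν → K) →ₗ[K] MvPolynomial (Fin m) K :=
    { toFun := fun c => ∑ y, C (c y) * R y
      map_add' := by
        intro c d
        rw [← Finset.sum_add_distrib]
        refine Finset.sum_congr rfl fun y _ => ?_
        rw [Pi.add_apply, C_add, add_mul]
      map_smul' := by
        intro a c
        rw [RingHom.id_apply, Finset.smul_sum]
        refine Finset.sum_congr rfl fun y _ => ?_
        rw [Pi.smul_apply, smul_eq_mul, C_mul, smul_eq_C_mul, mul_assoc] }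
  have hℓ : ∀ y, ℓ (Pi.single y 1) = R y := by
    intro y
    change ∑ y', C ((Pi.single y (1 : K) : Fin ν → K) y') * R y' = R y
    rw [Finset.sum_eq_single y]
    · rw [Pi.single_eq_same, C_1, one_mul]
    · intro y' _ hy'
      rw [Pi.single_eq_of_ne hy', C_0, zero_mul]
    · intro h
      exact absurd (Finset.mem_univ _) h
  let Sp : MvPolynomial (Fin m) K → Submodule K (Fin ν → K) := fun π =>
    Submodule.comap ℓ ((Ideal.span {π} : Ideal (MvPolynomial (Fin m) K)).restrictScalars K)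
  have hSp : ∀ π c, c ∈ Sp π ↔ π ∣ ℓ c := by
    intro π c
    change ℓ c ∈ (Ideal.span {π} : Ideal (MvPolynomial (Fin m) K)) ↔ _
    rw [Ideal.mem_span_singleton]
  set F : Finset (Submodule K (Fin ν → K)) :=
    insert (LinearMap.ker ℓ)
      ((UniqueFactorizationMonoid.factors (R y1)).toFinset.image Sp) with hF
  have htop : ⊤ ∉ F := by
    intro hmem
    rcases Finset.mem_insert.1 hmem with h | h
    · have h2 : (Pi.single y1 1 : Fin ν → K) ∈ LinearMap.ker ℓ := by
        rw [← h]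
        exact Submodule.mem_top
      rw [LinearMap.mem_ker, hℓ] at h2
      exact h1 h2
    · obtain ⟨π, hπ, h⟩ := Finset.mem_image.1 h
      have hπ1 := UniqueFactorizationMonoid.prime_of_factor π (Multiset.mem_toFinset.1 hπ)
      obtain ⟨y, hy⟩ := hcop π hπ1
      apply hy
      have h2 : (Pi.single y 1 : Fin ν → K) ∈ Sp π := by
        rw [h]
        exact Submodule.mem_top
      rw [hSp, hℓ] at h2
      exact h2
  have hne := Subspace.biUnion_ne_univ_of_top_notMem htop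
  obtain ⟨c, hc⟩ := (Set.ne_univ_iff_exists_notMem _).1 hne
  rw [Set.mem_iUnion₂] at hc
  push Not at hc
  refine ⟨c, ?_, ?_⟩
  · intro h0
    exact hc (LinearMap.ker ℓ) (Finset.mem_insert_self _ _) (LinearMap.mem_ker.2 h0)
  · rw [UniqueFactorizationMonoid.isRelPrime_iff_no_prime_factors h1]
    intro d hd1 hd2 hdp
    obtain ⟨π, hπ, hπd⟩ := UniqueFactorizationMonoid.exists_mem_factors_of_dvd h1
      hdp.irreducible hd1
    refine hc (Sp π) (Finset.mem_insert_of_mem (Finset.mem_image.2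
      ⟨π, Multiset.mem_toFinset.2 hπ, rfl⟩)) ?_
    rw [SetLike.mem_coe, hSp]
    exact hπd.symm.dvd.trans hd2

end poly

section abs
variable {G : Type} [Field G] (K : Subfield G)

/-- the units in the subfield -/
def HKa : Subgroup Gˣ where
  carrier := {x | (x : G) ∈ K}
  mul_mem' := by
    intro x y hx hy
    change ((x * y : Gˣ) : G) ∈ K
    rw [Units.val_mul]
    exact K.mul_mem hx hy
  one_mem' := K.one_mem
  inv_mem' := by
    intro x hx
    change ((x⁻¹ : Gˣ) : G) ∈ K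
    rw [Units.val_inv_eq_inv_val]
    exact K.inv_mem hx

section A
variable {A : Type} [AddCommGroup A] (φ : Additive Gˣ →+ A)

lemma qm_zpow (x : Gˣ) (k : ℤ) : φ (Additive.ofMul (x ^ k)) = k • φ (Additive.ofMul x) := by
  rw [ofMul_zpow, map_zsmul]

lemma qm_prod {ι : Type} (S : Finset ι) (f : ι → Gˣ) :
    φ (Additive.ofMul (∏ i ∈ S, f i)) = ∑ i ∈ S, φ (Additive.ofMul (f i)) := by
  rw [ofMul_prod, map_sum]

variable (hφ : ∀ x : Gˣ, φ (Additive.ofMul x) = 0 ↔ (x : G) ∈ K)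
  (hs : Function.Surjective φ)

include hφ hs in
lemma qm_torsion (hroot : ∀ (g : G) (n : ℕ), n ≠ 0 → g ^ n ∈ K → g ∈ K)
    (x : A) (k : ℤ) (hk : k ≠ 0) (h : k • x = 0) : x = 0 := by
  obtain ⟨z, rfl⟩ : ∃ z : Gˣ, φ (Additive.ofMul z) = x := by
    obtain ⟨z, hz⟩ := hs x
    exact ⟨Additive.toMul z, hz⟩
  rw [← qm_zpow, hφ] at h
  rw [hφ]
  rw [Units.val_zpow_eq_zpow_val] at h
  obtain ⟨n, rfl | rfl⟩ := Int.eq_nat_or_neg k
  · rw [zpow_natCast] at h
    exact hroot _ n (by rintro rfl; simp at hk) h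
  · rw [zpow_neg, zpow_natCast] at h
    have h1 := K.inv_mem h
    rw [inv_inv] at h1
    exact hroot _ n (by rintro rfl; simp at hk) h1

include hφ hs in
theorem abs_basis' (hroot : ∀ (g : G) (n : ℕ), n ≠ 0 → g ^ n ∈ K → g ∈ K) {r : ℕ} (u : Fin r → G)
    (hu0 : ∀ j, u j ≠ 0) :
    ∃ (m : ℕ) (c : Fin m → Fin r → ℤ),
      (∀ d : Fin m → ℤ, ∏ k, (∏ j, u j ^ c k j) ^ d k ∈ K → d = 0) ∧
      ∀ j, ∃ (κ : K) (a : Fin m → ℤ), u j = (κ : G) * ∏ k, (∏ j, u j ^ c k j) ^ a k := by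
  classical
  set U : Fin r → Gˣ := fun j => Units.mk0 (u j) (hu0 j) with hU
  set N : Submodule ℤ A :=
    Submodule.span ℤ (Set.range fun j => φ (Additive.ofMul (U j))) with hN
  have hNf : Module.Finite ℤ N := Module.Finite.span_of_finite ℤ (Set.finite_range _)
  have hNt : Module.IsTorsionFree ℤ N := by
    refine ⟨fun k hk x y hxy => ?_⟩
    have hk0 : k ≠ 0 := hk.ne_zero
    have h1 : k • (x - y) = 0 := by
      rw [smul_sub]
      exact sub_eq_zero.2 hxy
    have h2 := qm_torsion K φ hφ hs hroot ((x - y : N) : A) k hk0 (by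
      rw [← Submodule.coe_smul, h1]
      rfl)
    have h3 : x - y = 0 := Subtype.ext h2
    exact sub_eq_zero.1 h3
  have hNfree : Module.Free ℤ N := Module.free_of_finite_type_torsion_free'
  let B := Module.finBasis ℤ N
  have hc : ∀ k, ∃ c : Fin r → ℤ, ∑ j, c j • φ (Additive.ofMul (U j)) = ((B k : N) : A) :=
    fun k => (Submodule.mem_span_range_iff_exists_fun ℤ).1 (B k).2
  choose c hc using hc
  set y : Fin (Module.finrank ℤ N) → Gˣ := fun k => ∏ j, U j ^ c k j with hy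
  have hqy : ∀ k, φ (Additive.ofMul (y k)) = ((B k : N) : A) := by
    intro k
    rw [← hc, hy]
    simp only
    rw [qm_prod]
    exact Finset.sum_congr rfl fun j _ => qm_zpow φ _ _
  have hyv : ∀ k, ((y k : Gˣ) : G) = ∏ j, u j ^ c k j := by
    intro k
    rw [hy]
    simp only
    rw [Units.coe_prod]
    refine Finset.prod_congr rfl fun j _ => ?_
    rw [Units.val_zpow_eq_zpow_val]
    rfl
  have hval : ∀ d : Fin (Module.finrank ℤ N) → ℤ, ((∏ k, y k ^ d k : Gˣ) : G) =
      ∏ k, (∏ j, u j ^ c k j) ^ d k := by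
    intro d
    rw [Units.coe_prod]
    refine Finset.prod_congr rfl fun k _ => ?_
    rw [Units.val_zpow_eq_zpow_val, hyv]
  have hq : ∀ d : Fin (Module.finrank ℤ N) → ℤ, φ (Additive.ofMul (∏ k, y k ^ d k)) =
      ((∑ k, d k • B k : N) : A) := by
    intro d
    rw [qm_prod, Submodule.coe_sum]
    refine Finset.sum_congr rfl fun k _ => ?_
    rw [qm_zpow, hqy, Submodule.coe_smul]
  refine ⟨Module.finrank ℤ N, c, ?_, ?_⟩
  · intro d hd
    rw [← hval, ← hφ, hq] at hd
    have h3 : ∑ k, d k • B k = 0 := Subtype.ext hd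
    funext k
    exact Fintype.linearIndependent_iff.1 B.linearIndependent _ h3 k
  · intro j
    have h1 : φ (Additive.ofMul (U j)) ∈ N := Submodule.subset_span ⟨j, rfl⟩
    have h2 := B.sum_repr ⟨_, h1⟩
    have h3 := hq (fun k => B.repr ⟨_, h1⟩ k)
    rw [h2] at h3
    have h4 : φ (Additive.ofMul (U j / ∏ k, y k ^ (B.repr ⟨_, h1⟩ k))) = 0 := by
      rw [ofMul_div, map_sub, h3, sub_self]
    rw [hφ] at h4
    refine ⟨⟨_, h4⟩, fun k => B.repr ⟨_, h1⟩ k, ?_⟩
    rw [← hval, ← Units.val_mul, div_mul_cancel]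
    rfl

end A

theorem abs_basis (hroot : ∀ (g : G) (n : ℕ), n ≠ 0 → g ^ n ∈ K → g ∈ K) {r : ℕ} (u : Fin r → G)
    (hu0 : ∀ j, u j ≠ 0) :
    ∃ (m : ℕ) (c : Fin m → Fin r → ℤ),
      (∀ d : Fin m → ℤ, ∏ k, (∏ j, u j ^ c k j) ^ d k ∈ K → d = 0) ∧
      ∀ j, ∃ (κ : K) (a : Fin m → ℤ), u j = (κ : G) * ∏ k, (∏ j, u j ^ c k j) ^ a k := by
  let inst : AddCommGroup (Additive (Gˣ ⧸ HKa K)) := inferInstance
  let φ : Additive Gˣ →+ Additive (Gˣ ⧸ HKa K) :=
    MonoidHom.toAdditive (QuotientGroup.mk' (HKa K))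
  have hφ : ∀ x : Gˣ, φ (Additive.ofMul x) = 0 ↔ (x : G) ∈ K := by
    intro x
    change Additive.ofMul (QuotientGroup.mk' (HKa K) x) = 0 ↔ _
    rw [ofMul_eq_zero, QuotientGroup.mk'_apply, QuotientGroup.eq_one_iff]
    rfl
  have hs : Function.Surjective φ := by
    intro x
    obtain ⟨z, hz⟩ := QuotientGroup.mk'_surjective (HKa K) (Additive.toMul x)
    exact ⟨Additive.ofMul z, congrArg Additive.ofMul hz⟩
  exact abs_basis' K (A := Additive (Gˣ ⧸ HKa K)) φ hφ hs hroot u hu0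

end abs

end Pool.Agent.K1H83.VN
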