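import Pool.Agent.K1H83.VN.Ub
import Pool.Agent.K1H83.VN.Gen
import Pool.Agent.Y724.Vj.Ech

/-!
The common divisor of the values of coprime polynomials at unit germs is small.
-/

set_option autoImplicit false
set_option linter.unusedSectionVars false

namespace Pool.Agent.K1H83.VN

open NumberField IsDedekindDomain Height Filter Topology MvPolynomial
open Pool.Agent.W180.OP (Pl av wt fv fv_support_finite wt_nonneg)
open Pool.Agent.Y724.Vj (ech Bs mem_Bs card_Bs RB finrank_RB WW WW_le finrank_WW count_box)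

variable {k : Type} [Field k] [NumberField k] {σ : Sc}

theorem lim_sum (S : Finset (Pl k)) (hS : ∀ w : InfinitePlace k, Sum.inl w ∈ S) (g : G k σ)
    (hg : SU S g) (c : Pl k → ℝ)
    (hc : ∀ v, Tendsto (fun t => lv v g t / σ.L t) (σ.𝒰 : Filter ℕ) (𝓝 (c v))) :
    ∑ v ∈ S, wt v * c v = 0 := by
  have h1 : Tendsto (fun t => ∑ v ∈ S, wt v * (lv v g t / σ.L t)) (σ.𝒰 : Filter ℕ)
      (𝓝 (∑ v ∈ S, wt v * c v)) := tendsto_finsetSum _ fun v _ => (hc v).const_mul _
  have h2 : Tendsto (fun t => ∑ v ∈ S, wt v * (lv v g t / σ.L t)) (σ.𝒰 : Filter ℕ) (𝓝 0) := by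
    refine (tendsto_const_nhds (x := (0 : ℝ))).congr' ?_
    filter_upwards [hg] with t ht
    have h3 := ht.prod_formula hS
    have h4 : ∑ v ∈ S, wt v * (lv v g t / σ.L t) = (∑ v ∈ S, wt v * lv v g t) / σ.L t := by
      rw [Finset.sum_div]
      exact Finset.sum_congr rfl fun v _ => by rw [mul_div_assoc]
    rw [h4]
    unfold lv
    rw [h3, zero_div]
  exact tendsto_nhds_unique h1 h2

/-- the combinatorial estimate -/
theorem box_sum {m n M : ℕ} (S : Finset (Pl k)) (τ : Pl k → Fin m → ℝ)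
    (hτ : ∀ j, ∑ v ∈ S, wt v * τ v j = 0) (E : ℝ) (hE : ∀ v ∈ S, ∑ j, |τ v j| ≤ E)
    (π : Pl k → Fin M → (Fin m →₀ ℕ)) (hπ1 : ∀ v, Function.Injective (π v))
    (hπ2 : ∀ v i, π v i ∈ Bs (fun _ : Fin m => n)) (hMn : M ≤ n ^ m) :
    ∑ v ∈ S, wt v * ∑ i, ∑ j, (π v i j : ℝ) * τ v j ≤
      (∑ v ∈ S, wt v) * (((n : ℝ) ^ m - M) * (n * E)) := by
  classical
  have e1 : ∀ v, ∑ i : Fin M, ∑ j, (π v i j : ℝ) * τ v j =
      ∑ d ∈ Bs (fun _ : Fin m => n), ∑ j, (d j : ℝ) * τ v j -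
        ∑ d ∈ Bs (fun _ : Fin m => n) \ Finset.univ.image (π v), ∑ j, (d j : ℝ) * τ v j := by
    intro v
    have h1 : Finset.univ.image (π v) ⊆ Bs (fun _ : Fin m => n) := by
      intro d hd
      obtain ⟨i, -, rfl⟩ := Finset.mem_image.1 hd
      exact hπ2 v i
    rw [← Finset.sum_sdiff h1, Finset.sum_image fun i _ j _ h => hπ1 v h]
    ring
  have e3 : ∑ v ∈ S, wt v * ∑ d ∈ Bs (fun _ : Fin m => n), ∑ j, (d j : ℝ) * τ v j = 0 := by
    simp only [Finset.mul_sum]
    rw [Finset.sum_comm]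
    apply Finset.sum_eq_zero
    intro d _
    rw [Finset.sum_comm]
    apply Finset.sum_eq_zero
    intro j _
    have h1 : ∑ v ∈ S, wt v * ((d j : ℝ) * τ v j) = (d j : ℝ) * ∑ v ∈ S, wt v * τ v j := by
      rw [Finset.mul_sum]
      exact Finset.sum_congr rfl fun v _ => by ring
    rw [h1, hτ, mul_zero]
  have e4 : ∀ v ∈ S, -(∑ d ∈ Bs (fun _ : Fin m => n) \ Finset.univ.image (π v),
      ∑ j, (d j : ℝ) * τ v j) ≤ ((n : ℝ) ^ m - M) * (n * E) := by
    intro v hv
    rw [← Finset.sum_neg_distrib]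
    have h1 : ∀ d ∈ Bs (fun _ : Fin m => n) \ Finset.univ.image (π v),
        -(∑ j, (d j : ℝ) * τ v j) ≤ n * E := by
      intro d hd
      have h2 := mem_Bs.1 (Finset.mem_sdiff.1 hd).1
      calc -(∑ j, (d j : ℝ) * τ v j) ≤ ∑ j, (n : ℝ) * |τ v j| := by
            rw [← Finset.sum_neg_distrib]
            refine Finset.sum_le_sum fun j _ => ?_
            have h3 : (d j : ℝ) ≤ n := by exact_mod_cast (h2 j).le
            calc -((d j : ℝ) * τ v j) = (d j : ℝ) * (-τ v j) := by ring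
              _ ≤ (d j : ℝ) * |τ v j| :=
                  mul_le_mul_of_nonneg_left (neg_le_abs _) (Nat.cast_nonneg _)
              _ ≤ _ := mul_le_mul_of_nonneg_right h3 (abs_nonneg _)
        _ = n * ∑ j, |τ v j| := by rw [Finset.mul_sum]
        _ ≤ _ := mul_le_mul_of_nonneg_left (hE v hv) (Nat.cast_nonneg _)
    refine (Finset.sum_le_card_nsmul _ _ _ h1).trans (le_of_eq ?_)
    rw [nsmul_eq_mul, Finset.card_sdiff_of_subset, Finset.card_image_of_injective _ (hπ1 v),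
      Finset.card_univ, Fintype.card_fin, card_Bs, Finset.prod_const, Finset.card_univ,
      Fintype.card_fin, Nat.cast_sub hMn]
    · push_cast
      ring
    · intro d hd
      obtain ⟨i, -, rfl⟩ := Finset.mem_image.1 hd
      exact hπ2 v i
  have e5 : ∑ v ∈ S, wt v * ∑ i, ∑ j, (π v i j : ℝ) * τ v j =
      ∑ v ∈ S, wt v * ∑ d ∈ Bs (fun _ : Fin m => n), ∑ j, (d j : ℝ) * τ v j +
      ∑ v ∈ S, wt v * -(∑ d ∈ Bs (fun _ : Fin m => n) \ Finset.univ.image (π v),
      ∑ j, (d j : ℝ) * τ v j) := by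
    rw [← Finset.sum_add_distrib]
    refine Finset.sum_congr rfl fun v _ => ?_
    rw [e1]
    ring
  rw [e5, e3, zero_add, Finset.sum_mul]
  exact Finset.sum_le_sum fun v hv => mul_le_mul_of_nonneg_left (e4 v hv) (wt_nonneg v)

/-- the greatest common divisor theorem for germs -/
theorem gcd_germ (S : Finset (Pl k)) (hS : ∀ w : InfinitePlace k, Sum.inl w ∈ S) {m : ℕ}
    (T : Fin m → G k σ) (hT : ∀ j, SU S (T j)) (hTB : ∀ j, T j ∈ BB k σ)
    (hind : ∀ p : MvPolynomial (Fin m) (FF k σ), ev T p = 0 → p = 0)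
    (f g : MvPolynomial (Fin m) (FF k σ)) (hf : f ≠ 0) (hg : g ≠ 0) (hfg : IsRelPrime f g) :
    Sm σ fun t => -ho S ![rep (ev T f) t, rep (ev T g) t] := by
  classical
  have hT0 : ∀ j, T j ≠ 0 := fun j => (hT j).ne_zero
  have hlim := fun (v : Pl k) (j : Fin m) => exists_lim v (T j) (hT0 j) (hTB j)
  choose τ hτ using hlim
  have hτsum : ∀ j, ∑ v ∈ S, wt v * τ v j = 0 := fun j =>
    lim_sum S hS (T j) (hT j) (fun v => τ v j) fun v => hτ v j
  have hUb : ∀ v j, Ub v (T j) (τ v j) := fun v j => lim_Ub (hT0 j) (hτ v j)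
  obtain ⟨E, hE⟩ : ∃ E : ℝ, E = 1 + ∑ v ∈ S, ∑ j, |τ v j| := ⟨_, rfl⟩
  have hE0 : 0 < E := by
    have : 0 ≤ ∑ v ∈ S, ∑ j, |τ v j| :=
      Finset.sum_nonneg fun v _ => Finset.sum_nonneg fun j _ => abs_nonneg _
    linarith
  have hEv : ∀ v ∈ S, ∑ j, |τ v j| ≤ E := by
    intro v hv
    have h2 : ∑ j, |τ v j| ≤ ∑ v ∈ S, ∑ j, |τ v j| :=
      Finset.single_le_sum (f := fun v => ∑ j, |τ v j|)
        (fun v _ => Finset.sum_nonneg fun j _ => abs_nonneg _) hv
    linarith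
  obtain ⟨Wt, hWt⟩ : ∃ Wt : ℝ, Wt = ∑ v ∈ S, wt v := ⟨_, rfl⟩
  have hWt0 : 0 ≤ Wt := hWt ▸ Finset.sum_nonneg fun v _ => wt_nonneg v
  intro ε hε
  obtain ⟨n0, hn0⟩ := count_box (fun j => degreeOf j f) (fun j => degreeOf j g)
    (ε / (2 * ((Wt + 1) * E))) (by positivity)
  obtain ⟨n, hn⟩ : ∃ n : ℕ, n = max n0 (∑ j, (degreeOf j f + degreeOf j g) + 1) := ⟨_, rfl⟩
  have hdeg : ∀ j, degreeOf j f + degreeOf j g < n := by
    intro j
    have h1 := Finset.single_le_sum (f := fun j => degreeOf j f + degreeOf j g)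
      (fun _ _ => Nat.zero_le _) (Finset.mem_univ j)
    have h2 := le_max_right n0 (∑ j, (degreeOf j f + degreeOf j g) + 1)
    omega
  have hn1 : 1 ≤ n := by
    have h2 := le_max_right n0 (∑ j, (degreeOf j f + degreeOf j g) + 1)
    omega
  have hWle : WW f g n ≤ RB (FF k σ) fun _ : Fin m => n := WW_le hdeg
  have hWfin : Module.Finite (FF k σ) (WW f g n) :=
    Module.Finite.of_injective (Submodule.inclusion hWle) (Submodule.inclusion_injective hWle)
  obtain ⟨M, hM⟩ : ∃ M, M = Module.finrank (FF k σ) (WW f g n) := ⟨_, rfl⟩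
  have hMn : M ≤ n ^ m := by
    have h1 := Submodule.finrank_mono hWle
    rw [finrank_RB, ← hM] at h1
    simpa using h1
  obtain ⟨hc1, hc2⟩ := hn0 n (by rw [hn]; exact le_max_left _ _) M
    (by rw [hM]; exact finrank_WW hf hg hfg hdeg) hMn
  have hM0 : (0 : ℝ) < M := by
    have h1 : (0 : ℝ) < (n : ℝ) ^ m := by positivity
    linarith
  have hM1 : (1 : ℝ) ≤ M := by
    have h1 : 0 < M := by exact_mod_cast hM0
    exact_mod_cast h1
  -- adapted bases
  have hWzero : ∀ x ∈ WW f g n, (∀ j ∈ Bs (fun _ : Fin m => n), lcoeff (FF k σ) j x = 0) →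
      x = 0 := by
    intro x hx h0
    apply MvPolynomial.ext
    intro j
    rw [coeff_zero]
    by_cases hj : j ∈ Bs (fun _ : Fin m => n)
    · exact h0 j hj
    · have h1 := (mem_restrictSupport_iff (R := FF k σ)).1 (hWle hx)
      by_contra h3
      exact hj (h1 (mem_support_iff.2 h3))
  have hech : ∀ v, ∃ (ψ : Fin M → MvPolynomial (Fin m) (FF k σ)) (π : Fin M → (Fin m →₀ ℕ)),
      LinearIndependent (FF k σ) ψ ∧ Submodule.span (FF k σ) (Set.range ψ) = WW f g n ∧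
      Function.Injective π ∧ (∀ i, π i ∈ Bs (fun _ : Fin m => n)) ∧
      ∀ i, ∀ j ∈ Bs (fun _ : Fin m => n), coeff j (ψ i) ≠ 0 →
        ∑ l, (j l : ℝ) * τ v l ≤ ∑ l, (π i l : ℝ) * τ v l := by
    intro v
    obtain ⟨M', ψ, π, h1, h2, h3, h4, h5⟩ := ech (fun j => lcoeff (FF k σ) j)
      (fun j => -∑ l, (j l : ℝ) * τ v l) (Bs (fun _ : Fin m => n)) (WW f g n) hWzero
    have h6 : M' = M := by
      have h7 := finrank_span_eq_card h1
      rw [h2, Fintype.card_fin, ← hM] at h7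
      exact h7.symm
    subst h6
    exact ⟨ψ, π, h1, h2, h3, h4, fun i j hj hne => neg_le_neg_iff.1 (h5 i j hj hne)⟩
  choose ψ π hψ1 hψ2 hπ1 hπ2 hψ3 using hech
  have hψW : ∀ v i, ψ v i ∈ WW f g n := by
    intro v i
    rw [← hψ2 v]
    exact Submodule.subset_span ⟨i, rfl⟩
  have hsupp : ∀ v i, ∀ d ∈ (ψ v i).support, d ∈ Bs (fun _ : Fin m => n) := fun v i d hd =>
    (mem_restrictSupport_iff (R := FF k σ)).1 (hWle (hψW v i)) hd
  have hindv : ∀ v, LinearIndependent (FF k σ) fun i => ev T (ψ v i) := by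
    intro v
    rw [Fintype.linearIndependent_iff]
    intro c hc
    have h1 : ev T (∑ i, c i • ψ v i) = 0 := by
      rw [map_sum, ← hc]
      exact Finset.sum_congr rfl fun i _ => map_smul (ev T) _ _
    exact Fintype.linearIndependent_iff.1 (hψ1 v) c (hind _ h1)
  have hBB : ∀ p : MvPolynomial (Fin m) (FF k σ), ev T p ∈ BB k σ := by
    intro p
    rw [ev_eq]
    exact (BB k σ).sum_mem fun d _ => (BB k σ).mul_mem (FF_le (coeff d p).2)
      ((BB k σ).prod_mem fun j _ => (BB k σ).pow_mem (hTB j) _)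
  let v0 : Pl k := Sum.inl (Classical.arbitrary _)
  have hMne : Nonempty (Fin M) := ⟨⟨0, by exact_mod_cast hM0⟩⟩
  have key := mov S hS (fun i => ev T (ψ v0 i)) (hindv v0) (fun i => hBB _)
    (fun v i => ev T (ψ v i)) (fun v _ => hindv v) (by
      intro v _ i
      have h1 : ψ v i ∈ Submodule.span (FF k σ) (Set.range (ψ v0)) := by
        rw [hψ2 v0]
        exact hψW v i
      obtain ⟨c, hc⟩ := (Submodule.mem_span_range_iff_exists_fun (FF k σ)).1 h1
      refine (Submodule.mem_span_range_iff_exists_fun (FF k σ)).2 ⟨c, ?_⟩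
      rw [← hc, map_sum]
      exact Finset.sum_congr rfl fun i _ => (map_smul (ev T) _ _).symm) rfl
  -- the upper bounds
  have hup : Sm σ fun t => ∑ v ∈ S, wt v * ∑ i, (lv v (ev T (ψ v i)) t -
      (∑ j, (π v i j : ℝ) * τ v j) * σ.L t) :=
    Sm.sum _ fun v _ => (Sm.sum _ fun i _ => (ev_Ub T v (τ v) (hUb v) _ _ fun d hd =>
      hψ3 v i d (hsupp v i d hd) (mem_support_iff.1 hd)).lv ((hindv v).ne_zero i)).smul
        (wt_nonneg v)
  -- the part outside of `S`
  have hrep : ∀ i, ∃ p q : MvPolynomial (Fin m) (FF k σ), ψ v0 i = f * p + g * q := by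
    intro i
    obtain ⟨x, hx, y, hy, hxy⟩ := Submodule.mem_sup.1 (hψW v0 i)
    obtain ⟨p, -, rfl⟩ := Submodule.mem_map.1 hx
    obtain ⟨q, -, rfl⟩ := Submodule.mem_map.1 hy
    exact ⟨p, q, hxy.symm⟩
  choose P Q hPQ using hrep
  have hout : Sm σ fun t => ho S (fun i => rep (ev T (ψ v0 i)) t) -
      ho S ![rep (ev T f) t, rep (ev T g) t] := by
    refine (poly_ho T S hS hT (fun x : Fin M ⊕ Fin M => Sum.elim P Q x)).mono ?_
    have hf0 : ev T f ≠ 0 := fun h => hf (hind _ h)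
    have h1 : ∀ᶠ t in (σ.𝒰 : Filter ℕ), ∀ i, rep (ev T (ψ v0 i)) t =
        rep (ev T f) t * rep (ev T (P i)) t + rep (ev T g) t * rep (ev T (Q i)) t := by
      rw [Filter.eventually_all]
      intro i
      rw [hPQ i, map_add, map_mul, map_mul]
      filter_upwards [rep_add (ev T f * ev T (P i)) (ev T g * ev T (Q i)),
        rep_mul (ev T f) (ev T (P i)), rep_mul (ev T g) (ev T (Q i))] with t e1 e2 e3
      rw [e1, e2, e3]
    have h2 : ∀ᶠ t in (σ.𝒰 : Filter ℕ), ∀ i, rep (ev T (ψ v0 i)) t ≠ 0 := by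
      rw [Filter.eventually_all]
      exact fun i => rep_ne _ ((hindv v0).ne_zero i)
    filter_upwards [h1, h2, rep_ne _ hf0] with t e1 e2 e3
    have i0 : Fin M := Classical.arbitrary _
    have h3 := ho_mul_le S (fun i => rep (ev T (ψ v0 i)) t) (ne_of_coord (i := i0) (e2 i0))
      ![rep (ev T f) t, rep (ev T g) t] (ne_of_coord (i := 0) e3)
      (c1 fun x : Fin M ⊕ Fin M => rep (ev T (Sum.elim P Q x)) t) (ne_of_one _ none rfl) (by
        intro v _
        refine nm_le _ (mul_nonneg (nm_nonneg _ _) (nm_nonneg _ _)) fun i => ?_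
        rw [e1 i]
        refine (fv_na v _ _).trans (max_le ?_ ?_)
        · rw [map_mul]
          exact mul_le_mul (le_nm (fv v) ![rep (ev T f) t, rep (ev T g) t] 0)
            (le_nm (fv v) (c1 fun x : Fin M ⊕ Fin M => rep (ev T (Sum.elim P Q x)) t)
              (some (Sum.inl i))) ((fv v).nonneg _) (nm_nonneg _ _)
        · rw [map_mul]
          exact mul_le_mul (le_nm (fv v) ![rep (ev T f) t, rep (ev T g) t] 1)
            (le_nm (fv v) (c1 fun x : Fin M ⊕ Fin M => rep (ev T (Sum.elim P Q x)) t)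
              (some (Sum.inr i))) ((fv v).nonneg _) (nm_nonneg _ _))
    linarith
  have hsm := (key.add hup).add (hout.smul (c := (M : ℝ)) hM0.le)
  filter_upwards [hsm (ε / 2) (by positivity), L_pos (σ := σ)] with t e1 e2
  rw [Fintype.card_fin] at e1
  have e3 : ∑ v ∈ S, wt v * ∑ i, (lv v (ev T (ψ v i)) t -
      (∑ j, (π v i j : ℝ) * τ v j) * σ.L t) = ∑ v ∈ S, wt v * ∑ i, lv v (ev T (ψ v i)) t -
      (∑ v ∈ S, wt v * ∑ i, ∑ j, (π v i j : ℝ) * τ v j) * σ.L t := by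
    rw [Finset.sum_mul, ← Finset.sum_sub_distrib]
    refine Finset.sum_congr rfl fun v _ => ?_
    rw [Finset.sum_sub_distrib, ← Finset.sum_mul]
    ring
  rw [e3] at e1
  have e4 := box_sum S τ hτsum E hEv π hπ1 hπ2 hMn
  rw [← hWt] at e4
  have e5 : Wt * (((n : ℝ) ^ m - M) * (n * E)) ≤ ε / 2 * M := by
    have h1 : Wt * (((n : ℝ) ^ m - M) * (n * E)) = (((n : ℝ) ^ m - M) * n) * (Wt * E) := by ring
    rw [h1]
    calc (((n : ℝ) ^ m - M) * n) * (Wt * E) ≤
        (ε / (2 * ((Wt + 1) * E)) * M) * (Wt * E) :=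
          mul_le_mul_of_nonneg_right hc1 (by positivity)
      _ = ε / 2 * M * (Wt / (Wt + 1)) := by
          field_simp
      _ ≤ ε / 2 * M * 1 := by
          refine mul_le_mul_of_nonneg_left ?_ (by positivity)
          rw [div_le_one (by positivity)]
          linarith
      _ = _ := mul_one _
  have e6 : (∑ v ∈ S, wt v * ∑ i, ∑ j, (π v i j : ℝ) * τ v j) * σ.L t ≤
      (ε / 2 * M) * σ.L t := mul_le_mul_of_nonneg_right (e4.trans e5) e2.le
  have e7 : ε / 2 * σ.L t ≤ M * (ε / 2 * σ.L t) := le_mul_of_one_le_left (by positivity) hM1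
  have e8 : M * (-ho S ![rep (ev T f) t, rep (ev T g) t]) ≤ M * (ε * σ.L t) := by
    linarith
  exact le_of_mul_le_mul_left e8 hM0

end Pool.Agent.K1H83.VN
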