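import Pool.Agent.K1H83.VN.Ht1

/-!
Germs of sequences of elements of a number field, relative to a scale.
-/

set_option autoImplicit false
set_option linter.unusedSectionVars false
set_option linter.unusedSimpArgs false

namespace Pool.Agent.K1H83.VN

open NumberField IsDedekindDomain Height Filter Topology
open Pool.Agent.W180.OP (Pl av wt fv fv_support_finite wt_nonneg)

/-- an ultrafilter and a scale which tends to infinity along it -/
structure Sc where
  𝒰 : Ultrafilter ℕ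
  L : ℕ → ℝ
  lim : Tendsto L (𝒰 : Filter ℕ) atTop

/-- the germs -/
def G (k : Type) (σ : Sc) : Type := Germ (σ.𝒰 : Filter ℕ) k

section germ

variable {k : Type} [Field k] {σ : Sc}

noncomputable instance : Field (G k σ) := inferInstanceAs (Field (Germ (σ.𝒰 : Filter ℕ) k))

/-- the germ of a sequence -/
noncomputable def gm (σ : Sc) : (ℕ → k) →+* G k σ := Germ.coeRingHom (σ.𝒰 : Filter ℕ)

theorem gm_eq (f g : ℕ → k) : gm σ f = gm σ g ↔ ∀ᶠ t in (σ.𝒰 : Filter ℕ), f t = g t :=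
  Germ.coe_eq

theorem gm_surj (x : G k σ) : ∃ f : ℕ → k, gm σ f = x := by
  have h : ∀ y : Germ (σ.𝒰 : Filter ℕ) k, ∃ f : ℕ → k, (f : Germ (σ.𝒰 : Filter ℕ) k) = y := by
    intro y
    induction y using Germ.inductionOn with
    | _ f => exact ⟨f, rfl⟩
  exact h x

/-- a representative -/
noncomputable def rep (x : G k σ) : ℕ → k := (gm_surj x).choose

theorem gm_rep (x : G k σ) : gm σ (rep x) = x := (gm_surj x).choose_spec

theorem rep_eq (x : G k σ) (f : ℕ → k) (h : x = gm σ f) :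
    ∀ᶠ t in (σ.𝒰 : Filter ℕ), rep x t = f t := by
  rw [← gm_eq, gm_rep, h]

theorem rep_gm (f : ℕ → k) : ∀ᶠ t in (σ.𝒰 : Filter ℕ), rep (gm σ f) t = f t := rep_eq _ _ rfl

theorem rep_mul (x y : G k σ) : ∀ᶠ t in (σ.𝒰 : Filter ℕ), rep (x * y) t = rep x t * rep y t :=
  rep_eq _ (fun t => rep x t * rep y t) (by
    show x * y = gm σ (rep x * rep y)
    rw [map_mul, gm_rep, gm_rep])

theorem rep_add (x y : G k σ) : ∀ᶠ t in (σ.𝒰 : Filter ℕ), rep (x + y) t = rep x t + rep y t :=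
  rep_eq _ (fun t => rep x t + rep y t) (by
    show x + y = gm σ (rep x + rep y)
    rw [map_add, gm_rep, gm_rep])

theorem rep_neg (x : G k σ) : ∀ᶠ t in (σ.𝒰 : Filter ℕ), rep (-x) t = -rep x t :=
  rep_eq _ (fun t => -rep x t) (by
    show -x = gm σ (-rep x)
    rw [map_neg, gm_rep])

theorem rep_zero : ∀ᶠ t in (σ.𝒰 : Filter ℕ), rep (0 : G k σ) t = 0 :=
  rep_eq _ (fun _ => 0) (by
    show 0 = gm σ 0
    rw [map_zero])

theorem rep_one : ∀ᶠ t in (σ.𝒰 : Filter ℕ), rep (1 : G k σ) t = 1 :=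
  rep_eq _ (fun _ => 1) (by
    show 1 = gm σ 1
    rw [map_one])

theorem rep_sum {ι : Type} (s : Finset ι) (x : ι → G k σ) :
    ∀ᶠ t in (σ.𝒰 : Filter ℕ), rep (∑ i ∈ s, x i) t = ∑ i ∈ s, rep (x i) t := by
  refine rep_eq _ (fun t => ∑ i ∈ s, rep (x i) t) ?_
  have h1 : (fun t => ∑ i ∈ s, rep (x i) t) = ∑ i ∈ s, rep (x i) := by
    funext t
    rw [Finset.sum_apply]
  rw [h1, map_sum]
  exact Finset.sum_congr rfl fun i _ => (gm_rep _).symm

theorem rep_prod {ι : Type} (s : Finset ι) (x : ι → G k σ) :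
    ∀ᶠ t in (σ.𝒰 : Filter ℕ), rep (∏ i ∈ s, x i) t = ∏ i ∈ s, rep (x i) t := by
  refine rep_eq _ (fun t => ∏ i ∈ s, rep (x i) t) ?_
  have h1 : (fun t => ∏ i ∈ s, rep (x i) t) = ∏ i ∈ s, rep (x i) := by
    funext t
    rw [Finset.prod_apply]
  rw [h1, map_prod]
  exact Finset.prod_congr rfl fun i _ => (gm_rep _).symm

theorem rep_pow (x : G k σ) (n : ℕ) : ∀ᶠ t in (σ.𝒰 : Filter ℕ), rep (x ^ n) t = rep x t ^ n :=
  rep_eq _ (fun t => rep x t ^ n) (by
    show x ^ n = gm σ (rep x ^ n)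
    rw [map_pow, gm_rep])

theorem rep_ne (x : G k σ) (hx : x ≠ 0) : ∀ᶠ t in (σ.𝒰 : Filter ℕ), rep x t ≠ 0 := by
  rw [Ultrafilter.eventually_not]
  intro h
  apply hx
  rw [← gm_rep x]
  have h1 : (gm σ (rep x) : G k σ) = gm σ (fun _ => 0) := (gm_eq _ _).2 h
  rw [h1]
  exact map_zero (gm σ)

theorem ne_of_rep (x : G k σ) (hx : ∀ᶠ t in (σ.𝒰 : Filter ℕ), rep x t ≠ 0) : x ≠ 0 := by
  rintro rfl
  have h0 : ∀ᶠ t in (σ.𝒰 : Filter ℕ), rep (0 : G k σ) t = 0 := rep_zero
  obtain ⟨t, h1, h2⟩ := (hx.and h0).exists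
  exact h1 h2

theorem gm_ne (f : ℕ → k) : gm σ f ≠ 0 ↔ ∀ᶠ t in (σ.𝒰 : Filter ℕ), f t ≠ 0 := by
  constructor
  · intro h
    filter_upwards [rep_ne _ h, rep_gm f] with t h1 h2
    rwa [h2] at h1
  · intro h
    refine ne_of_rep _ ?_
    filter_upwards [h, rep_gm f] with t h1 h2
    rwa [h2]

theorem rep_inv (x : G k σ) : ∀ᶠ t in (σ.𝒰 : Filter ℕ), rep x⁻¹ t = (rep x t)⁻¹ := by
  by_cases hx : x = 0
  · subst hx
    rw [inv_zero]
    filter_upwards [rep_zero (k := k) (σ := σ)] with t h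
    rw [h, inv_zero]
  have h0 : ∀ᶠ t in (σ.𝒰 : Filter ℕ), rep (1 : G k σ) t = 1 := rep_one
  filter_upwards [rep_mul x x⁻¹, rep_ne x hx, h0] with t h1 h2 h3
  rw [mul_inv_cancel₀ hx, h3] at h1
  exact (inv_eq_of_mul_eq_one_right h1.symm).symm

theorem rep_div (x y : G k σ) :
    ∀ᶠ t in (σ.𝒰 : Filter ℕ), rep (x / y) t = rep x t / rep y t := by
  rw [div_eq_mul_inv]
  filter_upwards [rep_mul x y⁻¹, rep_inv y] with t h1 h2
  rw [h1, h2, div_eq_mul_inv]

/-- the germs of constants -/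
noncomputable instance : Algebra k (G k σ) := ((gm σ).comp (Pi.constRingHom ℕ k)).toAlgebra

theorem alg_eq (c : k) : algebraMap k (G k σ) c = gm σ (fun _ => c) := rfl

theorem rep_alg (c : k) : ∀ᶠ t in (σ.𝒰 : Filter ℕ), rep (algebraMap k (G k σ) c) t = c :=
  rep_eq _ (fun _ => c) rfl

theorem rep_smul (c : k) (x : G k σ) : ∀ᶠ t in (σ.𝒰 : Filter ℕ), rep (c • x) t = c * rep x t := by
  rw [Algebra.smul_def]
  filter_upwards [rep_mul (algebraMap k (G k σ) c) x, rep_alg (σ := σ) c] with t h1 h2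
  rw [h1, h2]

instance [CharZero k] : CharZero (G k σ) :=
  charZero_of_injective_algebraMap (algebraMap k (G k σ)).injective

/-- a sequence with finitely many values is constant -/
theorem const_of_finite {α : Type} (f : ℕ → α) (s : Set α) (hs : s.Finite)
    (h : ∀ᶠ t in (σ.𝒰 : Filter ℕ), f t ∈ s) : ∃ c ∈ s, ∀ᶠ t in (σ.𝒰 : Filter ℕ), f t = c := by
  classical
  have h1 : ∀ᶠ t in (σ.𝒰 : Filter ℕ), ∃ c ∈ s, f t = c := by
    filter_upwards [h] with t ht using ⟨_, ht, rfl⟩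
  have h2 := (Ultrafilter.eventually_exists_mem_iff (f := σ.𝒰) hs
    (P := fun c t => f t = c)).1 h1
  exact h2

end germ

/-- small compared with the scale -/
def Sm (σ : Sc) (f : ℕ → ℝ) : Prop := ∀ ε : ℝ, 0 < ε → ∀ᶠ t in (σ.𝒰 : Filter ℕ), f t ≤ ε * σ.L t

section Sm

variable {σ : Sc}

theorem L_pos : ∀ᶠ t in (σ.𝒰 : Filter ℕ), 0 < σ.L t := σ.lim.eventually_gt_atTop 0

theorem Sm.add {f g : ℕ → ℝ} (hf : Sm σ f) (hg : Sm σ g) : Sm σ fun t => f t + g t := by
  intro ε hε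
  filter_upwards [hf (ε / 2) (by positivity), hg (ε / 2) (by positivity)] with t h1 h2
  linarith

theorem Sm.mono {f g : ℕ → ℝ} (hf : Sm σ f) (h : ∀ᶠ t in (σ.𝒰 : Filter ℕ), g t ≤ f t) :
    Sm σ g := by
  intro ε hε
  filter_upwards [hf ε hε, h] with t h1 h2
  linarith

theorem Sm.const (C : ℝ) : Sm σ fun _ => C := by
  intro ε hε
  filter_upwards [σ.lim.eventually_ge_atTop (C / ε)] with t h1
  rw [div_le_iff₀ hε] at h1
  linarith

theorem Sm.smul {f : ℕ → ℝ} (hf : Sm σ f) {c : ℝ} (hc : 0 ≤ c) : Sm σ fun t => c * f t := by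
  intro ε hε
  have hc1 : 0 < c + 1 := by linarith
  filter_upwards [hf (ε / (c + 1)) (by positivity), L_pos] with t h1 h2
  calc c * f t ≤ c * (ε / (c + 1) * σ.L t) := mul_le_mul_of_nonneg_left h1 hc
    _ = (c / (c + 1)) * (ε * σ.L t) := by ring
    _ ≤ 1 * (ε * σ.L t) := by
        refine mul_le_mul_of_nonneg_right ?_ (by positivity)
        rw [div_le_one hc1]
        linarith
    _ = _ := one_mul _

theorem Sm.sum {ι : Type*} (s : Finset ι) {f : ι → ℕ → ℝ} (hf : ∀ i ∈ s, Sm σ (f i)) :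
    Sm σ fun t => ∑ i ∈ s, f i t := by
  classical
  induction s using Finset.induction_on with
  | empty =>
    simp only [Finset.sum_empty]
    exact Sm.const 0
  | insert a s ha ih =>
    simp only [Finset.sum_insert ha]
    exact (hf a (Finset.mem_insert_self a s)).add
      (ih fun i hi => hf i (Finset.mem_insert_of_mem hi))

end Sm

section fields

variable (k : Type) [Field k] [NumberField k] (σ : Sc)

/-- the germs of small height -/
noncomputable def FF : Subfield (G k σ) where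
  carrier := {x | Sm σ fun t => logHeight₁ (rep x t)}
  mul_mem' := by
    intro x y hx hy
    refine (Sm.add hx hy).mono ?_
    filter_upwards [rep_mul x y] with t ht
    rw [ht]
    exact logHeight₁_mul_le _ _
  one_mem' := by
    refine (Sm.const 0).mono ?_
    filter_upwards [rep_one (k := k) (σ := σ)] with t ht
    rw [ht, logHeight₁_one]
  add_mem' := by
    intro x y hx hy
    refine ((Sm.const (totalWeight k * Real.log 2)).add (Sm.add hx hy)).mono ?_
    filter_upwards [rep_add x y] with t ht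
    rw [ht]
    have := logHeight₁_add_le (rep x t) (rep y t)
    linarith
  zero_mem' := by
    refine (Sm.const 0).mono ?_
    filter_upwards [rep_zero (k := k) (σ := σ)] with t ht
    rw [ht, logHeight₁_zero]
  neg_mem' := by
    intro x hx
    refine Sm.mono hx ?_
    filter_upwards [rep_neg x] with t ht
    rw [ht, logHeight₁_neg]
  inv_mem' := by
    intro x hx
    refine Sm.mono hx ?_
    filter_upwards [rep_inv x] with t ht
    rw [ht, logHeight₁_inv]

/-- the germs of bounded height -/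
noncomputable def BB : Subfield (G k σ) where
  carrier := {x | ∃ C : ℝ, ∀ᶠ t in (σ.𝒰 : Filter ℕ), logHeight₁ (rep x t) ≤ C * σ.L t}
  mul_mem' := by
    rintro x y ⟨C, hx⟩ ⟨C', hy⟩
    refine ⟨C + C', ?_⟩
    filter_upwards [rep_mul x y, hx, hy] with t ht h1 h2
    rw [ht]
    have := logHeight₁_mul_le (rep x t) (rep y t)
    linarith
  one_mem' := by
    refine ⟨0, ?_⟩
    filter_upwards [rep_one (k := k) (σ := σ)] with t ht
    rw [ht, logHeight₁_one, zero_mul]
  add_mem' := by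
    rintro x y ⟨C, hx⟩ ⟨C', hy⟩
    refine ⟨C + C' + 1, ?_⟩
    filter_upwards [rep_add x y, hx, hy, Sm.const (σ := σ) (totalWeight k * Real.log 2) 1 one_pos]
      with t ht h1 h2 h3
    rw [ht]
    have := logHeight₁_add_le (rep x t) (rep y t)
    linarith
  zero_mem' := by
    refine ⟨0, ?_⟩
    filter_upwards [rep_zero (k := k) (σ := σ)] with t ht
    rw [ht, logHeight₁_zero, zero_mul]
  neg_mem' := by
    rintro x ⟨C, hx⟩
    refine ⟨C, ?_⟩
    filter_upwards [rep_neg x, hx] with t ht h1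
    rwa [ht, logHeight₁_neg]
  inv_mem' := by
    rintro x ⟨C, hx⟩
    refine ⟨C, ?_⟩
    filter_upwards [rep_inv x, hx] with t ht h1
    rwa [ht, logHeight₁_inv]

variable {k} {σ}

theorem mem_FF (x : G k σ) : x ∈ FF k σ ↔ Sm σ fun t => logHeight₁ (rep x t) := Iff.rfl

theorem mem_BB (x : G k σ) :
    x ∈ BB k σ ↔ ∃ C : ℝ, ∀ᶠ t in (σ.𝒰 : Filter ℕ), logHeight₁ (rep x t) ≤ C * σ.L t := Iff.rfl

theorem FF_le : FF k σ ≤ BB k σ := fun _ hx => ⟨1, hx 1 one_pos⟩

theorem alg_mem (c : k) : algebraMap k (G k σ) c ∈ FF k σ := by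
  refine (Sm.const (logHeight₁ c)).mono ?_
  filter_upwards [rep_alg (σ := σ) c] with t ht
  rw [ht]

theorem gm_mem_FF (f : ℕ → k) : gm σ f ∈ FF k σ ↔ Sm σ fun t => logHeight₁ (f t) := by
  rw [mem_FF]
  constructor
  · intro h
    refine h.mono ?_
    filter_upwards [rep_gm f] with t ht
    rw [ht]
  · intro h
    refine h.mono ?_
    filter_upwards [rep_gm f] with t ht
    rw [ht]

theorem root_mem (x : G k σ) (n : ℕ) (hn : n ≠ 0) (h : x ^ n ∈ FF k σ) : x ∈ FF k σ := by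
  rw [mem_FF] at h ⊢
  refine h.mono ?_
  filter_upwards [rep_pow x n] with t ht
  rw [ht, logHeight₁_pow]
  have h1 : (1 : ℝ) ≤ n := by exact_mod_cast Nat.one_le_iff_ne_zero.2 hn
  exact le_mul_of_one_le_left (zero_le_logHeight₁ _) h1

noncomputable instance : Algebra k (FF k σ) :=
  ((algebraMap k (G k σ)).codRestrict (FF k σ) alg_mem).toAlgebra

theorem coe_alg (c : k) : ((algebraMap k (FF k σ) c : FF k σ) : G k σ) = algebraMap k (G k σ) c := rfl

instance : IsScalarTower k (FF k σ) (G k σ) := IsScalarTower.of_algebraMap_eq fun _ => rfl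

/-- the logarithm of the absolute value -/
noncomputable def lv (v : Pl k) (x : G k σ) (t : ℕ) : ℝ := Real.log (av v (rep x t))

theorem lv_mul (v : Pl k) (x y : G k σ) (hx : x ≠ 0) (hy : y ≠ 0) :
    ∀ᶠ t in (σ.𝒰 : Filter ℕ), lv v (x * y) t = lv v x t + lv v y t := by
  filter_upwards [rep_mul x y, rep_ne x hx, rep_ne y hy] with t h1 h2 h3
  unfold lv
  rw [h1, map_mul, Real.log_mul ((av v).ne_zero h2) ((av v).ne_zero h3)]

theorem lv_bound (v : Pl k) (x : G k σ) (hx : x ≠ 0) (hB : x ∈ BB k σ) :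
    ∃ C : ℝ, 0 ≤ C ∧ ∀ᶠ t in (σ.𝒰 : Filter ℕ), |lv v x t| ≤ C * σ.L t := by
  obtain ⟨C, hC⟩ := hB
  refine ⟨|C|, abs_nonneg _, ?_⟩
  filter_upwards [hC, rep_ne x hx, L_pos] with t h1 h2 h3
  refine (abs_log_le' v _ h2).trans (h1.trans ?_)
  exact mul_le_mul_of_nonneg_right (le_abs_self _) h3.le

theorem lv_small (v : Pl k) (x : G k σ) (hx : x ≠ 0) (hF : x ∈ FF k σ) :
    Sm σ fun t => |lv v x t| := by
  refine Sm.mono hF ?_
  filter_upwards [rep_ne x hx] with t h2
  exact abs_log_le' v _ h2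

end fields

end Pool.Agent.K1H83.VN
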