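import Pool.Agent.K1H83.VN.Gcd
import Pool.Agent.K1H83.VN.Dir

/-!
Representation of a sum of unit germs by polynomials without a common factor.
-/

set_option autoImplicit false
set_option linter.unusedSectionVars false

namespace Pool.Agent.K1H83.VN

open NumberField IsDedekindDomain Height Filter Topology MvPolynomial
open Pool.Agent.W180.OP (Pl av wt fv fv_support_finite wt_nonneg)

variable {k : Type} [Field k] [NumberField k] {σ : Sc}

theorem SU.mo {S : Finset (Pl k)} {m : ℕ} {T : Fin m → G k σ} (hT : ∀ j, SU S (T j))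
    (α : Fin m →₀ ℕ) : SU S (mo T α) := SU.prod _ _ fun j _ => (hT j).pow _

theorem BB_mo {m : ℕ} {T : Fin m → G k σ} (hT : ∀ j, T j ∈ BB k σ) (α : Fin m →₀ ℕ) :
    mo T α ∈ BB k σ := (BB k σ).prod_mem fun j _ => (BB k σ).pow_mem (hT j) _

/-- a multiplicative basis modulo the germs of small height is algebraically independent -/
theorem mult_basis (S : Finset (Pl k)) (hS : ∀ w : InfinitePlace k, Sum.inl w ∈ S) {r : ℕ}
    (u : Fin r → G k σ) (hu : ∀ j, SU S (u j)) (hB : ∀ j, u j ∈ BB k σ) :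
    ∃ (m : ℕ) (T : Fin m → G k σ), (∀ j, SU S (T j)) ∧ (∀ j, T j ∈ BB k σ) ∧
      (∀ p : MvPolynomial (Fin m) (FF k σ), ev T p = 0 → p = 0) ∧
      ∀ j, ∃ (κ : FF k σ) (a : Fin m → ℤ), u j = (κ : G k σ) * ∏ l, T l ^ a l := by
  classical
  have hu0 : ∀ j, u j ≠ 0 := fun j => (hu j).ne_zero
  obtain ⟨m, c, hc1, hc2⟩ := abs_basis (FF k σ) (fun g n hn h => root_mem g n hn h) u hu0
  have hTS : ∀ l, SU S (∏ j, u j ^ c l j) := fun l => SU.prod _ _ fun j _ => (hu j).zpow _
  have hTB : ∀ l, (∏ j, u j ^ c l j) ∈ BB k σ := fun l =>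
    (BB k σ).prod_mem fun j _ => (BB k σ).zpow_mem (hB j) _
  refine ⟨m, fun l => ∏ j, u j ^ c l j, hTS, hTB, ?_, hc2⟩
  intro p hp
  have hT0 : ∀ l, (∏ j, u j ^ c l j) ≠ 0 := fun l => (hTS l).ne_zero
  have h1 := sui hS (fun d : p.support => mo (fun l => ∏ j, u j ^ c l j) d.1)
    (fun d => SU.mo hTS _) (fun d => BB_mo hTB _) (by
      intro d d' hdd h
      apply hdd
      have h2 : mo (fun l => ∏ j, u j ^ c l j) d.1 / mo (fun l => ∏ j, u j ^ c l j) d'.1 =
          ∏ l, (∏ j, u j ^ c l j) ^ ((d.1 l : ℤ) - d'.1 l) := by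
        unfold mo
        rw [← Finset.prod_div_distrib]
        refine Finset.prod_congr rfl fun l _ => ?_
        rw [zpow_sub₀ (hT0 l), zpow_natCast, zpow_natCast]
      rw [h2] at h
      have h3 := hc1 _ h
      apply Subtype.ext
      ext l
      have h5 := congrFun h3 l
      simp only [Pi.zero_apply] at h5
      omega)
    (fun d => ((coeff d.1 p : FF k σ) : G k σ)) (fun d => (coeff d.1 p).2) (by
      rw [ev_eq, ← Finset.sum_coe_sort] at hp
      exact hp)
  by_contra hne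
  obtain ⟨d, hd⟩ := (MvPolynomial.support_nonempty (p := p)).2 hne
  exact (mem_support_iff.1 hd) (Subtype.ext (h1 ⟨d, hd⟩))

/-- the common divisor of a family of polynomials without a common factor -/
theorem gcd_family (S : Finset (Pl k)) (hS : ∀ w : InfinitePlace k, Sum.inl w ∈ S) {m ν : ℕ}
    (T : Fin m → G k σ) (hT : ∀ j, SU S (T j)) (hTB : ∀ j, T j ∈ BB k σ)
    (hind : ∀ p : MvPolynomial (Fin m) (FF k σ), ev T p = 0 → p = 0)
    (R : Fin ν → MvPolynomial (Fin m) (FF k σ)) (y1 : Fin ν) (h1 : R y1 ≠ 0)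
    (hcop : ∀ π, Prime π → ∃ y, ¬ π ∣ R y) :
    Sm σ fun t => -ho S (fun y => rep (ev T (R y)) t) := by
  classical
  obtain ⟨c, hc0, hc⟩ := exists_coprime R y1 h1 hcop
  have h2 := gcd_germ S hS T hT hTB hind (R y1) (∑ y, C (c y) * R y) h1 hc0 hc
  have h3 : Sm σ fun t => ∑ y, logHeight₁ (rep (c y : G k σ) t) := Sm.sum _ fun y _ =>
    (mem_FF _).1 (c y).2
  refine (h2.add h3).mono ?_
  have h4 : ev T (∑ y, C (c y) * R y) = ∑ y, (c y : G k σ) * ev T (R y) := by
    rw [map_sum]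
    refine Finset.sum_congr rfl fun y _ => ?_
    rw [map_mul]
    congr 1
    exact aeval_C _ _
  have h5 : ∀ᶠ t in (σ.𝒰 : Filter ℕ), ∀ y, rep ((c y : G k σ) * ev T (R y)) t =
      rep (c y : G k σ) t * rep (ev T (R y)) t := by
    rw [Filter.eventually_all]
    exact fun y => rep_mul _ _
  filter_upwards [rep_sum (σ := σ) Finset.univ fun y => (c y : G k σ) * ev T (R y), h5,
    rep_ne _ (show ev T (R y1) ≠ 0 from fun h => h1 (hind _ h))] with t e1 e2 e3
  have e4 := ho_mul_le S ![rep (ev T (R y1)) t, rep (ev T (∑ y, C (c y) * R y)) t]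
    (ne_of_coord (i := 0) e3) (c1 fun y => rep (c y : G k σ) t) (ne_of_one _ none rfl)
    (fun y => rep (ev T (R y)) t) (ne_of_coord (i := y1) e3) (by
      intro v _
      have f1 := one_le_nm (fv v) (c1 fun y => rep (c y : G k σ) t) none rfl
      refine nm_le _ (mul_nonneg (nm_nonneg _ _) (nm_nonneg _ _)) fun i => ?_
      fin_cases i
      · show fv v (rep (ev T (R y1)) t) ≤ _
        have f2 := le_nm (fv v) (fun y => rep (ev T (R y)) t) y1
        have f3 : (0 : ℝ) ≤ nm (fv v) (fun y => rep (ev T (R y)) t) := nm_nonneg _ _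
        calc fv v (rep (ev T (R y1)) t) ≤ nm (fv v) (fun y => rep (ev T (R y)) t) := f2
          _ ≤ _ := le_mul_of_one_le_left f3 f1
      · show fv v (rep (ev T (∑ y, C (c y) * R y)) t) ≤ _
        rw [h4, e1]
        refine sum_le_of_na v _ _ _ (mul_nonneg (nm_nonneg _ _) (nm_nonneg _ _)) fun y _ => ?_
        rw [e2 y, map_mul]
        exact mul_le_mul (le_nm (fv v) (c1 fun y => rep (c y : G k σ) t) (some y))
          (le_nm (fv v) (fun y => rep (ev T (R y)) t) y) ((fv v).nonneg _) (nm_nonneg _ _))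
  have e5 := ho_le_height S hS (c1 fun y => rep (c y : G k σ) t) none rfl
  have e6 := logHeight_c1 fun y => rep (c y : G k σ) t
  linarith

/-- the representation -/
theorem gt (S : Finset (Pl k)) (hS : ∀ w : InfinitePlace k, Sum.inl w ∈ S) {r ν : ℕ}
    (u : Fin r → G k σ) (hu : ∀ j, SU S (u j)) (hB : ∀ j, u j ∈ BB k σ)
    (V : Fin r → Fin ν → FF k σ) (X : Fin ν → G k σ)
    (hX : ∀ y, X y = ∑ j, u j * (V j y : G k σ)) (y1 : Fin ν) (hy1 : X y1 ≠ 0) :
    ∃ (m : ℕ) (T : Fin m → G k σ) (R : Fin ν → MvPolynomial (Fin m) (FF k σ)) (μ : G k σ),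
      (∀ j, SU S (T j)) ∧ (∀ j, T j ∈ BB k σ) ∧
      (∀ p : MvPolynomial (Fin m) (FF k σ), ev T p = 0 → p = 0) ∧ μ ≠ 0 ∧
      (∀ y, X y = μ * ev T (R y)) ∧ R y1 ≠ 0 ∧
      Sm σ fun t => -ho S (fun y => rep (ev T (R y)) t) := by
  classical
  obtain ⟨m, T, hT, hTB, hind, hrep⟩ := mult_basis S hS u hu hB
  choose κ a ha using hrep
  have hT0 : ∀ l, T l ≠ 0 := fun l => (hT l).ne_zero
  obtain ⟨N, hN⟩ : ∃ N : ℕ, ∀ j l, 0 ≤ a j l + N := by
    refine ⟨∑ j, ∑ l, (a j l).natAbs, fun j l => ?_⟩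
    have h2 := Finset.single_le_sum (f := fun l => (a j l).natAbs) (fun _ _ => Nat.zero_le _)
      (Finset.mem_univ l)
    have h3 := Finset.single_le_sum (f := fun j => ∑ l, (a j l).natAbs)
      (fun _ _ => Nat.zero_le _) (Finset.mem_univ j)
    omega
  let b : Fin r → (Fin m →₀ ℕ) := fun j => Finsupp.equivFunOnFinite.symm fun l =>
    (a j l + N).toNat
  have hb : ∀ j l, ((b j l : ℕ) : ℤ) = a j l + N := fun j l => Int.toNat_of_nonneg (hN j l)
  let P : Fin ν → MvPolynomial (Fin m) (FF k σ) := fun y => ∑ j, monomial (b j) (κ j * V j y)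
  obtain ⟨μ0, hμ0⟩ : ∃ μ0 : G k σ, μ0 = ∏ l, T l ^ N := ⟨_, rfl⟩
  have hμ00 : μ0 ≠ 0 := by
    rw [hμ0]
    exact Finset.prod_ne_zero_iff.2 fun l _ => pow_ne_zero _ (hT0 l)
  have hPX : ∀ y, ev T (P y) = μ0 * X y := by
    intro y
    show ev T (∑ j, monomial (b j) (κ j * V j y)) = _
    rw [map_sum, hX, Finset.mul_sum]
    refine Finset.sum_congr rfl fun j _ => ?_
    unfold ev
    rw [aeval_monomial, Finsupp.prod_fintype _ _ (by simp), ha j, hμ0]
    have h2 : ∏ l, T l ^ (b j l) = (∏ l, T l ^ N) * ∏ l, T l ^ (a j l) := by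
      rw [← Finset.prod_mul_distrib]
      refine Finset.prod_congr rfl fun l _ => ?_
      rw [← zpow_natCast (T l) (b j l), hb, zpow_add₀ (hT0 l), zpow_natCast, mul_comm]
    rw [h2]
    show ((κ j * V j y : FF k σ) : G k σ) * _ = _
    rw [MulMemClass.coe_mul]
    ring
  have hP1 : P y1 ≠ 0 := by
    intro h
    have h2 := hPX y1
    rw [h, map_zero] at h2
    exact mul_ne_zero hμ00 hy1 h2.symm
  obtain ⟨Q, R, hQR, hQ0, hR1, hcop⟩ := extract P y1 hP1
  have hQ : ev T Q ≠ 0 := fun h => hQ0 (hind _ h)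
  refine ⟨m, T, R, μ0⁻¹ * ev T Q, hT, hTB, hind, mul_ne_zero (inv_ne_zero hμ00) hQ, ?_, hR1,
    gcd_family S hS T hT hTB hind R y1 hR1 hcop⟩
  intro y
  have h2 := hPX y
  rw [hQR y, map_mul] at h2
  rw [mul_assoc, h2, inv_mul_cancel_left₀ hμ00]

/-! ## values of polynomials at germs -/

theorem aeval_gm {ι : Type} (X : ι → ℕ → k) (F : MvPolynomial ι k) :
    aeval (fun i => gm σ (X i)) F = gm σ (fun t => aeval (fun i => X i t) F) := by
  induction F using MvPolynomial.induction_on with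
  | C a =>
    rw [aeval_C, alg_eq]
    congr 1
    funext t
    rw [aeval_C]
    rfl
  | add p q hp hq =>
    rw [map_add, hp, hq, ← map_add]
    congr 1
    funext t
    rw [map_add]
    rfl
  | mul_X p i hp =>
    rw [map_mul, hp, aeval_X, ← map_mul]
    congr 1
    funext t
    rw [map_mul, aeval_X]
    rfl

theorem rep_aeval {ι : Type} (X : ι → G k σ) (F : MvPolynomial ι k) :
    ∀ᶠ t in (σ.𝒰 : Filter ℕ), rep (aeval X F) t = aeval (fun i => rep (X i) t) F := by
  have h1 : aeval X F = gm σ (fun t => aeval (fun i => rep (X i) t) F) := by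
    rw [← aeval_gm]
    congr 2
    funext i
    exact (gm_rep _).symm
  rw [h1]
  exact rep_gm _

/-- homogeneous polynomials and scaling -/
theorem aeval_smul_hom {ι A : Type} [Fintype ι] [CommRing A] [Algebra k A] (F : MvPolynomial ι k)
    (e : ℕ) (hF : F.IsHomogeneous e) (c : A) (x : ι → A) :
    aeval (fun i => c * x i) F = c ^ e * aeval x F := by
  rw [aeval_def, eval₂_eq', aeval_def, eval₂_eq', Finset.mul_sum]
  refine Finset.sum_congr rfl fun α hα => ?_
  have h2 := hF (mem_support_iff.1 hα)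
  rw [Finsupp.weight_apply, Finsupp.sum_fintype _ _ (by simp)] at h2
  have h3 : ∑ j, α j = e := by simpa using h2
  rw [← h3, ← Finset.prod_pow_eq_pow_sum]
  simp only [mul_pow]
  rw [Finset.prod_mul_distrib]
  ring

/-- the restriction of a polynomial to the line through a point -/
noncomputable def qp {n : ℕ} (Q : MvPolynomial (Fin n) k) (ξ : Fin n → k) : Polynomial k :=
  ∑ j ∈ Finset.range (Q.totalDegree + 1),
    Polynomial.C (aeval ξ (homogeneousComponent j Q)) * Polynomial.X ^ j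

theorem qp_eval {n : ℕ} (Q : MvPolynomial (Fin n) k) (ξ : Fin n → k) (s : k) :
    (qp Q ξ).eval s = aeval (fun i => s * ξ i) Q := by
  unfold qp
  conv_rhs => rw [← sum_homogeneousComponent Q]
  rw [Polynomial.eval_finsetSum, map_sum]
  refine Finset.sum_congr rfl fun j _ => ?_
  rw [aeval_smul_hom _ j (homogeneousComponent_isHomogeneous j Q), Polynomial.eval_mul,
    Polynomial.eval_C, Polynomial.eval_pow, Polynomial.eval_X, mul_comm]

theorem qp_ne_zero {n : ℕ} (Q : MvPolynomial (Fin n) k) (ξ : Fin n → k) (j : ℕ)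
    (hj : j ≤ Q.totalDegree) (h : aeval ξ (homogeneousComponent j Q) ≠ 0) : qp Q ξ ≠ 0 := by
  intro h0
  apply h
  have h1 : (qp Q ξ).coeff j = aeval ξ (homogeneousComponent j Q) := by
    unfold qp
    rw [Polynomial.finsetSum_coeff]
    simp_rw [Polynomial.coeff_C_mul_X_pow]
    rw [Finset.sum_ite_eq, if_pos (Finset.mem_range.2 (by omega))]
  rw [← h1, h0, Polynomial.coeff_zero]

theorem countable_k (k : Type) [Field k] [NumberField k] : Countable k :=
  Finsupp.Countable.of_moduleFinite (R := ℚ)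

theorem countable_poly (k : Type) [Field k] [NumberField k] (n : ℕ) :
    Countable (MvPolynomial (Fin n) k) := by
  have := countable_k k
  rw [← Cardinal.mk_le_aleph0_iff]
  refine MvPolynomial.cardinalMk_le_max.trans ?_
  have h1 : Cardinal.mk k ≤ Cardinal.aleph0 := Cardinal.mk_le_aleph0_iff.2 this
  have h2 : Cardinal.mk (Fin n) ≤ Cardinal.aleph0 := Cardinal.mk_le_aleph0_iff.2 inferInstance
  exact max_le (max_le h1 h2) le_rfl

/-- after multiplication by a suitable germ the coordinates are algebraically independent -/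
theorem exists_scale (hσ : (σ.𝒰 : Filter ℕ) ≤ atTop) {n : ℕ} (X : Fin n → G k σ)
    (hgen : ∀ (Φ : MvPolynomial (Fin n) k) (e : ℕ), Φ.IsHomogeneous e → Φ ≠ 0 →
      aeval X Φ ≠ 0) :
    ∃ s : G k σ, AlgebraicIndependent k (fun i => s * X i) := by
  classical
  have hcount := countable_poly k n
  obtain ⟨f, hf⟩ := exists_surjective_nat (MvPolynomial (Fin n) k)
  let ξ : Fin n → ℕ → k := fun i => rep (X i)
  have hξ : ∀ i, gm σ (ξ i) = X i := fun i => gm_rep _
  have hex : ∀ t : ℕ, ∃ s : k, ∀ j ≤ t, qp (f j) (fun i => ξ i t) ≠ 0 →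
      (qp (f j) (fun i => ξ i t)).eval s ≠ 0 := by
    intro t
    set P : Polynomial k := ∏ j ∈ (Finset.range (t + 1)).filter
      (fun j => qp (f j) (fun i => ξ i t) ≠ 0), qp (f j) (fun i => ξ i t) with hP
    have hP0 : P ≠ 0 := by
      rw [hP, Finset.prod_ne_zero_iff]
      intro j hj
      exact (Finset.mem_filter.1 hj).2
    obtain ⟨s, hs⟩ : ∃ s : k, P.eval s ≠ 0 := by
      by_contra hcon
      push Not at hcon
      apply hP0
      apply Polynomial.funext
      intro s
      rw [hcon s, Polynomial.eval_zero]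
    refine ⟨s, fun j hj h0 h1 => hs ?_⟩
    rw [hP, Polynomial.eval_prod]
    exact Finset.prod_eq_zero (Finset.mem_filter.2 ⟨Finset.mem_range.2 (by omega), h0⟩) h1
  choose s hs using hex
  refine ⟨gm σ s, ?_⟩
  rw [algebraicIndependent_iff]
  intro Q hQ
  by_contra hQ0
  obtain ⟨j, hj⟩ : ∃ j, homogeneousComponent j Q ≠ 0 := by
    by_contra hcon
    push Not at hcon
    apply hQ0
    rw [← sum_homogeneousComponent Q]
    exact Finset.sum_eq_zero fun j _ => hcon j
  have hjd : j ≤ Q.totalDegree := by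
    by_contra hcon
    exact hj (homogeneousComponent_eq_zero _ _ (by omega))
  have h1 := hgen _ j (homogeneousComponent_isHomogeneous j Q) hj
  rw [← funext hξ, aeval_gm, gm_ne] at h1
  have h2 : (fun i => gm σ s * X i) = fun i => gm σ (fun t => s t * ξ i t) := by
    funext i
    rw [← hξ, ← map_mul]
    rfl
  have h0 : (gm σ (fun _ => 0) : G k σ) = 0 := map_zero (gm σ)
  rw [h2, aeval_gm, ← h0, gm_eq] at hQ
  obtain ⟨q, rfl⟩ := hf Q
  have h3 : ∀ᶠ t in (σ.𝒰 : Filter ℕ), q ≤ t := hσ (eventually_ge_atTop q)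
  obtain ⟨t, h4, h5, h6⟩ := (h1.and (hQ.and h3)).exists
  have h7 := hs t q h6 (qp_ne_zero _ _ j hjd h4)
  rw [qp_eval] at h7
  exact h7 h5

/-- enough good directions at a generic germ -/
theorem exists_good (hσ : (σ.𝒰 : Filter ℕ) ≤ atTop) {m ν n : ℕ} (T : Fin m → G k σ)
    (hT : ∀ j, T j ≠ 0) (R : Fin ν → MvPolynomial (Fin m) (FF k σ)) (J0 : Fin n → Fin ν)
    (hgen : ∀ (Φ : MvPolynomial (Fin n) k) (e : ℕ), Φ.IsHomogeneous e → Φ ≠ 0 →
      aeval (fun i => ev T (R (J0 i))) Φ ≠ 0) :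
    ∃ W : Fin n → Fin ν → MvPolynomial (Fin m) (FF k σ), (∀ c, Good k R (W c)) ∧
      (Matrix.of fun (i c : Fin n) => ev T (W c (J0 i))).det ≠ 0 := by
  obtain ⟨s, hs⟩ := exists_scale hσ (fun i => ev T (R (J0 i))) hgen
  exact exists_good_abs T hT R J0 s hs

theorem ev_aeval {m ν : ℕ} (T : Fin m → G k σ) (R : Fin ν → MvPolynomial (Fin m) (FF k σ))
    (F : MvPolynomial (Fin ν) k) : ev T (aeval R F) = aeval (fun y => ev T (R y)) F := by
  induction F using MvPolynomial.induction_on with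
  | C a =>
    rw [aeval_C, aeval_C]
    have h1 : algebraMap k (MvPolynomial (Fin m) (FF k σ)) a = C (algebraMap k (FF k σ) a) := rfl
    rw [h1]
    unfold ev
    rw [aeval_C]
    rfl
  | add p q hp hq => rw [map_add, map_add, map_add, hp, hq]
  | mul_X p i hp => rw [map_mul, map_mul, map_mul, hp, aeval_X, aeval_X]

/-- the derivative of a form in a good direction is not larger than the form -/
theorem val_deriv_le (S : Finset (Pl k)) (hS : ∀ w : InfinitePlace k, Sum.inl w ∈ S) {m ν : ℕ}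
    (T : Fin m → G k σ) (hT : ∀ j, SU S (T j)) (hTB : ∀ j, T j ∈ BB k σ)
    (hind : ∀ p : MvPolynomial (Fin m) (FF k σ), ev T p = 0 → p = 0)
    (R W : Fin ν → MvPolynomial (Fin m) (FF k σ)) (hW : Good k R W) (v : Pl k) (hv : v ∈ S)
    (F : MvPolynomial (Fin ν) k) (e : ℕ) (hF : F.IsHomogeneous e) :
    (OO σ (av v)).valuation (∑ y, aeval (fun y => ev T (R y)) (pderiv y F) * ev T (W y)) ≤
      (OO σ (av v)).valuation (aeval (fun y => ev T (R y)) F) := by
  classical
  have h1 : ∑ y, aeval (fun y => ev T (R y)) (pderiv y F) * ev T (W y) = ev T (DF R W F) := by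
    unfold DF
    rw [map_sum]
    refine Finset.sum_congr rfl fun y _ => ?_
    rw [map_mul, ev_aeval]
  rw [h1, ← ev_aeval]
  obtain ⟨P, hP⟩ : ∃ P : MvPolynomial (Fin m) (FF k σ), P = aeval R F := ⟨_, rfl⟩
  obtain ⟨Q, hQ⟩ : ∃ Q : MvPolynomial (Fin m) (FF k σ), Q = DF R W F := ⟨_, rfl⟩
  have hsub : Q.support ⊆ P.support := by
    rw [hP, hQ]
    exact hW F e hF
  rw [← hP, ← hQ]
  have hmon : ∀ d ∈ P.support,
      (OO σ (av v)).valuation (mo T d) ≤ (OO σ (av v)).valuation (ev T P) := by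
    intro d hd
    have h2 := lb hS (fun d : P.support => mo T d.1)
      (fun d => SU.mo hT _) (fun d => BB_mo hTB _) (by
        intro d d' hdd h
        apply hdd
        apply Subtype.ext
        by_contra hne
        have h3 : ev T (monomial d.1 1 - monomial d'.1 (⟨_, h⟩ : FF k σ)) = 0 := by
          unfold ev
          rw [map_sub, aeval_monomial, aeval_monomial, map_one, one_mul,
            Finsupp.prod_fintype _ _ (by simp), Finsupp.prod_fintype _ _ (by simp)]
          show mo T d.1 - (mo T d.1 / mo T d'.1) * mo T d'.1 = 0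
          rw [div_mul_cancel₀ _ (mo_ne (fun j => (hT j).ne_zero) _), sub_self]
        have h4 := hind _ h3
        have h5 := congrArg (coeff d.1) h4
        rw [coeff_sub, coeff_monomial, coeff_monomial, if_pos rfl, if_neg (Ne.symm hne),
          sub_zero, coeff_zero] at h5
        exact one_ne_zero h5)
      (fun d => ((coeff d.1 P : FF k σ) : G k σ))
      (fun d => (coeff d.1 P).2) (fun d h => mem_support_iff.1 d.2 (Subtype.ext h)) v hv ⟨d, hd⟩
    have h3 : ∑ d : P.support, ((coeff d.1 P : FF k σ) : G k σ) * mo T d.1 = ev T P := by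
      rw [ev_eq, ← Finset.sum_coe_sort P.support]
      rfl
    rw [h3] at h2
    exact h2
  rw [ev_eq T Q]
  apply Valuation.map_sum_le
  intro d hd
  rw [map_mul]
  exact (mul_le_of_le_one_left' (val_FF_le v (coeff d Q).2)).trans (hmon d (hsub hd))

end Pool.Agent.K1H83.VN
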