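import Mathlib
import Pool.Agent.R405.SchF

/-!
Heights over a number field: the part of the height which comes from the places outside of `S`.
-/

set_option autoImplicit false
set_option linter.unusedSectionVars false
set_option linter.unusedSimpArgs false

namespace Pool.Agent.K1H83.VN

open NumberField IsDedekindDomain Height Finset
open Pool.Agent.W180.OP (Pl av wt fv fv_support_finite wt_nonneg)

variable {k : Type} [Field k] [NumberField k]

/-- the maximum of the absolute values of the coordinates -/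
noncomputable def nm {K : Type} [Field K] {ι : Type} (f : AbsoluteValue K ℝ) (x : ι → K) : ℝ :=
  ⨆ i, f (x i)

section nm

variable {K : Type} [Field K] {ι : Type} [Finite ι] (f : AbsoluteValue K ℝ)

theorem le_nm (x : ι → K) (i : ι) : f (x i) ≤ nm f x :=
  le_ciSup (f := fun i => f (x i)) (Set.finite_range _).bddAbove i

theorem nm_nonneg {ι : Type} (x : ι → K) : 0 ≤ nm f x := Real.iSup_nonneg fun _ => f.nonneg _

theorem nm_pos {x : ι → K} (hx : x ≠ 0) : 0 < nm f x := by
  obtain ⟨j, hj⟩ := Function.ne_iff.1 hx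
  exact (f.pos_iff.2 hj).trans_le (le_nm f x j)

theorem nm_le {ι : Type} {x : ι → K} {B : ℝ} (hB : 0 ≤ B) (h : ∀ i, f (x i) ≤ B) : nm f x ≤ B :=
  Real.iSup_le h hB

theorem exists_nm [Nonempty ι] (x : ι → K) : ∃ i, f (x i) = nm f x := by
  obtain ⟨j, hj⟩ := exists_eq_ciSup_of_finite (f := fun j => f (x j))
  exact ⟨j, hj⟩

theorem nm_smul {ι : Type} (c : K) (x : ι → K) : nm f (fun i => c * x i) = f c * nm f x := by
  unfold nm
  rw [Real.mul_iSup_of_nonneg (f.nonneg c)]
  simp only [map_mul]

theorem nm_unit (a : K) : nm f (fun _ : Unit => a) = f a := ciSup_const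

theorem ne_of_coord {x : ι → K} {i : ι} (h : x i ≠ 0) : x ≠ 0 := fun h' => h (congrFun h' i)

end nm

theorem fv_na (v : HeightOneSpectrum (𝓞 k)) : IsNonarchimedean (fv v) := fun a b =>
  FinitePlace.add_le (FinitePlace.mk v) a b

theorem nm_support {ι : Type} [Finite ι] (x : ι → k) (hx : x ≠ 0) :
    {v : HeightOneSpectrum (𝓞 k) | nm (fv v) x ≠ 1}.Finite := by
  have h1 : (⋃ i : {i : ι // x i ≠ 0},
      {v : HeightOneSpectrum (𝓞 k) | fv v (x i) ≠ 1}).Finite :=
    Set.finite_iUnion fun i => fv_support_finite i.2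
  refine h1.subset fun v hv => ?_
  by_contra hc
  apply hv
  simp only [Set.mem_iUnion, not_exists, Set.mem_ofPred_eq, not_not] at hc
  obtain ⟨i0, hi0⟩ := Function.ne_iff.1 hx
  have : Nonempty ι := ⟨i0⟩
  obtain ⟨i, hi⟩ := exists_nm (fv v) x
  by_cases h0 : x i = 0
  · rw [h0, map_zero] at hi
    have := nm_pos (fv v) hx
    linarith
  · rw [← hi]
    exact hc ⟨i, h0⟩

theorem log_support {ι : Type} [Finite ι] (x : ι → k) (hx : x ≠ 0) :
    (Function.support fun v : HeightOneSpectrum (𝓞 k) => Real.log (nm (fv v) x)).Finite := by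
  refine (nm_support x hx).subset fun v hv => ?_
  intro h
  apply hv
  show Real.log _ = 0
  rw [h, Real.log_one]

open Classical in
/-- the local terms outside of `S` -/
noncomputable def lo (S : Finset (Pl k)) {ι : Type} (x : ι → k) (v : HeightOneSpectrum (𝓞 k)) : ℝ :=
  if Sum.inr v ∈ S then 0 else Real.log (nm (fv v) x)

/-- the part of the height which comes from the places outside of `S` -/
noncomputable def ho (S : Finset (Pl k)) {ι : Type} (x : ι → k) : ℝ :=
  ∑ᶠ v : HeightOneSpectrum (𝓞 k), lo S x v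

theorem lo_support (S : Finset (Pl k)) {ι : Type} [Finite ι] (x : ι → k) (hx : x ≠ 0) :
    (Function.support (lo S x)).Finite := by
  refine (log_support x hx).subset fun v hv => ?_
  intro h
  apply hv
  unfold lo
  split_ifs
  · rfl
  · exact h

theorem logHeight_fin {ι : Type} [Finite ι] (x : ι → k) (hx : x ≠ 0) :
    logHeight x = ∑ w : InfinitePlace k, (w.mult : ℝ) * Real.log (nm w.1 x) +
      ∑ᶠ v : HeightOneSpectrum (𝓞 k), Real.log (nm (fv v) x) := by
  classical
  set T : Finset (HeightOneSpectrum (𝓞 k)) := (nm_support x hx).toFinset with hT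
  have hT1 : ∀ v, v ∉ T → nm (fv v) x = 1 := by
    intro v hv
    by_contra hc
    exact hv ((Set.Finite.mem_toFinset _).2 hc)
  have e : ∏ᶠ v : FinitePlace k, ⨆ i, v (x i) =
      ∏ᶠ v : HeightOneSpectrum (𝓞 k), nm (fv v) x := by
    rw [← finprod_comp_equiv (FinitePlace.equivHeightOneSpectrum (K := k)).symm]
    rfl
  have e2 : ∏ᶠ v : HeightOneSpectrum (𝓞 k), nm (fv v) x = ∏ v ∈ T, nm (fv v) x := by
    refine finprod_eq_prod_of_mulSupport_subset _ fun v hv => ?_
    by_contra hc
    exact hv (hT1 v hc)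
  have e3 : ∑ᶠ v : HeightOneSpectrum (𝓞 k), Real.log (nm (fv v) x) =
      ∑ v ∈ T, Real.log (nm (fv v) x) := by
    refine finsum_eq_sum_of_support_subset _ fun v hv => ?_
    by_contra hc
    apply hv
    show Real.log _ = 0
    rw [hT1 v hc, Real.log_one]
  have hw : ∀ w : InfinitePlace k, (⨆ i, w (x i)) = nm w.1 x := fun w => rfl
  have h4 : 0 < ∏ w : InfinitePlace k, (⨆ i, w (x i)) ^ w.mult :=
    prod_pos fun w _ => pow_pos (by rw [hw]; exact nm_pos _ hx) _
  have h5 : 0 < ∏ v ∈ T, nm (fv v) x := prod_pos fun v _ => nm_pos _ hx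
  rw [logHeight_eq_log_mulHeight, NumberField.mulHeight_eq hx, e, e2, e3,
    Real.log_mul h4.ne' h5.ne', Real.log_prod fun w _ => (pow_pos (by rw [hw]; exact nm_pos _ hx) _).ne',
    Real.log_prod fun v _ => (nm_pos _ hx).ne']
  congr 1
  exact Finset.sum_congr rfl fun w _ => by rw [Real.log_pow, hw]

/-- the decomposition of the height -/
theorem logHeight_split (S : Finset (Pl k)) (hS : ∀ w : InfinitePlace k, Sum.inl w ∈ S)
    {ι : Type} [Finite ι] (x : ι → k) (hx : x ≠ 0) :
    logHeight x = ∑ v ∈ S, wt v * Real.log (nm (av v) x) + ho S x := by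
  classical
  rw [logHeight_fin x hx]
  have h1 : ∑ v ∈ S, wt v * Real.log (nm (av v) x) =
      ∑ w : InfinitePlace k, (w.mult : ℝ) * Real.log (nm w.1 x) +
      ∑ v ∈ S.toRight, Real.log (nm (fv v) x) := by
    rw [← Finset.toLeft_disjSum_toRight (u := S), Finset.sum_disjSum,
      Finset.toLeft_disjSum_toRight]
    congr 1
    · have h2 : S.toLeft = Finset.univ := by
        ext w
        simp [Finset.mem_toLeft, hS w]
      rw [h2]
      rfl
    · exact Finset.sum_congr rfl fun v _ => one_mul _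
  have h2 : ∑ v ∈ S.toRight, Real.log (nm (fv v) x) =
      ∑ᶠ v : HeightOneSpectrum (𝓞 k), if v ∈ S.toRight then Real.log (nm (fv v) x) else 0 := by
    rw [finsum_eq_sum_of_support_subset (s := S.toRight)]
    · exact Finset.sum_congr rfl fun v hv => by rw [if_pos hv]
    · intro v hv
      by_contra hc
      apply hv
      show (if v ∈ S.toRight then Real.log (nm (fv v) x) else 0) = 0
      exact if_neg hc
  have h3 : (Function.support fun v : HeightOneSpectrum (𝓞 k) =>
      if v ∈ S.toRight then Real.log (nm (fv v) x) else 0).Finite := by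
    refine (log_support x hx).subset fun v hv h => hv ?_
    show (if v ∈ S.toRight then Real.log (nm (fv v) x) else 0) = 0
    split_ifs
    · exact h
    · rfl
  rw [h1, h2, add_assoc]
  congr 1
  unfold ho
  rw [← finsum_add_distrib h3 (lo_support S x hx)]
  congr 1
  funext v
  unfold lo
  by_cases hv : Sum.inr v ∈ S
  · rw [if_pos hv, if_pos (Finset.mem_toRight.2 hv), add_zero]
  · rw [if_neg hv, if_neg (fun h => hv (Finset.mem_toRight.1 h)), zero_add]

/-- comparison of the parts outside of `S` -/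
theorem ho_mul_le (S : Finset (Pl k)) {ι κ μ : Type} [Finite ι] [Finite κ] [Finite μ]
    (z : ι → k) (hz : z ≠ 0) (x : κ → k) (hx : x ≠ 0) (y : μ → k) (hy : y ≠ 0)
    (h : ∀ v : HeightOneSpectrum (𝓞 k), Sum.inr v ∉ S → nm (fv v) z ≤ nm (fv v) x * nm (fv v) y) :
    ho S z ≤ ho S x + ho S y := by
  unfold ho
  rw [← finsum_add_distrib (lo_support S x hx) (lo_support S y hy)]
  refine finsum_le_finsum' (lo_support S z hz) ?_ fun v => ?_
  · refine ((lo_support S x hx).union (lo_support S y hy)).subset fun v hv => ?_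
    by_contra hc
    rw [Set.mem_union, not_or] at hc
    apply hv
    have h1 : lo S x v = 0 := by simpa using hc.1
    have h2 : lo S y v = 0 := by simpa using hc.2
    show lo S x v + lo S y v = 0
    rw [h1, h2, add_zero]
  · unfold lo
    by_cases hv : Sum.inr v ∈ S
    · rw [if_pos hv, if_pos hv, if_pos hv, add_zero]
    · rw [if_neg hv, if_neg hv, if_neg hv, ← Real.log_mul (nm_pos _ hx).ne' (nm_pos _ hy).ne']
      exact Real.log_le_log (nm_pos _ hz) (h v hv)

theorem ho_le (S : Finset (Pl k)) {ι κ : Type} [Finite ι] [Finite κ]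
    (z : ι → k) (hz : z ≠ 0) (x : κ → k) (hx : x ≠ 0)
    (h : ∀ v : HeightOneSpectrum (𝓞 k), Sum.inr v ∉ S → nm (fv v) z ≤ nm (fv v) x) :
    ho S z ≤ ho S x := by
  unfold ho
  refine finsum_le_finsum' (lo_support S z hz) (lo_support S x hx) fun v => ?_
  unfold lo
  by_cases hv : Sum.inr v ∈ S
  · rw [if_pos hv, if_pos hv]
  · rw [if_neg hv, if_neg hv]
    exact Real.log_le_log (nm_pos _ hz) (h v hv)

theorem ho_nonpos (S : Finset (Pl k)) {ι : Type} [Finite ι] (z : ι → k) (hz : z ≠ 0)
    (h : ∀ v : HeightOneSpectrum (𝓞 k), Sum.inr v ∉ S → nm (fv v) z ≤ 1) : ho S z ≤ 0 := by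
  have h1 := finsum_le_finsum' (f := lo S z) (g := fun _ => (0 : ℝ)) (lo_support S z hz)
    (by simp [Function.HasFiniteSupport]) fun v => by
      unfold lo
      split_ifs with hv
      · exact le_rfl
      · exact Real.log_nonpos (nm_nonneg _ _) (h v hv)
  rwa [finsum_zero] at h1

theorem ho_nonneg (S : Finset (Pl k)) {ι : Type} (z : ι → k)
    (h : ∀ v : HeightOneSpectrum (𝓞 k), Sum.inr v ∉ S → 1 ≤ nm (fv v) z) : 0 ≤ ho S z :=
  finsum_nonneg fun v => by
    unfold lo
    split_ifs with hv
    · exact le_rfl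
    · exact Real.log_nonneg (h v hv)

end Pool.Agent.K1H83.VN
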