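import Pool.Agent.K1H83.VN.Ht

/-!
Heights of elements, the product formula, units.
-/

set_option autoImplicit false
set_option linter.unusedSectionVars false
set_option linter.unusedSimpArgs false

namespace Pool.Agent.K1H83.VN

open NumberField IsDedekindDomain Height Finset
open Pool.Agent.W180.OP (Pl av wt fv fv_support_finite wt_nonneg)

variable {k : Type} [Field k] [NumberField k]

theorem av_inr (v : HeightOneSpectrum (𝓞 k)) : av (Sum.inr v : Pl k) = fv v := rfl

/-- one of the coordinates is one -/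
theorem one_le_nm {K : Type} [Field K] {ι : Type} [Finite ι] (f : AbsoluteValue K ℝ) (x : ι → K)
    (i : ι) (hi : x i = 1) : 1 ≤ nm f x := by
  have := le_nm f x i
  rwa [hi, map_one] at this

theorem ne_of_one {K : Type} [Field K] {ι : Type} (x : ι → K) (i : ι) (hi : x i = 1) : x ≠ 0 := by
  intro h
  rw [h] at hi
  exact zero_ne_one hi

theorem local_le {ι : Type} [Finite ι] (x : ι → k) (i : ι) (hi : x i = 1) (v : Pl k) :
    wt v * Real.log (nm (av v) x) ≤ logHeight x := by
  classical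
  set S : Finset (Pl k) := insert v (Finset.univ.map ⟨Sum.inl, Sum.inl_injective⟩) with hS
  have hS1 : ∀ w : InfinitePlace k, Sum.inl w ∈ S := fun w =>
    Finset.mem_insert_of_mem (Finset.mem_map_of_mem _ (Finset.mem_univ w))
  rw [logHeight_split S hS1 x (ne_of_one x i hi)]
  have h1 : wt v * Real.log (nm (av v) x) ≤ ∑ v ∈ S, wt v * Real.log (nm (av v) x) :=
    Finset.single_le_sum (f := fun v => wt v * Real.log (nm (av v) x))
      (fun v _ => mul_nonneg (wt_nonneg v) (Real.log_nonneg (one_le_nm _ x i hi)))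
      (Finset.mem_insert_self _ _)
  have h2 : 0 ≤ ho S x := ho_nonneg S x fun v _ => one_le_nm _ x i hi
  linarith

theorem ho_le_height (S : Finset (Pl k)) (hS : ∀ w : InfinitePlace k, Sum.inl w ∈ S)
    {ι : Type} [Finite ι] (x : ι → k) (i : ι) (hi : x i = 1) : ho S x ≤ logHeight x := by
  rw [logHeight_split S hS x (ne_of_one x i hi)]
  have h1 : 0 ≤ ∑ v ∈ S, wt v * Real.log (nm (av v) x) := Finset.sum_nonneg fun v _ =>
    mul_nonneg (wt_nonneg v) (Real.log_nonneg (one_le_nm _ x i hi))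
  linarith

theorem log_le (v : Pl k) (a : k) (ha : a ≠ 0) :
    wt v * Real.log (av v a) ≤ logHeight₁ a := by
  rw [logHeight₁_eq_logHeight]
  refine le_trans ?_ (local_le ![a, 1] 1 rfl v)
  refine mul_le_mul_of_nonneg_left ?_ (wt_nonneg v)
  exact Real.log_le_log ((av v).pos ha) (le_nm (av v) ![a, 1] 0)

theorem abs_log_le (v : Pl k) (a : k) (ha : a ≠ 0) :
    wt v * |Real.log (av v a)| ≤ logHeight₁ a := by
  rcases abs_cases (Real.log (av v a)) with ⟨h, _⟩ | ⟨h, _⟩
  · rw [h]
    exact log_le v a ha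
  · rw [h]
    have h1 := log_le v a⁻¹ (inv_ne_zero ha)
    rwa [map_inv₀, Real.log_inv, logHeight₁_inv] at h1

theorem one_le_wt (v : Pl k) : 1 ≤ wt v := by
  rcases v with w | v
  · show (1 : ℝ) ≤ (w.mult : ℝ)
    exact_mod_cast Nat.one_le_iff_ne_zero.2 w.mult_ne_zero
  · exact le_rfl

theorem abs_log_le' (v : Pl k) (a : k) (ha : a ≠ 0) : |Real.log (av v a)| ≤ logHeight₁ a := by
  refine le_trans ?_ (abs_log_le v a ha)
  exact le_mul_of_one_le_left (abs_nonneg _) (one_le_wt v)

/-- the product formula -/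
theorem prod_formula (S : Finset (Pl k)) (hS : ∀ w : InfinitePlace k, Sum.inl w ∈ S) (a : k)
    (ha : a ≠ 0) : ∑ v ∈ S, wt v * Real.log (av v a) = -ho S (fun _ : Unit => a) := by
  have h1 := logHeight_split S hS (fun _ : Unit => a) (ne_of_coord (i := ()) ha)
  rw [logHeight_eq_zero_of_subsingleton] at h1
  simp only [nm_unit] at h1
  linarith

theorem ho_unit_inv (S : Finset (Pl k)) (hS : ∀ w : InfinitePlace k, Sum.inl w ∈ S) (a : k)
    (ha : a ≠ 0) : ho S (fun _ : Unit => a⁻¹) = -ho S (fun _ : Unit => a) := by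
  have h1 := prod_formula S hS a ha
  have h2 := prod_formula S hS a⁻¹ (inv_ne_zero ha)
  have h3 : ∑ v ∈ S, wt v * Real.log (av v a⁻¹) = -∑ v ∈ S, wt v * Real.log (av v a) := by
    rw [← Finset.sum_neg_distrib]
    exact Finset.sum_congr rfl fun v _ => by rw [map_inv₀, Real.log_inv, mul_neg]
  linarith

theorem ho_unit_le (S : Finset (Pl k)) (hS : ∀ w : InfinitePlace k, Sum.inl w ∈ S) (a : k)
    (ha : a ≠ 0) : ho S (fun _ : Unit => a) ≤ logHeight₁ a := by
  rw [logHeight₁_eq_logHeight]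
  refine le_trans ?_ (ho_le_height S hS ![a, 1] 1 rfl)
  refine ho_le S _ (ne_of_coord (i := ()) ha) _ (ne_of_one _ 1 rfl) fun v _ => ?_
  rw [nm_unit]
  exact le_nm (fv v) ![a, 1] 0

theorem abs_ho_unit (S : Finset (Pl k)) (hS : ∀ w : InfinitePlace k, Sum.inl w ∈ S) (a : k)
    (ha : a ≠ 0) : |ho S (fun _ : Unit => a)| ≤ logHeight₁ a := by
  rw [abs_le]
  constructor
  · have h1 := ho_unit_le S hS a⁻¹ (inv_ne_zero ha)
    rw [ho_unit_inv S hS a ha, logHeight₁_inv] at h1
    linarith
  · exact ho_unit_le S hS a ha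

theorem abs_prod_formula (S : Finset (Pl k)) (hS : ∀ w : InfinitePlace k, Sum.inl w ∈ S) (a : k)
    (ha : a ≠ 0) : |∑ v ∈ S, wt v * Real.log (av v a)| ≤ logHeight₁ a := by
  rw [prod_formula S hS a ha, abs_neg]
  exact abs_ho_unit S hS a ha

/-- `S`-units -/
def IsSU (S : Finset (Pl k)) (a : k) : Prop :=
  a ≠ 0 ∧ ∀ v : HeightOneSpectrum (𝓞 k), Sum.inr v ∉ S → fv v a = 1

theorem IsSU.one (S : Finset (Pl k)) : IsSU S (1 : k) := ⟨one_ne_zero, fun v _ => map_one _⟩

theorem IsSU.mul {S : Finset (Pl k)} {a b : k} (ha : IsSU S a) (hb : IsSU S b) :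
    IsSU S (a * b) :=
  ⟨mul_ne_zero ha.1 hb.1, fun v hv => by rw [map_mul, ha.2 v hv, hb.2 v hv, mul_one]⟩

theorem IsSU.inv {S : Finset (Pl k)} {a : k} (ha : IsSU S a) : IsSU S a⁻¹ :=
  ⟨inv_ne_zero ha.1, fun v hv => by rw [map_inv₀, ha.2 v hv, inv_one]⟩

theorem IsSU.div {S : Finset (Pl k)} {a b : k} (ha : IsSU S a) (hb : IsSU S b) :
    IsSU S (a / b) := by
  rw [div_eq_mul_inv]
  exact ha.mul hb.inv

theorem IsSU.prod_formula {S : Finset (Pl k)} (hS : ∀ w : InfinitePlace k, Sum.inl w ∈ S) {a : k}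
    (ha : IsSU S a) : ∑ v ∈ S, wt v * Real.log (av v a) = 0 := by
  rw [VN.prod_formula S hS a ha.1]
  have h1 : ho S (fun _ : Unit => a) = 0 := by
    unfold ho
    rw [← finsum_zero (α := HeightOneSpectrum (𝓞 k)) (M := ℝ)]
    congr 1
    funext v
    unfold lo
    split_ifs with hv
    · rfl
    · rw [nm_unit, ha.2 v hv, Real.log_one]
  rw [h1, neg_zero]

/-- the vector `(1, c)` -/
def c1 {K : Type} [Field K] {ι : Type} (c : ι → K) : Option ι → K := fun o => o.elim 1 c

theorem logHeight_c1 {ι : Type} [Fintype ι] (c : ι → k) :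
    logHeight (c1 c) ≤ ∑ i, logHeight₁ (c i) := by
  classical
  let x : (i : ι) → Fin 2 → k := fun i => ![c i, 1]
  have hx : ∀ i, x i ≠ 0 := fun i => ne_of_one _ 1 rfl
  have h1 := logHeight_fun_prod_eq hx
  let f : Option ι → (ι → Fin 2) := fun o => o.elim (fun _ => 1) fun i => Function.update (fun _ => 1) i 0
  have h2 := logHeight_comp_le f (fun I : ι → Fin 2 => ∏ a, x a (I a))
  have h3 : (fun I : ι → Fin 2 => ∏ a, x a (I a)) ∘ f = c1 c := by
    funext o
    rcases o with _ | i
    · show ∏ a, x a 1 = 1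
      exact Finset.prod_eq_one fun a _ => rfl
    · show ∏ a, x a (Function.update (fun _ => (1 : Fin 2)) i 0 a) = c i
      rw [Finset.prod_eq_single i]
      · rw [Function.update_self]
        rfl
      · intro b _ hb
        rw [Function.update_of_ne hb]
        rfl
      · intro h
        exact absurd (Finset.mem_univ i) h
  rw [h3, h1] at h2
  refine h2.trans (le_of_eq ?_)
  exact Finset.sum_congr rfl fun i _ => (logHeight₁_eq_logHeight _).symm

/-- the part outside of `S` of a vector of multiples of units -/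
theorem ho_near (S : Finset (Pl k)) (hS : ∀ w : InfinitePlace k, Sum.inl w ∈ S) {ι : Type}
    [Fintype ι] (c u : ι → k) (hu : ∀ i, IsSU S (u i)) (hz : (fun i => c i * u i) ≠ 0) :
    ho S (fun i => c i * u i) ≤ ∑ i, logHeight₁ (c i) := by
  refine le_trans ?_ (logHeight_c1 c)
  refine le_trans ?_ (ho_le_height S hS (c1 c) none rfl)
  refine ho_le S _ hz _ (ne_of_one _ none rfl) fun v hv => ?_
  refine nm_le _ (nm_nonneg _ _) fun i => ?_
  rw [map_mul, (hu i).2 v hv, mul_one]
  exact le_nm (fv v) (c1 c) (some i)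

/-- the height of a vector in terms of the heights of the coordinates -/
theorem logHeight_le_sum {ι : Type} [Fintype ι] (c : ι → k) :
    logHeight c ≤ ∑ i, logHeight₁ (c i) :=
  (logHeight_comp_le (some : ι → Option ι) (c1 c)).trans (logHeight_c1 c)

/-- the height of a quotient of coordinates -/
theorem logHeight₁_div_le {ι : Type} [Finite ι] (x : ι → k) (i j : ι) :
    logHeight₁ (x i / x j) ≤ logHeight x := by
  rw [logHeight₁_div_eq_logHeight]
  have h1 := logHeight_comp_le (![i, j] : Fin 2 → ι) x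
  have h2 : x ∘ (![i, j] : Fin 2 → ι) = ![x i, x j] := by
    funext a
    fin_cases a <;> rfl
  rwa [h2] at h1

end Pool.Agent.K1H83.VN
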