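import Pool.Agent.K1H83.VN.Seq

/-!
The inequality at the points that are short sums of units.
-/

set_option autoImplicit false
set_option linter.unusedSectionVars false

namespace Pool.Agent.K1H83.VN

open NumberField IsDedekindDomain Height Filter Topology MvPolynomial
open Pool.Agent.W180.OP (Pl av wt fv fv_support_finite wt_nonneg)

variable {k : Type} [Field k] [NumberField k]

open Classical in
/-- the classes in a vanishing sum vanish -/
theorem class_sum {σ : Sc} {S : Finset (Pl k)} (hS : ∀ w : InfinitePlace k, Sum.inl w ∈ S)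
    {ι : Type} [Fintype ι] (u : ι → G k σ) (hu : ∀ i, SU S (u i)) (hB : ∀ i, u i ∈ BB k σ)
    (c : ι → G k σ) (hc : ∀ i, c i ∈ FF k σ) (hsum : ∑ i, c i * u i = 0) (i0 : ι) :
    ∑ i with u i / u i0 ∈ FF k σ, c i * u i = 0 := by
  have hu0 : ∀ i, u i ≠ 0 := fun i => (hu i).ne_zero
  let st : Setoid ι := ⟨fun i j => u i / u j ∈ FF k σ,
    ⟨fun i => by rw [div_self (hu0 i)]; exact (FF k σ).one_mem,
     fun {i j} h => by rw [← inv_div]; exact (FF k σ).inv_mem h,
     fun {i j l} h1 h2 => by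
      rw [← div_mul_div_cancel₀ (hu0 j)]; exact (FF k σ).mul_mem h1 h2⟩⟩
  have hs : ∀ i j : ι, (Quotient.mk st i = Quotient.mk st j) ↔ u i / u j ∈ FF k σ :=
    fun i j => Quotient.eq
  have hft : Fintype (Quotient st) := Fintype.ofFinite _
  have hrp : ∀ i : ι, u i / u (Quotient.mk st i).out ∈ FF k σ := by
    intro i
    rw [← hs, Quotient.out_eq]
  let C : Quotient st → G k σ := fun q => ∑ i with Quotient.mk st i = q,
    c i * (u i / u (Quotient.mk st i).out)
  have hCq : ∀ q : Quotient st, C q * u q.out = ∑ i with Quotient.mk st i = q, c i * u i := by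
    intro q
    show (∑ i with Quotient.mk st i = q, c i * (u i / u (Quotient.mk st i).out)) * _ = _
    rw [Finset.sum_mul]
    refine Finset.sum_congr rfl fun i hi => ?_
    rw [Finset.mem_filter] at hi
    obtain ⟨-, rfl⟩ := hi
    rw [mul_assoc]
    congr 1
    exact div_mul_cancel₀ _ (hu0 _)
  have hCF : ∀ q, C q ∈ FF k σ := fun q => (FF k σ).sum_mem fun i _ =>
    (FF k σ).mul_mem (hc i) (hrp i)
  have h1 := sui hS (fun q : Quotient st => u q.out) (fun q => hu _) (fun q => hB _) (by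
    intro q q' hqq h
    apply hqq
    rw [← hs, Quotient.out_eq, Quotient.out_eq] at h
    exact h) C hCF (by
    rw [← hsum, ← Finset.sum_fiberwise (s := Finset.univ) (g := Quotient.mk st)]
    exact Finset.sum_congr rfl fun q _ => hCq q) (Quotient.mk st i0)
  have h2 := hCq (Quotient.mk st i0)
  rw [h1, zero_mul] at h2
  rw [h2]
  refine Finset.sum_congr ?_ fun _ _ => rfl
  ext i
  simp only [Finset.mem_filter, Finset.mem_univ, true_and]
  rw [hs]

/-- `x` is proportional to a sum of `r` vectors of small height multiplied by units -/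
def Short (S : Finset (Pl k)) {ν : ℕ} (r : ℕ) (B δ : ℝ) (x : Fin ν → k) : Prop :=
  ∃ (lam : k) (u : Fin r → k) (c : Fin r → Fin ν → k), lam ≠ 0 ∧ (∀ j, IsSU S (u j)) ∧
    (∀ j y, logHeight₁ (c j y) ≤ δ * logHeight x + B) ∧ ∀ y, lam * x y = ∑ j, u j * c j y

/-- the statement for sums of `r` terms -/
def PP (S : Finset (Pl k)) {g q w ν n : ℕ} (Gp : Fin g → MvPolynomial (Fin ν) k)
    (F : Fin q → Fin w → MvPolynomial (Fin ν) k) (d : Fin q → Fin w → ℕ) (J0 : Fin n → Fin ν)
    (B ε : ℝ) (r : ℕ) : Prop :=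
  ∃ (δ : ℝ) (Ψ : MvPolynomial (Fin n) k) (e : ℕ) (C : ℝ), 0 < δ ∧ Ψ ≠ 0 ∧ Ψ.IsHomogeneous e ∧
    ∀ x : Fin ν → k, x ≠ 0 → (∀ a, eval x (Gp a) = 0) → Short S r B δ x →
      eval (fun i => x (J0 i)) Ψ ≠ 0 → ∀ A : Matrix (Fin ν) (Fin n) k, IsTB Gp x A →
      prox S F d x + hK x A ≤ ε * logHeight x + C

theorem step_PP (S : Finset (Pl k)) (hS : ∀ w : InfinitePlace k, Sum.inl w ∈ S)
    {g q w ν n sc : ℕ} (hν : ν = n + sc)
    (Gp : Fin g → MvPolynomial (Fin ν) k) (e : Fin g → ℕ) (hGh : ∀ a, (Gp a).IsHomogeneous (e a))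
    (F : Fin q → Fin w → MvPolynomial (Fin ν) k) (d : Fin q → Fin w → ℕ)
    (hFh : ∀ i j, (F i j).IsHomogeneous (d i j))
    (hnc : ∀ (L : Type) [Field L] (φ : k →+* L), NCh φ sc Gp F) (J0 : Fin n → Fin ν)
    (B : ℝ) (ε : ℝ) (hε : 0 < ε) (r : ℕ)
    (ih : ∀ r' < r, PP S Gp F d J0 B ε r') : PP S Gp F d J0 B ε r := by
  classical
  by_contra hcon
  unfold PP at hcon
  push Not at hcon
  have hcount := countable_poly k n
  obtain ⟨f, hf⟩ := exists_surjective_nat (MvPolynomial (Fin n) k)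
  -- products of forms
  have hΨ : ∀ t : ℕ, ∃ (Ψ : MvPolynomial (Fin n) k) (l : ℕ), Ψ ≠ 0 ∧ Ψ.IsHomogeneous l ∧
      ∀ i ≤ t, f i ≠ 0 → (∃ l, (f i).IsHomogeneous l) → f i ∣ Ψ := by
    intro t
    induction t with
    | zero =>
      by_cases h : f 0 ≠ 0 ∧ ∃ l, (f 0).IsHomogeneous l
      · obtain ⟨h1, l, h2⟩ := h
        refine ⟨f 0, l, h1, h2, fun i hi _ _ => ?_⟩
        rw [Nat.le_zero.1 hi]
      · refine ⟨1, 0, one_ne_zero, isHomogeneous_one _ _, fun i hi h1 h2 => ?_⟩
        rw [Nat.le_zero.1 hi] at h1 h2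
        exact absurd ⟨h1, h2⟩ h
    | succ t iht =>
      obtain ⟨Ψ, l, h1, h2, h3⟩ := iht
      by_cases h : f (t + 1) ≠ 0 ∧ ∃ l, (f (t + 1)).IsHomogeneous l
      · obtain ⟨h4, l', h5⟩ := h
        refine ⟨Ψ * f (t + 1), l + l', mul_ne_zero h1 h4, h2.mul h5, fun i hi h6 h7 => ?_⟩
        rcases Nat.lt_or_ge i (t + 1) with h8 | h8
        · exact (h3 i (by omega) h6 h7).mul_right _
        · have : i = t + 1 := by omega
          rw [this]
          exact dvd_mul_left _ _
      · refine ⟨Ψ, l, h1, h2, fun i hi h6 h7 => ?_⟩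
        rcases Nat.lt_or_ge i (t + 1) with h8 | h8
        · exact h3 i (by omega) h6 h7
        · have : i = t + 1 := by omega
          rw [this] at h6 h7
          exact absurd ⟨h6, h7⟩ h
  choose Ψ kΨ hΨ0 hΨh hΨd using hΨ
  choose x hx0 hGx hsh hΨx A hTB hviol using fun t : ℕ =>
    hcon (1 / ((t : ℝ) + 1)) (Ψ t) (kΨ t) t (by positivity) (hΨ0 t) (hΨh t)
  choose lam0 u0 c hlam0 hu0 hc hx using hsh
  -- at least one term
  obtain ⟨r1, rfl⟩ : ∃ r1, r = r1 + 1 := by
    rcases r with _ | r1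
    · exfalso
      apply hx0 0
      funext y
      have h3 := hx 0 y
      rw [Finset.univ_eq_empty, Finset.sum_empty] at h3
      exact (mul_eq_zero.1 h3).resolve_left (hlam0 0)
    · exact ⟨r1, rfl⟩
  have hu00 : ∀ t j, u0 t j ≠ 0 := fun t j => (hu0 t j).1
  obtain ⟨uq, huq⟩ : ∃ uq : Fin (r1 + 1) → ℕ → k, uq = fun j t => u0 t j / u0 t 0 := ⟨_, rfl⟩
  have huqS : ∀ j t, IsSU S (uq j t) := by
    intro j t
    rw [huq]
    exact (hu0 t j).div (hu0 t 0)
  obtain ⟨lm, hlm⟩ : ∃ lm : ℕ → k, lm = fun t => lam0 t / u0 t 0 := ⟨_, rfl⟩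
  have hlm0 : ∀ t, lm t ≠ 0 := by
    intro t
    rw [hlm]
    exact div_ne_zero (hlam0 t) (hu00 t 0)
  have hxq : ∀ t y, lm t * x t y = ∑ j, uq j t * c t j y := by
    intro t y
    rw [hlm, huq]
    simp only
    rw [div_mul_eq_mul_div, hx, Finset.sum_div]
    exact Finset.sum_congr rfl fun j _ => by ring
  -- the scale
  obtain ⟨lh, hlh⟩ : ∃ lh : ℕ → ℝ, lh = fun t => logHeight (x t) + Real.log ((t : ℝ) + 1) :=
    ⟨_, rfl⟩
  obtain ⟨L, hL⟩ : ∃ L : ℕ → ℝ, L = fun t => lh t + ∑ j, logHeight₁ (uq j t) := ⟨_, rfl⟩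
  have hH0 : ∀ t, 0 ≤ logHeight (x t) := fun t => logHeight_nonneg _
  have hlt0 : ∀ t : ℕ, 0 ≤ Real.log ((t : ℝ) + 1) := fun t =>
    Real.log_nonneg (by have : (0 : ℝ) ≤ t := Nat.cast_nonneg t; linarith)
  have hes0 : ∀ t, 0 ≤ ∑ j, logHeight₁ (uq j t) := fun t =>
    Finset.sum_nonneg fun j _ => zero_le_logHeight₁ _
  have hlim : Tendsto L atTop atTop := by
    have h1 : Tendsto (fun t : ℕ => Real.log ((t : ℝ) + 1)) atTop atTop :=
      Real.tendsto_log_atTop.comp (tendsto_atTop_add_const_right _ _ tendsto_natCast_atTop_atTop)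
    refine tendsto_atTop_mono (fun t => ?_) h1
    have h2 := hH0 t
    have h3 := hes0 t
    rw [hL, hlh]
    simp only
    linarith
  have hLt : ∀ t, L t = logHeight (x t) + Real.log ((t : ℝ) + 1) + ∑ j, logHeight₁ (uq j t) := by
    intro t
    rw [hL, hlh]
  let σ : Sc := ⟨hyperfilter ℕ, L, hlim.mono_left Nat.hyperfilter_le_atTop⟩
  have hσ : (σ.𝒰 : Filter ℕ) ≤ atTop := Nat.hyperfilter_le_atTop
  have hσL : σ.L = L := rfl
  -- the germs
  obtain ⟨U, hU⟩ : ∃ U : Fin (r1 + 1) → G k σ, U = fun j => gm σ (uq j) := ⟨_, rfl⟩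
  have hUrep : ∀ j, ∀ᶠ t in (σ.𝒰 : Filter ℕ), rep (U j) t = uq j t := by
    intro j
    rw [hU]
    exact rep_gm _
  have hUS : ∀ j, SU S (U j) := by
    intro j
    filter_upwards [hUrep j] with t ht
    rw [ht]
    exact huqS j t
  have hU0 : ∀ j, U j ≠ 0 := fun j => (hUS j).ne_zero
  have hUB : ∀ j, U j ∈ BB k σ := by
    intro j
    rw [mem_BB]
    refine ⟨1, ?_⟩
    filter_upwards [hUrep j] with t ht
    rw [ht, one_mul, hσL, hLt]
    have h1 := Finset.single_le_sum (f := fun j => logHeight₁ (uq j t))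
      (fun j _ => zero_le_logHeight₁ _) (Finset.mem_univ j)
    have h2 := hH0 t
    have h3 := hlt0 t
    linarith
  have hcF : ∀ j y, gm σ (fun t => c t j y) ∈ FF k σ := by
    intro j y
    rw [gm_mem_FF]
    intro ε' hε'
    have h1 : ∀ᶠ t : ℕ in atTop, B ≤ ε' / 2 * L t := by
      filter_upwards [hlim.eventually_ge_atTop (B / (ε' / 2))] with t ht
      rw [div_le_iff₀ (by positivity)] at ht
      linarith
    have h2 : ∀ᶠ t : ℕ in atTop, 1 / ((t : ℝ) + 1) ≤ ε' / 2 := by
      have h3 : Tendsto (fun t : ℕ => 1 / ((t : ℝ) + 1)) atTop (𝓝 0) :=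
        tendsto_one_div_add_atTop_nhds_zero_nat
      exact (h3.eventually (gt_mem_nhds (show (0 : ℝ) < ε' / 2 by positivity))).mono
        fun t ht => ht.le
    filter_upwards [hσ h1, hσ h2] with t h3 h4
    have h5 : logHeight (x t) ≤ L t := by
      rw [hLt]
      have := hlt0 t
      have := hes0 t
      linarith
    have h6 : 1 / ((t : ℝ) + 1) * logHeight (x t) ≤ ε' / 2 * L t :=
      mul_le_mul h4 h5 (hH0 t) (by positivity)
    have h7 := hc t j y
    rw [hσL]
    linarith
  obtain ⟨V, hV⟩ : ∃ V : Fin (r1 + 1) → Fin ν → FF k σ, V = fun j y => ⟨_, hcF j y⟩ := ⟨_, rfl⟩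
  have hVc : ∀ j y, (V j y : G k σ) = gm σ (fun t => c t j y) := by
    intro j y
    rw [hV]
  obtain ⟨X, hXdef⟩ : ∃ X : Fin ν → G k σ, X = fun y => ∑ j, U j * (V j y : G k σ) := ⟨_, rfl⟩
  have hX : ∀ y, X y = ∑ j, U j * (V j y : G k σ) := fun y => by rw [hXdef]
  have hXgm : ∀ y, X y = gm σ (fun t => lm t * x t y) := by
    intro y
    rw [hX]
    have h1 : (fun t => lm t * x t y) = ∑ j, (uq j * fun t => c t j y) := by
      funext t
      rw [hxq, Finset.sum_apply]
      rfl
    rw [h1, map_sum]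
    refine Finset.sum_congr rfl fun j _ => ?_
    rw [map_mul, hVc, hU]
  have hXrep : ∀ᶠ t in (σ.𝒰 : Filter ℕ), ∀ y, rep (X y) t = lm t * x t y := by
    rw [Filter.eventually_all]
    intro y
    rw [hXgm]
    exact rep_gm _
  obtain ⟨y1, hy1⟩ : ∃ y, X y ≠ 0 := by
    by_contra hno
    push Not at hno
    have h1 : ∀ᶠ t in (σ.𝒰 : Filter ℕ), ∀ y, rep (X y) t = 0 := by
      rw [Filter.eventually_all]
      intro y
      rw [hno y]
      exact rep_zero
    obtain ⟨t, h2, h3⟩ := (h1.and hXrep).exists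
    apply hx0 t
    funext y
    have h4 := h3 y
    rw [h2 y] at h4
    exact (mul_eq_zero.1 h4.symm).resolve_left (hlm0 t)
  have hgen0 : ∀ (Φ : MvPolynomial (Fin n) k) (e : ℕ), Φ.IsHomogeneous e → Φ ≠ 0 →
      ∀ᶠ t in (σ.𝒰 : Filter ℕ), eval (fun i => x t (J0 i)) Φ ≠ 0 := by
    intro Φ e' h1 h2
    obtain ⟨i, rfl⟩ := hf Φ
    filter_upwards [hσ (eventually_ge_atTop i)] with t ht h3
    obtain ⟨Q, hQ⟩ := hΨd t i ht h2 ⟨e', h1⟩
    apply hΨx t
    rw [hQ, map_mul, h3, zero_mul]
  by_cases hcase : ∃ N : ℕ, ∀ᶠ t in (σ.𝒰 : Filter ℕ), L t ≤ ((N : ℝ) + 1) * lh t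
  · -- the main case
    obtain ⟨N, hN⟩ := hcase
    have hGX : ∀ a, aeval X (Gp a) = 0 := by
      intro a
      have h1 : aeval X (Gp a) = gm σ (fun t => aeval (fun y => lm t * x t y) (Gp a)) := by
        rw [← aeval_gm]
        congr 2
        funext y
        exact hXgm y
      rw [h1]
      have h2 : (fun t => aeval (fun y => lm t * x t y) (Gp a)) = fun _ => (0 : k) := by
        funext t
        rw [aeval_smul_hom _ _ (hGh a), aev, hGx, mul_zero]
      rw [h2]
      exact map_zero (gm σ)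
    have hgen : ∀ (Φ : MvPolynomial (Fin n) k) (e : ℕ), Φ.IsHomogeneous e → Φ ≠ 0 →
        aeval (fun i => X (J0 i)) Φ ≠ 0 := by
      intro Φ e' h1 h2
      refine ne_of_rep _ ?_
      filter_upwards [rep_aeval (fun i => X (J0 i)) Φ, hXrep, hgen0 Φ e' h1 h2] with t e1 e2 e3
      have h3 : (fun i => rep (X (J0 i)) t) = fun i => lm t * x t (J0 i) :=
        funext fun i => e2 _
      rw [e1, h3, aeval_smul_hom _ _ h1, aev]
      exact mul_ne_zero (pow_ne_zero _ (hlm0 t)) e3
    have hmin : 0 < min ε 1 := lt_min hε one_pos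
    have key := seq_ineq S hS hσ hν Gp e hGh F d hFh hnc U hUS hUB V X hX y1 hy1 hGX J0 hgen
      (min ε 1 / ((N : ℝ) + 1)) (by positivity)
    obtain ⟨t, h4, h5, h6⟩ := (key.and (hN.and hXrep)).exists
    have hXt : (fun y => rep (X y) t) = fun y => lm t * x t y := funext h6
    rw [hXt] at h4
    have hTB' : IsTB Gp (fun y => lm t * x t y) (A t) := by
      refine isTB_smul Gp e hGh (fun y => lm t * x t y) (A t) (lm t)⁻¹ (inv_ne_zero (hlm0 t)) ?_
      have h7 : (fun y => (lm t)⁻¹ * (lm t * x t y)) = x t := by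
        funext y
        rw [inv_mul_cancel_left₀ (hlm0 t)]
      rw [h7]
      exact hTB t
    have h7 := h4 (A t) hTB'
    rw [prox_smul S F d hFh (x t) _ (hlm0 t), hK_smul (x t) (A t) _ (hlm0 t)] at h7
    have h8 := hviol t
    have hN0 : (0 : ℝ) < (N : ℝ) + 1 := by positivity
    have h9 : min ε 1 / ((N : ℝ) + 1) * L t ≤ min ε 1 * lh t := by
      rw [div_mul_eq_mul_div, div_le_iff₀ hN0]
      have := mul_le_mul_of_nonneg_left h5 hmin.le
      linarith
    have h10 : min ε 1 * lh t ≤ ε * logHeight (x t) + t := by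
      rw [hlh]
      simp only
      rw [mul_add]
      have h11 : min ε 1 * logHeight (x t) ≤ ε * logHeight (x t) :=
        mul_le_mul_of_nonneg_right (min_le_left _ _) (hH0 t)
      have h12 : min ε 1 * Real.log ((t : ℝ) + 1) ≤ 1 * Real.log ((t : ℝ) + 1) :=
        mul_le_mul_of_nonneg_right (min_le_right _ _) (hlt0 t)
      have h13 : Real.log ((t : ℝ) + 1) ≤ t := by
        have h14 : (0 : ℝ) < (t : ℝ) + 1 := by positivity
        have := Real.log_le_sub_one_of_pos h14
        linarith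
      linarith
    rw [hσL] at h7
    linarith
  · -- the height of the point is small
    push Not at hcase
    have hsmall : ∀ ε' : ℝ, 0 < ε' → ∀ᶠ t in (σ.𝒰 : Filter ℕ), lh t ≤ ε' * L t := by
      intro ε' hε'
      obtain ⟨N, hN⟩ := exists_nat_ge (1 / ε')
      have hN2 : ∀ᶠ t in (σ.𝒰 : Filter ℕ), ((N : ℝ) + 1) * lh t < L t := hcase N
      filter_upwards [hN2] with t ht
      have hlh0 : 0 ≤ lh t := by
        rw [hlh]
        exact add_nonneg (hH0 t) (hlt0 t)
      have h1 : 1 / ε' * lh t ≤ L t := by nlinarith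
      rw [one_div, inv_mul_le_iff₀ hε'] at h1
      exact h1
    -- the quotients of the coordinates
    have hρ : ∀ y, X y / X y1 ∈ FF k σ := by
      intro y
      rw [mem_FF]
      intro ε' hε'
      filter_upwards [hsmall ε' hε', rep_div (X y) (X y1), hXrep] with t e1 e2 e3
      rw [e2, e3, e3, mul_div_mul_left _ _ (hlm0 t)]
      have h1 := logHeight₁_div_le (x t) y y1
      have h2 : logHeight (x t) ≤ lh t := by
        rw [hlh]
        have := hlt0 t
        simp only
        linarith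
      rw [hσL]
      linarith
    -- proportionality
    have hprop : ∀ y j0, X y1 * ∑ j with U j / U j0 ∈ FF k σ, (V j y : G k σ) * U j =
        X y * ∑ j with U j / U j0 ∈ FF k σ, (V j y1 : G k σ) * U j := by
      intro y j0
      have h1 := class_sum hS U hUS hUB
        (fun j => (V j y : G k σ) - (X y / X y1) * (V j y1 : G k σ))
        (fun j => (FF k σ).sub_mem (V j y).2 ((FF k σ).mul_mem (hρ y) (V j y1).2)) (by
          have h2 : ∀ j, ((V j y : G k σ) - (X y / X y1) * (V j y1 : G k σ)) * U j =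
              U j * (V j y : G k σ) - (X y / X y1) * (U j * (V j y1 : G k σ)) := fun j => by ring
          rw [Finset.sum_congr rfl fun j _ => h2 j, Finset.sum_sub_distrib, ← Finset.mul_sum,
            ← hX, ← hX, div_mul_cancel₀ _ hy1, sub_self]) j0
      have h2 : ∀ j, ((V j y : G k σ) - (X y / X y1) * (V j y1 : G k σ)) * U j =
          (V j y : G k σ) * U j - (X y / X y1) * ((V j y1 : G k σ) * U j) := fun j => by ring
      rw [Finset.sum_congr rfl fun j _ => h2 j, Finset.sum_sub_distrib, ← Finset.mul_sum,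
        sub_eq_zero] at h1
      rw [h1]
      field_simp
    -- a class with nonzero sum
    obtain ⟨j0, hj0⟩ : ∃ j0 : Fin (r1 + 1),
        ∑ j with U j / U j0 ∈ FF k σ, (V j y1 : G k σ) * U j ≠ 0 := by
      by_contra hno
      push Not at hno
      apply hy1
      rw [hX]
      let st : Setoid (Fin (r1 + 1)) := ⟨fun i j => U i / U j ∈ FF k σ,
        ⟨fun i => by rw [div_self (hU0 i)]; exact (FF k σ).one_mem,
         fun {i j} h => by rw [← inv_div]; exact (FF k σ).inv_mem h,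
         fun {i j l} h1 h2 => by
          rw [← div_mul_div_cancel₀ (hU0 j)]; exact (FF k σ).mul_mem h1 h2⟩⟩
      have hs : ∀ i j, (Quotient.mk st i = Quotient.mk st j) ↔ U i / U j ∈ FF k σ :=
        fun i j => Quotient.eq
      have hft : Fintype (Quotient st) := Fintype.ofFinite _
      rw [← Finset.sum_fiberwise (s := Finset.univ) (g := Quotient.mk st)]
      refine Finset.sum_eq_zero fun qq _ => ?_
      rw [← hno qq.out]
      refine Finset.sum_congr ?_ fun j _ => mul_comm _ _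
      ext j
      simp only [Finset.mem_filter, Finset.mem_univ, true_and]
      rw [← hs, Quotient.out_eq]
    obtain ⟨J1, hJ1⟩ : ∃ J1 : Finset (Fin (r1 + 1)),
      J1 = Finset.univ.filter fun j => U j / U j0 ∈ FF k σ := ⟨_, rfl⟩
    rw [← hJ1] at hj0
    obtain ⟨mu, hmu⟩ : ∃ mu : G k σ, mu = (∑ j ∈ J1, (V j y1 : G k σ) * U j) / X y1 := ⟨_, rfl⟩
    have hW : ∀ y, mu * X y = ∑ j ∈ J1, (V j y : G k σ) * U j := by
      intro y
      have h1 := hprop y j0
      rw [← hJ1] at h1
      rw [hmu, div_mul_eq_mul_div, div_eq_iff hy1, mul_comm _ (X y), ← h1, mul_comm]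
    have hmu0 : mu ≠ 0 := by
      rw [hmu]
      exact div_ne_zero hj0 hy1
    -- the class is proper
    have hcard : J1.card < r1 + 1 := by
      by_contra hge
      have h1 : J1 = Finset.univ := by
        apply Finset.eq_univ_of_card
        have := J1.card_le_univ
        rw [Fintype.card_fin] at this ⊢
        omega
      have h2 : ∀ j, U j / U j0 ∈ FF k σ := by
        intro j
        have h3 : j ∈ J1 := by rw [h1]; exact Finset.mem_univ _
        rw [hJ1] at h3
        exact (Finset.mem_filter.1 h3).2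
      have hU00 : U 0 = 1 := by
        have h3 : uq 0 = 1 := by
          rw [huq]
          funext t
          exact div_self (hu00 t 0)
        rw [hU]
        simp only
        rw [h3, map_one]
      have h3 : ∀ j, U j ∈ FF k σ := by
        intro j
        have h4 := (FF k σ).div_mem (h2 j) (h2 0)
        rw [hU00] at h4
        have h5 : U j / U j0 / (1 / U j0) = U j := by
          have := hU0 j0
          field_simp
        rwa [h5] at h4
      have h4 : Sm σ fun t => ∑ j, logHeight₁ (rep (U j) t) := Sm.sum _ fun j _ =>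
        (mem_FF _).1 (h3 j)
      have h5 : ∀ᶠ t in (σ.𝒰 : Filter ℕ), ∀ j, rep (U j) t = uq j t := by
        rw [Filter.eventually_all]
        exact hUrep
      obtain ⟨t, e1, e2, e3, e4⟩ := ((hsmall (1 / 4) (by norm_num)).and
        ((h4 (1 / 4) (by norm_num)).and (h5.and (L_pos (σ := σ))))).exists
      simp only [e3] at e2
      rw [hσL] at e2 e4
      have h6 := hLt t
      have h7 : lh t = logHeight (x t) + Real.log ((t : ℝ) + 1) := by rw [hlh]
      linarith
    -- the shorter sum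
    obtain ⟨δ', Ψ', k', C', hδ', hΨ'0, hΨ'h, hPP⟩ := ih J1.card hcard
    have hrep : ∀ᶠ t in (σ.𝒰 : Filter ℕ), ∀ y, (rep mu t * lm t) * x t y =
        ∑ j ∈ J1, uq j t * c t j y := by
      rw [Filter.eventually_all]
      intro y
      have h1 : ∀ᶠ t in (σ.𝒰 : Filter ℕ), ∀ j ∈ J1, rep ((V j y : G k σ) * U j) t =
          uq j t * c t j y := by
        rw [Filter.eventually_all_finset]
        intro j _
        have h2 : ∀ᶠ t in (σ.𝒰 : Filter ℕ), rep (V j y : G k σ) t = c t j y := by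
          rw [hVc]
          exact rep_gm _
        filter_upwards [rep_mul (V j y : G k σ) (U j), hUrep j, h2] with t e1 e2 e3
        rw [e1, e2, e3, mul_comm]
      filter_upwards [rep_mul mu (X y), hXrep, rep_sum J1 fun j => (V j y : G k σ) * U j, h1]
        with t e1 e2 e3 e4
      rw [hW, e3, Finset.sum_congr rfl e4, e2] at e1
      rw [e1]
      ring
    have hδt : ∀ᶠ t : ℕ in (σ.𝒰 : Filter ℕ), 1 / ((t : ℝ) + 1) ≤ δ' := by
      apply hσ
      have h3 : Tendsto (fun t : ℕ => 1 / ((t : ℝ) + 1)) atTop (𝓝 0) :=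
        tendsto_one_div_add_atTop_nhds_zero_nat
      exact (h3.eventually (gt_mem_nhds hδ')).mono fun t ht => ht.le
    have hCt : ∀ᶠ t : ℕ in (σ.𝒰 : Filter ℕ), C' ≤ t :=
      hσ (tendsto_natCast_atTop_atTop.eventually_ge_atTop C')
    obtain ⟨t, h1, h2, h3, h4, h5⟩ := (hrep.and ((rep_ne mu hmu0).and (hδt.and (hCt.and
      (hgen0 Ψ' k' hΨ'h hΨ'0))))).exists
    have h6 : Short S J1.card B δ' (x t) := by
      let eJ := (J1.equivFin).symm
      refine ⟨rep mu t * lm t, fun i => uq (eJ i) t, fun i => c t (eJ i),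
        mul_ne_zero h2 (hlm0 t), fun i => huqS _ t, ?_, ?_⟩
      · intro i y
        refine (hc t (eJ i) y).trans ?_
        have := mul_le_mul_of_nonneg_right h3 (hH0 t)
        linarith
      · intro y
        rw [h1 y, ← Finset.sum_coe_sort J1 (fun j => uq j t * c t j y),
          ← Equiv.sum_comp eJ]
    have h7 := hPP (x t) (hx0 t) (hGx t) h6 h5 (A t) (hTB t)
    have h8 := hviol t
    linarith

/-- the statement for all numbers of terms -/
theorem all_PP (S : Finset (Pl k)) (hS : ∀ w : InfinitePlace k, Sum.inl w ∈ S)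
    {g q w ν n sc : ℕ} (hν : ν = n + sc)
    (Gp : Fin g → MvPolynomial (Fin ν) k) (e : Fin g → ℕ) (hGh : ∀ a, (Gp a).IsHomogeneous (e a))
    (F : Fin q → Fin w → MvPolynomial (Fin ν) k) (d : Fin q → Fin w → ℕ)
    (hFh : ∀ i j, (F i j).IsHomogeneous (d i j))
    (hnc : ∀ (L : Type) [Field L] (φ : k →+* L), NCh φ sc Gp F) (J0 : Fin n → Fin ν)
    (B : ℝ) (ε : ℝ) (hε : 0 < ε) (r : ℕ) : PP S Gp F d J0 B ε r := by
  induction r using Nat.strong_induction_on with
  | _ r ih => exact step_PP S hS hν Gp e hGh F d hFh hnc J0 B ε hε r ih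

end Pool.Agent.K1H83.VN
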