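import Pool.Agent.K1H83.VN.Main

/-!
The proximity function for a larger set of places.
-/

set_option autoImplicit false
set_option linter.unusedSectionVars false

namespace Pool.Agent.K1H83.VN

open NumberField IsDedekindDomain Height MvPolynomial
open Pool.Agent.W180.OP (Pl av wt fv fv_support_finite wt_nonneg)

section Field

variable {k : Type} [Field k]

/-- the value of a form -/
theorem abs_eval_le (f : AbsoluteValue k ℝ) {ν : ℕ} (P : MvPolynomial (Fin ν) k) {d : ℕ}
    (hP : P.IsHomogeneous d) (x : Fin ν → k) :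
    f (eval x P) ≤ (∑ m ∈ P.support, f (coeff m P)) * nm f x ^ d := by
  rw [eval_eq', Finset.sum_mul]
  refine (f.sum_le _ _).trans (Finset.sum_le_sum fun m hm => ?_)
  rw [map_mul, map_prod]
  refine mul_le_mul_of_nonneg_left ?_ (f.nonneg _)
  have h1 : ∑ i, m i = d := by
    have h2 := hP (mem_support_iff.1 hm)
    rw [Finsupp.weight_apply, Finsupp.sum_fintype _ _ (by simp)] at h2
    simpa using h2
  rw [← h1, ← Finset.prod_pow_eq_pow_sum]
  refine Finset.prod_le_prod (fun i _ => f.nonneg _) fun i _ => ?_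
  rw [map_pow]
  exact pow_le_pow_left₀ (f.nonneg _) (le_nm f x i) _

end Field

variable {k : Type} [Field k] [NumberField k]

/-- local heights are bounded below -/
theorem lam_ge (f : AbsoluteValue k ℝ) {ν w : ℕ} (F : Fin w → MvPolynomial (Fin ν) k)
    (d : Fin w → ℕ) (hF : ∀ j, (F j).IsHomogeneous (d j)) :
    ∃ C : ℝ, 0 ≤ C ∧ ∀ x : Fin ν → k, x ≠ 0 → -C ≤ lam f F d x := by
  obtain ⟨M, hM⟩ : ∃ M : ℝ, M = 1 + ∑ j, ∑ m ∈ (F j).support, f (coeff m (F j)) := ⟨_, rfl⟩
  have hs0 : ∀ j, 0 ≤ ∑ m ∈ (F j).support, f (coeff m (F j)) := fun j =>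
    Finset.sum_nonneg fun m _ => f.nonneg _
  have hM1 : 1 ≤ M := by
    rw [hM]
    have := Finset.sum_nonneg fun j (_ : j ∈ Finset.univ) => hs0 j
    linarith
  refine ⟨Real.log M, Real.log_nonneg hM1, fun x hx => ?_⟩
  unfold lam
  have hn := nm_pos f hx
  have h1 : (⨆ j, f (eval x (F j)) / nm f x ^ d j) ≤ M := by
    refine Real.iSup_le (fun j => ?_) (by linarith)
    rw [div_le_iff₀ (pow_pos hn _)]
    refine (abs_eval_le f (F j) (hF j) x).trans ?_
    refine mul_le_mul_of_nonneg_right ?_ (pow_nonneg hn.le _)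
    have := Finset.single_le_sum (fun j _ => hs0 j) (Finset.mem_univ j)
    rw [hM]
    linarith
  have h0 : 0 ≤ ⨆ j, f (eval x (F j)) / nm f x ^ d j :=
    Real.iSup_nonneg fun j => div_nonneg (f.nonneg _) (pow_nonneg hn.le _)
  rcases h0.eq_or_lt with h2 | h2
  · rw [← h2, Real.log_zero, neg_zero]
    have := Real.log_nonneg hM1
    linarith
  · have := Real.log_le_log h2 h1
    linarith

/-- the proximity function for a larger set of places -/
theorem prox_mono (S S' : Finset (Pl k)) (hSS : S ⊆ S') {ν q w : ℕ}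
    (F : Fin q → Fin w → MvPolynomial (Fin ν) k) (d : Fin q → Fin w → ℕ)
    (hF : ∀ i j, (F i j).IsHomogeneous (d i j)) :
    ∃ C : ℝ, ∀ x : Fin ν → k, x ≠ 0 → prox S F d x ≤ prox S' F d x + C := by
  classical
  choose C hC0 hC using fun (v : Pl k) (i : Fin q) => lam_ge (av v) (F i) (d i) (hF i)
  refine ⟨∑ v ∈ S', wt v * ∑ i, C v i, fun x hx => ?_⟩
  unfold prox
  rw [← Finset.sum_add_distrib]
  have h1 : ∀ v, 0 ≤ wt v * ∑ i, lam (av v) (F i) (d i) x + wt v * ∑ i, C v i := by
    intro v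
    rw [← mul_add, ← Finset.sum_add_distrib]
    refine mul_nonneg (wt_nonneg v) (Finset.sum_nonneg fun i _ => ?_)
    have := hC v i x hx
    linarith
  calc ∑ v ∈ S, wt v * ∑ i, lam (av v) (F i) (d i) x
      ≤ ∑ v ∈ S, (wt v * ∑ i, lam (av v) (F i) (d i) x + wt v * ∑ i, C v i) := by
        refine Finset.sum_le_sum fun v _ => ?_
        have := mul_nonneg (wt_nonneg v) (Finset.sum_nonneg fun i (_ : i ∈ Finset.univ) => hC0 v i)
        linarith
    _ ≤ ∑ v ∈ S', (wt v * ∑ i, lam (av v) (F i) (d i) x + wt v * ∑ i, C v i) :=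
        Finset.sum_le_sum_of_subset_of_nonneg hSS fun v _ _ => h1 v

end Pool.Agent.K1H83.VN
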