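import Pool.Agent.K1H83.VN.Unit

/-!
The subspace theorem for germs, with moving coefficients.
-/

set_option autoImplicit false
set_option linter.unusedSectionVars false

namespace Pool.Agent.K1H83.VN

open NumberField IsDedekindDomain Height Filter Topology
open Pool.Agent.W180.OP (Pl av wt fv fv_support_finite wt_nonneg)

/-! ## a growth argument -/

theorem growth (f : ℕ → ℕ) (N : ℕ) (h0 : ∀ r, 0 < f r) (hN : ∀ r, f r ≤ (r + 1) ^ N)
    (η : ℝ) (hη : 0 < η) : ∃ r, (f (r + 1) : ℝ) ≤ (1 + η) * f r := by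
  by_contra h
  push Not at h
  have h1 : ∀ r, (1 + η) ^ r ≤ (f r : ℝ) := by
    intro r
    induction r with
    | zero =>
      have h00 := h0 0
      rw [pow_zero]
      exact_mod_cast h00
    | succ r ih =>
      calc (1 + η) ^ (r + 1) = (1 + η) * (1 + η) ^ r := by ring
        _ ≤ (1 + η) * f r := by gcongr
        _ ≤ f (r + 1) := (h r).le
  have h2 := tendsto_pow_const_div_const_pow_of_one_lt N (show (1 : ℝ) < 1 + η by linarith)
  have h3 := (tendsto_order.1 h2).2 (1 / (1 + η)) (by positivity)
  obtain ⟨n0, hn0⟩ := eventually_atTop.1 h3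
  have h4 := hn0 (n0 + 1) (by omega)
  have h5 : (0 : ℝ) < (1 + η) ^ (n0 + 1) := by positivity
  rw [div_lt_div_iff₀ h5 (by positivity)] at h4
  have h6 := h1 n0
  have h7 : (f n0 : ℝ) ≤ ((n0 : ℝ) + 1) ^ N := by exact_mod_cast hN n0
  have h8 : (1 + η) ^ (n0 + 1) ≤ ((n0 : ℝ) + 1) ^ N * (1 + η) := by
    rw [pow_succ]
    gcongr
    linarith
  push_cast at h4
  linarith

/-! ## the spaces of Steinmetz -/

section W
variable (k : Type) [Field k] {K : Type} [Field K] [Algebra k K] {T : Type} [Fintype T] (a : T → K)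

/-- the monomials -/
def mon (r : ℕ) (n : T → Fin (r + 1)) : K := ∏ t, a t ^ (n t : ℕ)

/-- their span -/
noncomputable def W (r : ℕ) : Submodule k K := Submodule.span k (Set.range (mon a r))

theorem W_fin (r : ℕ) : FiniteDimensional k (W k a r) := by
  classical
  exact FiniteDimensional.span_of_finite k (Set.finite_range _)

theorem one_mem_W (r : ℕ) : (1 : K) ∈ W k a r := by
  apply Submodule.subset_span
  exact ⟨fun _ => 0, by simp [mon]⟩

theorem W_le (r : ℕ) : W k a r ≤ W k a (r + 1) := by
  unfold W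
  rw [Submodule.span_le]
  rintro _ ⟨n, rfl⟩
  apply Submodule.subset_span
  exact ⟨fun t => (n t).castSucc, by simp [mon]⟩

theorem mul_mem_W [DecidableEq T] (r : ℕ) (t : T) (x : K) (hx : x ∈ W k a r) :
    a t * x ∈ W k a (r + 1) := by
  unfold W at hx
  induction hx using Submodule.span_induction with
  | mem x hx =>
    obtain ⟨n, rfl⟩ := hx
    apply Submodule.subset_span
    refine ⟨fun s => if s = t then (n s).succ else (n s).castSucc, ?_⟩
    unfold mon
    rw [← Finset.mul_prod_erase _ _ (Finset.mem_univ t),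
      ← Finset.mul_prod_erase _ (fun s => a s ^ (n s : ℕ)) (Finset.mem_univ t), ← mul_assoc]
    congr 1
    · simp [pow_succ, mul_comm]
    · apply Finset.prod_congr rfl
      intro s hs
      simp [Finset.ne_of_mem_erase hs]
  | zero => simp
  | add x y _ _ hx hy => rw [mul_add]; exact Submodule.add_mem _ hx hy
  | smul c x _ hx => rw [mul_smul_comm]; exact Submodule.smul_mem _ _ hx

theorem finrank_W (r : ℕ) : Module.finrank k (W k a r) ≤ (r + 1) ^ Fintype.card T := by
  classical
  have h := finrank_range_le_card (R := k) (mon a r)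
  rw [Fintype.card_fun, Fintype.card_fin] at h
  exact h

theorem exists_W (η : ℝ) (hη : 0 < η) : ∃ W W' : Submodule k K, FiniteDimensional k W ∧
    FiniteDimensional k W' ∧ W ≤ W' ∧ (∀ t, ∀ x ∈ W, a t * x ∈ W') ∧
    0 < Module.finrank k W ∧ (Module.finrank k W' : ℝ) ≤ (1 + η) * Module.finrank k W := by
  classical
  have hpos : ∀ r, 0 < Module.finrank k (W k a r) := by
    intro r
    have := W_fin k a r
    rw [Module.finrank_pos_iff_exists_ne_zero]
    refine ⟨⟨1, one_mem_W k a r⟩, fun h => ?_⟩
    exact one_ne_zero (congrArg Subtype.val h)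
  obtain ⟨r, hr⟩ := growth (fun r => Module.finrank k (W k a r)) (Fintype.card T) hpos
    (finrank_W k a) η hη
  exact ⟨W k a r, W k a (r + 1), W_fin k a r, W_fin k a (r + 1), W_le k a r,
    fun t x hx => mul_mem_W k a r t x hx, hpos r, hr⟩

end W

/-! ## the exchange -/

theorem extend {k : Type} [Field k] {G : Type} [AddCommGroup G] [Module k G] {α β : Type}
    [Fintype α] [Fintype β] (u : α → G) (y : β → G) (hu : LinearIndependent k u)
    (hy : LinearIndependent k y) (hm : ∀ i, u i ∈ Submodule.span k (Set.range y)) (e : ℕ)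
    (he : e = Fintype.card β - Fintype.card α) :
    ∃ g : Fin e → G, (∀ l, g l ∈ Set.range y) ∧
      LinearIndependent k (Sum.elim u g) ∧ Fintype.card α ≤ Fintype.card β := by
  classical
  have hus : LinearIndepOn k id (Set.range u) := hu.linearIndepOn_id
  obtain ⟨B, hBt, hsB, htB, hB⟩ := exists_linearIndepOn_id_extension hus
    (Set.subset_union_left : Set.range u ⊆ Set.range u ∪ Set.range y)
  have hfin : B.Finite := ((Set.finite_range u).union (Set.finite_range y)).subset hBt
  have : Fintype B := hfin.fintype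
  have hspan : Submodule.span k B = Submodule.span k (Set.range y) := by
    apply le_antisymm
    · rw [Submodule.span_le]
      intro x hx
      rcases hBt hx with h | h
      · obtain ⟨i, rfl⟩ := h
        exact hm i
      · exact Submodule.subset_span h
    · rw [Submodule.span_le]
      exact Set.subset_union_right.trans htB
  have hcard : B.toFinset.card = Fintype.card β := by
    rw [← finrank_span_set_eq_card hB, hspan, finrank_span_eq_card hy]
  have hsub : Finset.univ.image u ⊆ B.toFinset := by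
    intro x hx
    obtain ⟨i, -, rfl⟩ := Finset.mem_image.1 hx
    rw [Set.mem_toFinset]
    exact hsB ⟨i, rfl⟩
  have hcu : (Finset.univ.image u).card = Fintype.card α := by
    rw [Finset.card_image_of_injective _ hu.injective, Finset.card_univ]
  have hle : Fintype.card α ≤ Fintype.card β := by
    rw [← hcard, ← hcu]; exact Finset.card_le_card hsub
  set R := B.toFinset \ Finset.univ.image u with hR
  have hRc : R.card = e := by
    rw [hR, Finset.card_sdiff_of_subset hsub, hcard, hcu, he]
  let en := R.equivFinOfCardEq hRc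
  have hmemR : ∀ l, (en.symm l : G) ∈ B ∧ (en.symm l : G) ∉ Set.range u := by
    intro l
    have this := Finset.mem_sdiff.1 (show ((en.symm l : R) : G) ∈
      B.toFinset \ Finset.univ.image u from (en.symm l).2)
    rw [Set.mem_toFinset] at this
    refine ⟨this.1, fun h => this.2 ?_⟩
    obtain ⟨i, hi⟩ := h
    exact Finset.mem_image.2 ⟨i, Finset.mem_univ _, hi⟩
  refine ⟨fun l => (en.symm l : G), ?_, ?_, hle⟩
  · intro l
    rcases hBt (hmemR l).1 with h | h
    · exact absurd h (hmemR l).2
    · exact h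
  · let F : α ⊕ Fin e → B :=
      Sum.elim (fun i => ⟨u i, hsB ⟨i, rfl⟩⟩) (fun l => ⟨(en.symm l : G), (hmemR l).1⟩)
    have hF : Function.Injective F := by
      rintro (i | l) (j | l') h
      · have := congrArg Subtype.val h
        exact congrArg Sum.inl (hu.injective this)
      · have := congrArg Subtype.val h
        exact absurd ⟨i, this⟩ (hmemR l').2
      · have := congrArg Subtype.val h
        exact absurd ⟨j, this.symm⟩ (hmemR l).2
      · have := congrArg Subtype.val h
        exact congrArg Sum.inr (en.symm.injective (Subtype.ext this))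
    have h2 : LinearIndependent k (fun x : B => (x : G)) := hB
    have h3 := h2.comp F hF
    have h4 : (fun x : B => (x : G)) ∘ F = Sum.elim u fun l => (en.symm l : G) := by
      funext x
      rcases x with i | l <;> rfl
    rwa [h4] at h3

/-! ## the subspace theorem -/

variable {k : Type} [Field k] [NumberField k] {σ : Sc}

theorem germ_sub2 (S : Finset (Pl k)) (hS : ∀ w : InfinitePlace k, Sum.inl w ∈ S) {ι κ : Type}
    [Fintype ι] [Nonempty ι] [Fintype κ] (z : ι → G k σ) (hz : LinearIndependent k z)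
    (hB : ∀ i, z i ∈ BB k σ) (y : Pl k → κ → G k σ)
    (hy : ∀ v ∈ S, LinearIndependent k (y v))
    (hm : ∀ v ∈ S, ∀ i, y v i ∈ Submodule.span k (Set.range z))
    (hc : Fintype.card κ = Fintype.card ι) :
    Sm σ fun t => -(∑ v ∈ S, wt v * ∑ a, lv v (y v a) t) -
      Fintype.card ι * ho S (fun j => rep (z j) t) := by
  classical
  let e : κ ≃ ι := Fintype.equivOfCardEq hc
  have h0 : ∀ v, ∃ B : ι → ι → k, v ∈ S → ∀ a, y v (e.symm a) = ∑ j, B a j • z j := by
    intro v
    by_cases hv : v ∈ S
    · have h1 : ∀ a, ∃ c : ι → k, ∑ j, c j • z j = y v (e.symm a) := fun a =>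
        (Submodule.mem_span_range_iff_exists_fun k).1 (hm v hv _)
      choose B hB using h1
      exact ⟨B, fun _ a => (hB a).symm⟩
    · exact ⟨fun _ _ => 0, fun h => absurd h hv⟩
  choose B hB' using h0
  have hdet : ∀ v ∈ S, (Matrix.of (B v)).det ≠ 0 := by
    intro v hv h
    obtain ⟨c, hc0, h1⟩ := Matrix.exists_vecMul_eq_zero_iff.2 h
    apply hc0
    have h2 : ∑ a, c a • y v (e.symm a) = 0 := by
      rw [Finset.sum_congr rfl fun a _ => by rw [hB' v hv a, Finset.smul_sum], Finset.sum_comm]
      refine Finset.sum_eq_zero fun j _ => ?_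
      simp only [smul_smul]
      rw [← Finset.sum_smul]
      have h3 : ∑ a, c a * B v a j = 0 := congrFun h1 j
      rw [h3, zero_smul]
    funext a
    exact Fintype.linearIndependent_iff.1
      ((linearIndependent_equiv e.symm).2 (hy v hv)) c h2 a
  refine (germ_sub' S hS z hz (BB_height z hB) B hdet).mono ?_
  have h1 : ∀ᶠ t in (σ.𝒰 : Filter ℕ), ∀ v ∈ S, ∀ a,
      rep (y v (e.symm a)) t = ∑ j, B v a j * rep (z j) t := by
    rw [Filter.eventually_all_finset]
    intro v hv
    rw [Filter.eventually_all]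
    intro a
    have h2 : ∀ᶠ t in (σ.𝒰 : Filter ℕ), ∀ j, rep (B v a j • z j) t = B v a j * rep (z j) t := by
      rw [Filter.eventually_all]
      exact fun j => rep_smul _ _
    filter_upwards [rep_sum (σ := σ) Finset.univ fun j => B v a j • z j, h2] with t h3 h4
    rw [hB' v hv a, h3]
    exact Finset.sum_congr rfl fun j _ => h4 j
  filter_upwards [h1] with t h2
  have h3 : ∀ v ∈ S, wt v * ∑ a, lv v (y v a) t =
      wt v * ∑ a, Real.log (av v (∑ j, B v a j * rep (z j) t)) := by
    intro v hv
    congr 1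
    rw [← e.symm.sum_comp fun a => lv v (y v a) t]
    refine Finset.sum_congr rfl fun a _ => ?_
    rw [← h2 v hv a]
    rfl
  rw [Finset.sum_congr rfl h3]

theorem ho_mul_small (S : Finset (Pl k)) (hS : ∀ w : InfinitePlace k, Sum.inl w ∈ S)
    {ι κ : Type} [Fintype ι] [Fintype κ] [Nonempty κ] (b : κ → ι → G k σ) (z : ι → G k σ)
    (hb : ∀ s i, b s i ∈ FF k σ) (hb0 : ∀ s i, b s i ≠ 0) (hz0 : ∀ i, z i ≠ 0) [Nonempty ι] :
    Sm σ fun t => ho S (fun p : κ × ι => rep (b p.1 p.2 * z p.2) t) -
      ho S (fun i => rep (z i) t) := by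
  classical
  have h1 : Sm σ fun t => ∑ p : κ × ι, logHeight₁ (rep (b p.1 p.2) t) :=
    Sm.sum _ fun p _ => hb _ _
  refine h1.mono ?_
  have h2 : ∀ᶠ t in (σ.𝒰 : Filter ℕ), ∀ p : κ × ι, rep (b p.1 p.2 * z p.2) t =
      rep (b p.1 p.2) t * rep (z p.2) t ∧ rep (b p.1 p.2) t ≠ 0 ∧ rep (z p.2) t ≠ 0 := by
    rw [Filter.eventually_all]
    intro p
    filter_upwards [rep_mul (b p.1 p.2) (z p.2), rep_ne _ (hb0 p.1 p.2), rep_ne _ (hz0 p.2)]
      with t h1 h2 h3
    exact ⟨h1, h2, h3⟩
  filter_upwards [h2] with t h3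
  have p0 : κ × ι := Classical.arbitrary _
  have h4 := ho_mul_le S (fun p : κ × ι => rep (b p.1 p.2 * z p.2) t)
    (ne_of_coord (i := p0) (by
      rw [(h3 p0).1]
      exact mul_ne_zero (h3 p0).2.1 (h3 p0).2.2))
    (c1 fun p : κ × ι => rep (b p.1 p.2) t) (ne_of_one _ none rfl)
    (fun i => rep (z i) t) (ne_of_coord (i := p0.2) (h3 p0).2.2) (by
      intro v _
      refine nm_le _ (mul_nonneg (nm_nonneg _ _) (nm_nonneg _ _)) fun p => ?_
      rw [(h3 p).1, map_mul]
      exact mul_le_mul (le_nm (fv v) (c1 fun p : κ × ι => rep (b p.1 p.2) t) (some p))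
        (le_nm (fv v) (fun i => rep (z i) t) p.2) ((fv v).nonneg _) (nm_nonneg _ _))
  have h5 := ho_le_height S hS (c1 fun p : κ × ι => rep (b p.1 p.2) t) none rfl
  have h6 := logHeight_c1 fun p : κ × ι => rep (b p.1 p.2) t
  linarith

end Pool.Agent.K1H83.VN
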