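import Pool.Agent.K1H83.VN.Mov

/-!
The subspace theorem for germs, with moving coefficients, part 2.
-/

set_option autoImplicit false
set_option linter.unusedSectionVars false

namespace Pool.Agent.K1H83.VN

open NumberField IsDedekindDomain Height Filter Topology
open Pool.Agent.W180.OP (Pl av wt fv fv_support_finite wt_nonneg)

variable {k : Type} [Field k] [NumberField k] {σ : Sc}

theorem ho_bound (S : Finset (Pl k)) (hS : ∀ w : InfinitePlace k, Sum.inl w ∈ S) {ι : Type}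
    [Fintype ι] [Nonempty ι] (z : ι → G k σ) (hz0 : ∀ i, z i ≠ 0) (hB : ∀ i, z i ∈ BB k σ) :
    ∃ C : ℝ, 0 ≤ C ∧ ∀ᶠ t in (σ.𝒰 : Filter ℕ), |ho S (fun i => rep (z i) t)| ≤ C * σ.L t := by
  classical
  choose C hC using hB
  refine ⟨∑ i, |C i|, Finset.sum_nonneg fun i _ => abs_nonneg _, ?_⟩
  have h1 : ∀ᶠ t in (σ.𝒰 : Filter ℕ), ∀ i, logHeight₁ (rep (z i) t) ≤ C i * σ.L t ∧
      rep (z i) t ≠ 0 := by
    rw [Filter.eventually_all]
    intro i
    filter_upwards [hC i, rep_ne _ (hz0 i)] with t h1 h2 using ⟨h1, h2⟩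
  filter_upwards [h1, L_pos (σ := σ)] with t h2 h3
  have i0 : ι := Classical.arbitrary ι
  have hx0 : (fun i => rep (z i) t) ≠ 0 := ne_of_coord (i := i0) (h2 i0).2
  have h4 : ∑ i, logHeight₁ (rep (z i) t) ≤ (∑ i, |C i|) * σ.L t := by
    rw [Finset.sum_mul]
    refine Finset.sum_le_sum fun i _ => (h2 i).1.trans ?_
    exact mul_le_mul_of_nonneg_right (le_abs_self _) h3.le
  rw [abs_le]
  constructor
  · have h5 : ho S (fun _ : Unit => rep (z i0) t) ≤ ho S (fun i => rep (z i) t) := by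
      refine ho_le S _ (ne_of_coord (i := ()) (h2 i0).2) _ hx0 fun v _ => ?_
      rw [nm_unit]
      exact le_nm (fv v) (fun i => rep (z i) t) i0
    have h6 := (abs_le.1 (abs_ho_unit S hS _ (h2 i0).2)).1
    have h7 : logHeight₁ (rep (z i0) t) ≤ ∑ i, logHeight₁ (rep (z i) t) :=
      Finset.single_le_sum (f := fun i => logHeight₁ (rep (z i) t))
        (fun i _ => zero_le_logHeight₁ _) (Finset.mem_univ i0)
    linarith
  · have h5 : ho S (fun i => rep (z i) t) ≤ ho S (c1 fun i => rep (z i) t) := by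
      refine ho_le S _ hx0 _ (ne_of_one _ none rfl) fun v _ => ?_
      exact nm_le _ (nm_nonneg _ _) fun i => le_nm (fv v) (c1 fun i => rep (z i) t) (some i)
    have h6 := ho_le_height S hS (c1 fun i => rep (z i) t) none rfl
    have h7 := logHeight_c1 fun i => rep (z i) t
    linarith

theorem lv_bounds (S : Finset (Pl k)) {ι : Type} [Finite ι] (z : ι → G k σ) (hz0 : ∀ i, z i ≠ 0)
    (hB : ∀ i, z i ∈ BB k σ) :
    ∃ C : ℝ, 0 ≤ C ∧ ∀ᶠ t in (σ.𝒰 : Filter ℕ), ∀ v ∈ S, ∀ i, |lv v (z i) t| ≤ C * σ.L t := by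
  classical
  have := Fintype.ofFinite ι
  have h1 := fun (v : Pl k) (i : ι) => lv_bound v (z i) (hz0 i) (hB i)
  choose C hC0 hC using h1
  refine ⟨∑ v ∈ S, ∑ i, C v i, Finset.sum_nonneg fun v _ => Finset.sum_nonneg fun i _ => hC0 v i,
    ?_⟩
  rw [Filter.eventually_all_finset]
  intro v hv
  rw [Filter.eventually_all]
  intro i
  filter_upwards [hC v i, L_pos (σ := σ)] with t h2 h3
  refine h2.trans (mul_le_mul_of_nonneg_right ?_ h3.le)
  refine (Finset.single_le_sum (f := fun i => C v i) (fun i _ => hC0 v i)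
    (Finset.mem_univ i)).trans ?_
  exact Finset.single_le_sum (f := fun v => ∑ i, C v i)
    (fun v _ => Finset.sum_nonneg fun i _ => hC0 v i) hv

theorem lin_smul {k K G : Type} [Field k] [Field K] [Field G] [Algebra k K] [Algebra K G]
    [Algebra k G] [IsScalarTower k K G] {α β : Type} (b : α → K) (z : β → G)
    (hb : LinearIndependent k b) (hz : LinearIndependent K z) :
    LinearIndependent k fun p : α × β => b p.1 • z p.2 := linearIndependent_smul hb hz

theorem exists_bas {k K : Type} [Field k] [Field K] [Algebra k K] (W : Submodule k K)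
    [FiniteDimensional k W] : ∃ b : Fin (Module.finrank k W) → K, LinearIndependent k b ∧
      (∀ s, b s ∈ W) ∧ ∀ x ∈ W, x ∈ Submodule.span k (Set.range b) := by
  let bW := Module.finBasis k W
  refine ⟨fun s => (bW s : K), bW.linearIndependent.map' W.subtype (Submodule.ker_subtype _),
    fun s => (bW s).2, ?_⟩
  intro x hx
  have e1 := bW.span_eq
  have e2 : (⟨x, hx⟩ : W) ∈ Submodule.span k (Set.range bW) := by rw [e1]; trivial
  have e3 := Submodule.mem_map_of_mem (f := W.subtype) e2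
  rw [Submodule.map_span, ← Set.range_comp] at e3
  exact e3

/-- the families of Steinmetz -/
theorem fam {k K G : Type} [Field k] [Field K] [Field G] [Algebra k K] [Algebra K G]
    [Algebra k G] [IsScalarTower k K G] {ι κ V : Type} [Fintype ι] [Fintype κ] (z : ι → G)
    (hz : LinearIndependent K z) (S : Finset V) (y : V → κ → G)
    (hy : ∀ v ∈ S, LinearIndependent K (y v))
    (hm : ∀ v ∈ S, ∀ i, y v i ∈ Submodule.span K (Set.range z))
    (hc : Fintype.card κ = Fintype.card ι) (η : ℝ) (hη : 0 < η) :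
    ∃ (d d' e : ℕ) (b : Fin d → K) (b' : Fin d' → K) (g : V → Fin e → Fin d' × ι),
      1 ≤ d ∧ d ≤ d' ∧ (d' : ℝ) ≤ (1 + η) * d ∧ (e : ℝ) = (d' - d) * Fintype.card ι ∧
      Fintype.card ((Fin d × κ) ⊕ Fin e) = Fintype.card (Fin d' × ι) ∧
      (∀ s, b s ≠ 0) ∧ (∀ s, b' s ≠ 0) ∧
      LinearIndependent k (fun p : Fin d' × ι => b' p.1 • z p.2) ∧
      ∀ v ∈ S, LinearIndependent k (Sum.elim (fun p : Fin d × κ => b p.1 • y v p.2)
        fun l => b' (g v l).1 • z (g v l).2) ∧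
        ∀ p : Fin d × κ, b p.1 • y v p.2 ∈
          Submodule.span k (Set.range fun p : Fin d' × ι => b' p.1 • z p.2) := by
  classical
  have hm' : ∀ (v : S) (a : κ), ∃ c : ι → K, ∑ j, c j • z j = y v.1 a := fun v a =>
    (Submodule.mem_span_range_iff_exists_fun _).1 (hm v.1 v.2 a)
  choose m hm' using hm'
  obtain ⟨W, W', hWf, hWf', hWW, hmulW, hd0, hdd⟩ :=
    exists_W k (fun x : S × κ × ι => m x.1 x.2.1 x.2.2) η hη
  obtain ⟨b, hb, hbW, -⟩ := exists_bas W
  obtain ⟨b', hb', -, hspan'⟩ := exists_bas W'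
  have hdd' : Module.finrank k W ≤ Module.finrank k W' := Submodule.finrank_mono hWW
  have hZ : LinearIndependent k fun p : Fin (Module.finrank k W') × ι => b' p.1 • z p.2 :=
    lin_smul b' z hb' hz
  have hu : ∀ v ∈ S, LinearIndependent k fun p : Fin (Module.finrank k W) × κ =>
      b p.1 • y v p.2 := fun v hv => lin_smul b (y v) hb (hy v hv)
  have hmem : ∀ c ∈ W', ∀ j, c • z j ∈ Submodule.span k
      (Set.range fun p : Fin (Module.finrank k W') × ι => b' p.1 • z p.2) := by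
    intro c hc0 j
    have hc1 := hspan' c hc0
    clear hc0
    induction hc1 using Submodule.span_induction with
    | mem x hx =>
      obtain ⟨s, rfl⟩ := hx
      exact Submodule.subset_span ⟨(s, j), rfl⟩
    | zero => simp
    | add x y _ _ hx hy => rw [add_smul]; exact Submodule.add_mem _ hx hy
    | smul c x _ hx => rw [smul_assoc]; exact Submodule.smul_mem _ _ hx
  have hum : ∀ v ∈ S, ∀ i : Fin (Module.finrank k W) × κ, b i.1 • y v i.2 ∈ Submodule.span k
      (Set.range fun p : Fin (Module.finrank k W') × ι => b' p.1 • z p.2) := by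
    rintro v hv ⟨s, i⟩
    show b s • y v i ∈ _
    rw [← hm' ⟨v, hv⟩ i, Finset.smul_sum]
    apply Submodule.sum_mem
    intro j _
    rw [smul_smul]
    apply hmem
    rw [mul_comm]
    exact hmulW (⟨v, hv⟩, i, j) _ (hbW s)
  obtain ⟨e, he⟩ : ∃ e, e = Fintype.card (Fin (Module.finrank k W') × ι) -
    Fintype.card (Fin (Module.finrank k W) × κ) := ⟨_, rfl⟩
  have hcard : Fintype.card (Fin (Module.finrank k W) × κ) ≤
      Fintype.card (Fin (Module.finrank k W') × ι) := by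
    rw [Fintype.card_prod, Fintype.card_prod, Fintype.card_fin, Fintype.card_fin, hc]
    exact Nat.mul_le_mul_right _ hdd'
  have hext : ∀ v, ∃ g : Fin e → Fin (Module.finrank k W') × ι, v ∈ S →
      LinearIndependent k (Sum.elim (fun p : Fin (Module.finrank k W) × κ => b p.1 • y v p.2)
        fun l => b' (g l).1 • z (g l).2) := by
    intro v
    by_cases hv : v ∈ S
    · obtain ⟨g, h1, h2, -⟩ := extend _ _ (hu v hv) hZ (hum v hv) e he
      choose g' hg' using h1
      refine ⟨g', fun _ => ?_⟩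
      have h3 : (fun l => b' (g' l).1 • z (g' l).2) = g := funext hg'
      rw [h3]
      exact h2
    · by_cases h0 : e = 0
      · subst h0
        exact ⟨fun l => Fin.elim0 l, fun h => absurd h hv⟩
      · have h1 : 0 < Fintype.card (Fin (Module.finrank k W') × ι) := by omega
        have h2 : Nonempty (Fin (Module.finrank k W') × ι) := Fintype.card_pos_iff.1 h1
        exact ⟨fun _ => Classical.arbitrary _, fun h => absurd h hv⟩
  choose g hg using hext
  refine ⟨_, _, e, b, b', g, hd0, hdd', hdd, ?_, ?_, fun s => hb.ne_zero s,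
    fun s => hb'.ne_zero s, hZ, fun v hv => ⟨hg v hv, hum v hv⟩⟩
  · rw [he, Nat.cast_sub hcard, Fintype.card_prod, Fintype.card_prod, Fintype.card_fin,
      Fintype.card_fin, hc]
    push_cast
    ring
  · rw [Fintype.card_sum, Fintype.card_fin, he]
    omega

theorem mov_arith (d d' n e Wt C1 C2 L ε M s0 s1 A1 A2 hz hZ : ℝ) (hn : 0 ≤ n) (hd : 1 ≤ d)
    (hdd : d ≤ d') (hd' : d' ≤ (1 + ε / (2 * (M + 1))) * d) (he : e = (d' - d) * n)
    (hM : M = n * (C1 + Wt * C2)) (hM0 : 0 ≤ M) (hε : 0 < ε) (hL : 0 < L)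
    (h1 : -s1 ≥ -(d * s0) - A1 - A2 - Wt * (e * (C2 * L)))
    (h2 : (-s1 - d' * n * hZ) + A1 + A2 + d' * n * (hZ - hz) ≤ ε / 2 * L)
    (h3 : |hz| ≤ C1 * L) : -s0 - n * hz ≤ ε * L := by
  set f : ℝ := -s0 - n * hz with hf
  have e8 : d * f ≤ ε / 2 * L + Wt * (e * (C2 * L)) + (d' - d) * n * (C1 * L) := by
    have e9 : (d' - d) * n * hz ≤ (d' - d) * n * (C1 * L) := by
      refine mul_le_mul_of_nonneg_left ((abs_le.1 h3).2) ?_
      exact mul_nonneg (by linarith) hn
    rw [hf]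
    linarith
  have e9 : Wt * (e * (C2 * L)) + (d' - d) * n * (C1 * L) = (d' - d) * (M * L) := by
    rw [he, hM]
    ring
  have e10 : (d' - d) * (M * L) ≤ (ε / (2 * (M + 1)) * d) * (M * L) := by
    refine mul_le_mul_of_nonneg_right ?_ (by positivity)
    linarith
  have e11 : (ε / (2 * (M + 1)) * d) * (M * L) ≤ d * (ε / 2 * L) := by
    have e12 : ε / (2 * (M + 1)) * M ≤ ε / 2 := by
      rw [div_mul_eq_mul_div, div_le_div_iff₀ (by positivity) (by norm_num)]
      nlinarith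
    calc (ε / (2 * (M + 1)) * d) * (M * L) = (ε / (2 * (M + 1)) * M) * (d * L) := by ring
      _ ≤ ε / 2 * (d * L) := mul_le_mul_of_nonneg_right e12 (by positivity)
      _ = _ := by ring
  have e13 : ε / 2 * L ≤ d * (ε / 2 * L) := le_mul_of_one_le_left (by positivity) hd
  have e14 : d * f ≤ d * (ε * L) := by linarith
  exact le_of_mul_le_mul_left e14 (by linarith)

/-- the subspace theorem for germs, with moving coefficients -/
theorem mov (S : Finset (Pl k)) (hS : ∀ w : InfinitePlace k, Sum.inl w ∈ S) {ι κ : Type}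
    [Fintype ι] [Nonempty ι] [Fintype κ] (z : ι → G k σ) (hz : LinearIndependent (FF k σ) z)
    (hB : ∀ i, z i ∈ BB k σ) (y : Pl k → κ → G k σ)
    (hy : ∀ v ∈ S, LinearIndependent (FF k σ) (y v))
    (hm : ∀ v ∈ S, ∀ i, y v i ∈ Submodule.span (FF k σ) (Set.range z))
    (hc : Fintype.card κ = Fintype.card ι) :
    Sm σ fun t => -(∑ v ∈ S, wt v * ∑ a, lv v (y v a) t) -
      Fintype.card ι * ho S (fun j => rep (z j) t) := by
  classical
  have hz0 : ∀ j, z j ≠ 0 := fun j => hz.ne_zero j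
  obtain ⟨C1, hC10, hC1⟩ := ho_bound S hS z hz0 hB
  obtain ⟨C2, hC20, hC2⟩ := lv_bounds S z hz0 hB
  obtain ⟨n, hn⟩ : ∃ n : ℝ, n = (Fintype.card ι : ℝ) := ⟨_, rfl⟩
  have hn0 : 0 ≤ n := hn ▸ Nat.cast_nonneg _
  obtain ⟨Wt, hWt⟩ : ∃ Wt : ℝ, Wt = ∑ v ∈ S, wt v := ⟨_, rfl⟩
  have hWt0 : 0 ≤ Wt := hWt ▸ Finset.sum_nonneg fun v _ => wt_nonneg v
  intro ε hε
  obtain ⟨M, hM⟩ : ∃ M : ℝ, M = n * (C1 + Wt * C2) := ⟨_, rfl⟩
  have hM0 : 0 ≤ M := by rw [hM]; positivity
  obtain ⟨d, d', e, b, b', g, hd1, hdd', hdd, heR, hcd, hb0, hb0', hZ, hfam⟩ :=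
    fam (k := k) z hz S y hy hm hc (ε / (2 * (M + 1))) (by positivity)
  rw [← hn] at heR
  have hne' : Nonempty (Fin d') := ⟨⟨0, by omega⟩⟩
  -- the coefficients
  have hbF : ∀ s, (b s : G k σ) ∈ FF k σ := fun s => (b s).2
  have hbF' : ∀ s, (b' s : G k σ) ∈ FF k σ := fun s => (b' s).2
  have hb0 : ∀ s, (b s : G k σ) ≠ 0 := fun s h => hb0 s (Subtype.ext h)
  have hb0' : ∀ s, (b' s : G k σ) ≠ 0 := fun s h => hb0' s (Subtype.ext h)
  have key := germ_sub2 S hS (fun p : Fin d' × ι => (b' p.1 : G k σ) * z p.2) hZ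
    (fun p => (BB k σ).mul_mem (FF_le (hbF' _)) (hB _))
    (fun v => Sum.elim (fun p : Fin d × κ => (b p.1 : G k σ) * y v p.2)
        fun l => (b' (g v l).1 : G k σ) * z (g v l).2)
    (fun v hv => (hfam v hv).1) (by
      rintro v hv (i | l)
      · exact (hfam v hv).2 i
      · exact Submodule.subset_span ⟨g v l, rfl⟩) hcd
  -- small terms
  have hE1 : Sm σ fun t => ∑ v ∈ S, wt v * ∑ p : Fin d × κ, |lv v (b p.1 : G k σ) t| :=
    Sm.sum _ fun v _ => (Sm.sum _ fun p _ => lv_small v _ (hb0 _) (hbF _)).smul (wt_nonneg v)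
  have hE2 : Sm σ fun t => ∑ v ∈ S, wt v * (e * ∑ s, |lv v (b' s : G k σ) t|) :=
    Sm.sum _ fun v _ => (((Sm.sum _ fun p _ => lv_small v _ (hb0' _) (hbF' _))).smul
      (Nat.cast_nonneg e)).smul (wt_nonneg v)
  have hE3 := (ho_mul_small S hS (fun (s : Fin d') (_ : ι) => (b' s : G k σ)) z
    (fun s _ => hbF' s) (fun s _ => hb0' s) hz0).smul
    (c := (Fintype.card (Fin d' × ι) : ℝ)) (Nat.cast_nonneg _)
  have hsm := ((key.add hE1).add hE2).add hE3
  have hdR : (1 : ℝ) ≤ d := by exact_mod_cast hd1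
  have h1 : ∀ᶠ t in (σ.𝒰 : Filter ℕ), ∀ v ∈ S, ∀ p : Fin d × κ,
      lv v ((b p.1 : G k σ) * y v p.2) t = lv v (b p.1 : G k σ) t + lv v (y v p.2) t := by
    rw [Filter.eventually_all_finset]
    intro v hv
    rw [Filter.eventually_all]
    intro p
    exact lv_mul v _ _ (hb0 _) ((hy v hv).ne_zero _)
  have h2 : ∀ᶠ t in (σ.𝒰 : Filter ℕ), ∀ v ∈ S, ∀ l, lv v ((b' (g v l).1 : G k σ) *
      z (g v l).2) t ≤ ∑ s, |lv v (b' s : G k σ) t| + C2 * σ.L t := by
    rw [Filter.eventually_all_finset]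
    intro v hv
    rw [Filter.eventually_all]
    intro l
    filter_upwards [hC2, lv_mul v _ _ (hb0' (g v l).1) (hz0 (g v l).2)] with t e1 e2
    have e4 := (abs_le.1 (e1 v hv (g v l).2)).2
    have e5 : |lv v (b' (g v l).1 : G k σ) t| ≤ ∑ s, |lv v (b' s : G k σ) t| :=
      Finset.single_le_sum (f := fun s => |lv v (b' s : G k σ) t|)
        (fun _ _ => abs_nonneg _) (Finset.mem_univ _)
    have e6 := le_abs_self (lv v (b' (g v l).1 : G k σ) t)
    rw [e2]
    linarith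
  filter_upwards [hsm (ε / 2) (by positivity), h1, h2, hC1, L_pos (σ := σ)] with t e1 e2 e3 e4 e5
  obtain ⟨A1, hA1⟩ : ∃ A1 : ℝ, A1 = ∑ v ∈ S, wt v * ∑ p : Fin d × κ, |lv v (b p.1 : G k σ) t| :=
    ⟨_, rfl⟩
  obtain ⟨A2, hA2⟩ : ∃ A2 : ℝ, A2 = ∑ v ∈ S, wt v * (e * ∑ s, |lv v (b' s : G k σ) t|) :=
    ⟨_, rfl⟩
  have e7 : ∀ v ∈ S, wt v * ∑ a, lv v (Sum.elim (fun p : Fin d × κ => (b p.1 : G k σ) * y v p.2)
        (fun l => (b' (g v l).1 : G k σ) * z (g v l).2) a) t ≤
        d * (wt v * ∑ a, lv v (y v a) t) +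
        wt v * ∑ p : Fin d × κ, |lv v (b p.1 : G k σ) t| +
        wt v * (e * ∑ s, |lv v (b' s : G k σ) t|) + wt v * (e * (C2 * σ.L t)) := by
    intro v hv
    have e8 : ∑ a, lv v (Sum.elim (fun p : Fin d × κ => (b p.1 : G k σ) * y v p.2)
        (fun l => (b' (g v l).1 : G k σ) * z (g v l).2) a) t ≤ d * ∑ a, lv v (y v a) t +
          ∑ p : Fin d × κ, |lv v (b p.1 : G k σ) t| +
          e * ∑ s, |lv v (b' s : G k σ) t| + e * (C2 * σ.L t) := by
      rw [Fintype.sum_sum_type]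
      simp only [Sum.elim_inl, Sum.elim_inr]
      have e10 : ∑ p : Fin d × κ, lv v ((b p.1 : G k σ) * y v p.2) t =
          ∑ p : Fin d × κ, lv v (b p.1 : G k σ) t + ∑ p : Fin d × κ, lv v (y v p.2) t := by
        rw [← Finset.sum_add_distrib]
        exact Finset.sum_congr rfl fun p _ => e2 v hv p
      have e11 : ∑ p : Fin d × κ, lv v (y v p.2) t = d * ∑ a, lv v (y v a) t := by
        rw [Fintype.sum_prod_type]
        show ∑ _x : Fin d, ∑ a, lv v (y v a) t = _
        rw [Finset.sum_const, Finset.card_univ, Fintype.card_fin, nsmul_eq_mul]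
      have e12 : ∑ p : Fin d × κ, lv v (b p.1 : G k σ) t ≤
          ∑ p : Fin d × κ, |lv v (b p.1 : G k σ) t| :=
        Finset.sum_le_sum fun p _ => le_abs_self _
      have e9'' : ∑ l, lv v ((b' (g v l).1 : G k σ) * z (g v l).2) t ≤
          ∑ _a : Fin e, (∑ s, |lv v (b' s : G k σ) t| + C2 * σ.L t) :=
        Finset.sum_le_sum fun a _ => e3 v hv a
      rw [Finset.sum_const, Finset.card_univ, Fintype.card_fin, nsmul_eq_mul] at e9''
      linarith
    have e9 := mul_le_mul_of_nonneg_left e8 (wt_nonneg v)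
    refine e9.trans (le_of_eq ?_)
    ring
  have e10 := Finset.sum_le_sum e7
  rw [Finset.sum_add_distrib, Finset.sum_add_distrib, Finset.sum_add_distrib, ← Finset.mul_sum,
    ← Finset.sum_mul, ← hWt, ← hA1, ← hA2] at e10
  rw [← hA1, ← hA2] at e1
  have e11 : (Fintype.card (Fin d' × ι) : ℝ) = d' * n := by
    rw [Fintype.card_prod, Fintype.card_fin, hn]
    push_cast
    rfl
  rw [e11] at e1
  rw [← hn]
  exact mov_arith d d' n e Wt C1 C2 (σ.L t) ε M _ _ A1 A2 _ _ hn0 hdR (by exact_mod_cast hdd')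
    hdd heR hM hM0 hε e5 (by linarith) e1 e4

end Pool.Agent.K1H83.VN
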