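import Pool.Agent.K1H83.VN.Gt
import Pool.Agent.Y724.Vj.Det

/-!
The inequality at one place.
-/

set_option autoImplicit false
set_option linter.unusedSectionVars false

namespace Pool.Agent.K1H83.VN

open MvPolynomial
open Pool.Agent.Y724.Vj (core_ne core_bound)

section NC

variable {k : Type} [Field k]

/-- the value of a polynomial -/
noncomputable def ek {A : Type} [CommRing A] (φ : k →+* A) {ν : ℕ} (z : Fin ν → A)
    (P : MvPolynomial (Fin ν) k) : A := eval₂ φ z P

theorem map_ek {A A' : Type} [CommRing A] [CommRing A'] (φ : k →+* A) (ψ : A →+* A') {ν : ℕ}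
    (z : Fin ν → A) (P : MvPolynomial (Fin ν) k) :
    ψ (ek φ z P) = ek (ψ.comp φ) (fun y => ψ (z y)) P := by
  unfold ek
  rw [hom_eval₂]

/-- smoothness and normal crossings at the points with coordinates in the field `L` -/
def NCh {L : Type} [Field L] (φ : k →+* L) {ν g q w : ℕ} (s : ℕ)
    (Gp : Fin g → MvPolynomial (Fin ν) k) (F : Fin q → Fin w → MvPolynomial (Fin ν) k) : Prop :=
  ∀ z : Fin ν → L, z ≠ 0 → (∀ a, ek φ z (Gp a) = 0) →
    ∃ (K : Fin s → Fin g) (J : Fin q → Fin w),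
      LinearIndependent L (Sum.elim
        (fun a : Fin s => fun y : Fin ν => ek φ z (pderiv y (Gp (K a))))
        (fun i : {i : Fin q // ∀ j, ek φ z (F i j) = 0} => fun y : Fin ν =>
          ek φ z (pderiv y (F i.1 (J i.1)))))

theorem nc_bound {G : Type} [Field G] (A : ValuationSubring G) (φ : k →+* A) {ν n s : ℕ}
    (hν : ν = n + s) {g q w : ℕ} (Gp : Fin g → MvPolynomial (Fin ν) k)
    (F : Fin q → Fin w → MvPolynomial (Fin ν) k)
    (hnc : NCh ((IsLocalRing.residue A).comp φ) s Gp F) (ξ : Fin ν → A)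
    (hξ : ∃ y, IsUnit (ξ y))
    (hG : ∀ a, ek φ ξ (Gp a) = 0) (T : Matrix (Fin ν) (Fin n) A)
    (hGT : ∀ a c, ∑ y, ek φ ξ (pderiv y (Gp a)) * T y c = 0)
    (hFT : ∀ i j c, A.valuation ((∑ y, ek φ ξ (pderiv y (F i j)) * T y c : A) : G) ≤
      A.valuation ((ek φ ξ (F i j) : A) : G))
    (J0 : Fin n → Fin ν) (hdet : (T.submatrix J0 id).det ≠ 0) :
    ∃ jj : Fin q → Fin w, (∀ i, ek φ ξ (F i (jj i)) ≠ 0) ∧ ∀ J : Fin n → Fin ν,
      A.valuation (((T.submatrix J id).det : A) : G) ≤
        ∏ i, A.valuation ((ek φ ξ (F i (jj i)) : A) : G) := by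
  classical
  have hev : ∀ P : MvPolynomial (Fin ν) k,
      ek ((IsLocalRing.residue A).comp φ) (fun y => IsLocalRing.residue A (ξ y)) P =
      IsLocalRing.residue A (ek φ ξ P) := fun P => (map_ek _ _ _ _).symm
  obtain ⟨K, J, hli⟩ := hnc (fun y => IsLocalRing.residue A (ξ y)) (by
    obtain ⟨y, hy⟩ := hξ
    intro h0
    exact ((IsLocalRing.residue_ne_zero_iff_isUnit _).2 hy) (congrFun h0 y)) (by
    intro a
    rw [hev, hG, map_zero])
  have hU : ∀ i : Fin q, (¬ ∀ j, ek ((IsLocalRing.residue A).comp φ)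
      (fun y => IsLocalRing.residue A (ξ y)) (F i j) = 0) →
      ∃ j, IsUnit (ek φ ξ (F i j)) := by
    intro i hi
    push Not at hi
    obtain ⟨j, hj⟩ := hi
    rw [hev] at hj
    exact ⟨j, (IsLocalRing.residue_ne_zero_iff_isUnit _).1 hj⟩
  choose j' hj' using hU
  set ρ : Fin s ⊕ {i : Fin q // ∀ j, ek ((IsLocalRing.residue A).comp φ)
      (fun y => IsLocalRing.residue A (ξ y)) (F i j) = 0} →
      Fin ν → A := Sum.elim (fun a y => ek φ ξ (pderiv y (Gp (K a))))
    (fun i y => ek φ ξ (pderiv y (F i.1 (J i.1)))) with hρ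
  have hli' : LinearIndependent (IsLocalRing.ResidueField A)
      (fun x y => IsLocalRing.residue A (ρ x y)) := by
    have h1 : (fun x y => IsLocalRing.residue A (ρ x y)) = Sum.elim
        (fun a : Fin s => fun y : Fin ν => ek ((IsLocalRing.residue A).comp φ)
          (fun y => IsLocalRing.residue A (ξ y)) (pderiv y (Gp (K a))))
        (fun i : {i : Fin q // ∀ j, ek ((IsLocalRing.residue A).comp φ)
          (fun y => IsLocalRing.residue A (ξ y)) (F i j) = 0} =>
          fun y : Fin ν => ek ((IsLocalRing.residue A).comp φ)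
          (fun y => IsLocalRing.residue A (ξ y)) (pderiv y (F i.1 (J i.1)))) := by
      funext x y
      rcases x with a | i
      · simp only [Sum.elim_inl, ρ]
        rw [hev]
      · simp only [Sum.elim_inr, ρ]
        rw [hev]
    rw [h1]
    exact hli
  have hne : ∀ i : {i : Fin q // ∀ j, ek ((IsLocalRing.residue A).comp φ)
      (fun y => IsLocalRing.residue A (ξ y)) (F i j) = 0},
      ek φ ξ (F i.1 (J i.1)) ≠ 0 := by
    intro i h0
    refine core_ne A hν ρ hli' T J0 hdet (fun a c => hGT (K a) c) i fun c => ?_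
    have h2 := hFT i.1 (J i.1) c
    rw [h0, ZeroMemClass.coe_zero, map_zero] at h2
    have h3 := le_antisymm h2 zero_le
    rw [Valuation.zero_iff] at h3
    exact Subtype.ext h3
  have key := core_bound A hν ρ hli' T (fun a c => hGT (K a) c)
    (fun i => ek φ ξ (F i.1 (J i.1))) hne (fun i c => hFT i.1 (J i.1) c)
  refine ⟨fun i => if hi : ∀ j, ek ((IsLocalRing.residue A).comp φ)
      (fun y => IsLocalRing.residue A (ξ y)) (F i j) = 0 then J i
    else j' i hi, ?_, ?_⟩
  · intro i
    by_cases hi : ∀ j, ek ((IsLocalRing.residue A).comp φ)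
      (fun y => IsLocalRing.residue A (ξ y)) (F i j) = 0
    · simp only [dif_pos hi]
      exact hne ⟨i, hi⟩
    · simp only [dif_neg hi]
      exact (hj' i hi).ne_zero
  intro Jc
  refine (key Jc).trans (le_of_eq ?_)
  refine Fintype.prod_of_injective
    (fun i : {i : Fin q // ∀ j, ek ((IsLocalRing.residue A).comp φ)
      (fun y => IsLocalRing.residue A (ξ y)) (F i j) = 0} => i.1)
    Subtype.val_injective _ _ ?_ ?_
  · intro i hi
    have hi' : ¬ ∀ j, ek ((IsLocalRing.residue A).comp φ)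
      (fun y => IsLocalRing.residue A (ξ y)) (F i j) = 0 :=
      fun h3 => hi ⟨⟨i, h3⟩, rfl⟩
    simp only [dif_neg hi']
    exact (A.valuation_eq_one_iff _).1 (hj' i hi')
  · intro i
    simp only [dif_pos i.2]

end NC

open NumberField IsDedekindDomain Height Filter Topology
open Pool.Agent.W180.OP (Pl av wt fv fv_support_finite wt_nonneg)

variable {k : Type} [Field k] [NumberField k] {σ : Sc}

/-- constants in the valuation ring -/
noncomputable def cOO (σ : Sc) (v : Pl k) : k →+* OO σ (av v) :=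
  (algebraMap k (G k σ)).codRestrict (OO σ (av v)).toSubring fun c => FF_mem_OO v (alg_mem c)

theorem coe_ek (v : Pl k) {ν : ℕ} (ξ : Fin ν → OO σ (av v)) (P : MvPolynomial (Fin ν) k) :
    ((ek (cOO σ v) ξ P : OO σ (av v)) : G k σ) = aeval (fun y => (ξ y : G k σ)) P :=
  map_ek (cOO σ v) (OO σ (av v)).subtype ξ P

theorem sum_pderiv_smul {A : Type} [CommRing A] [Algebra k A] {ν : ℕ}
    (P : MvPolynomial (Fin ν) k) (e : ℕ) (hP : P.IsHomogeneous e) (c : A)
    (x t : Fin ν → A) : ∑ y, aeval (fun y => c * x y) (pderiv y P) * (c * t y) =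
      c ^ e * ∑ y, aeval x (pderiv y P) * t y := by
  rcases Nat.eq_zero_or_pos e with h0 | h0
  · have h1 : ∀ y, pderiv y P = 0 := by
      intro y
      have h2 := hP
      rw [h0, ← totalDegree_zero_iff_isHomogeneous, totalDegree_eq_zero_iff_eq_C] at h2
      rw [h2, pderiv_C]
    simp [h1]
  · rw [Finset.mul_sum]
    refine Finset.sum_congr rfl fun y _ => ?_
    rw [aeval_smul_hom _ (e - 1) hP.pderiv]
    obtain ⟨e', rfl⟩ : ∃ e', e = e' + 1 := ⟨e - 1, by omega⟩
    rw [Nat.add_sub_cancel, pow_succ]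
    ring

/-- the inequality at one place -/
theorem place_ineq (v : Pl k) {ν n sc g q w : ℕ} (hν : ν = n + sc)
    (x : Fin ν → G k σ) (T : Matrix (Fin ν) (Fin n) (G k σ))
    (hder : ∀ (P : MvPolynomial (Fin ν) k) (e : ℕ) (_ : P.IsHomogeneous e) (c : Fin n),
      (OO σ (av v)).valuation (∑ y, aeval x (pderiv y P) * T y c) ≤
        (OO σ (av v)).valuation (aeval x P))
    (Gp : Fin g → MvPolynomial (Fin ν) k) (e : Fin g → ℕ) (hGh : ∀ a, (Gp a).IsHomogeneous (e a))
    (F : Fin q → Fin w → MvPolynomial (Fin ν) k) (d : Fin q → Fin w → ℕ)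
    (hFh : ∀ i j, (F i j).IsHomogeneous (d i j))
    (hnc : NCh ((IsLocalRing.residue (OO σ (av v))).comp (cOO σ v)) sc Gp F)
    (hGx : ∀ a, aeval x (Gp a) = 0) (J0 : Fin n → Fin ν) (hdet : (T.submatrix J0 id).det ≠ 0)
    (y0 : Fin ν) (hy0 : x y0 ≠ 0) (hmax : ∀ y, (OO σ (av v)).valuation (x y) ≤
      (OO σ (av v)).valuation (x y0)) :
    ∃ jj : Fin q → Fin w, (∀ i, aeval x (F i (jj i)) ≠ 0) ∧ ∀ J : Fin n → Fin ν,
      (OO σ (av v)).valuation ((T.submatrix J id).det * ∏ i, x y0 ^ (d i (jj i))) ≤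
        (OO σ (av v)).valuation (x y0 ^ n * ∏ i, aeval x (F i (jj i))) := by
  classical
  set A := OO σ (av v) with hA
  have hTy : ∀ y c, A.valuation (T y c) ≤ A.valuation (x y0) := by
    intro y c
    have h1 := hder (X y) 1 (isHomogeneous_X k y) c
    have h2 : ∑ y', aeval x (pderiv y' (X y : MvPolynomial (Fin ν) k)) * T y' c = T y c := by
      rw [Finset.sum_eq_single y]
      · rw [pderiv_X_self, map_one, one_mul]
      · intro y' _ hy'
        rw [pderiv_X_of_ne (Ne.symm hy'), map_zero, zero_mul]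
      · intro h
        exact absurd (Finset.mem_univ _) h
    rw [h2, aeval_X] at h1
    exact h1.trans (hmax y)
  have hv0 : 0 < A.valuation (x y0) := by
    rw [zero_lt_iff]
    exact (Valuation.ne_zero_iff _).2 hy0
  have hdiv : ∀ a : G k σ, A.valuation a ≤ A.valuation (x y0) → (x y0)⁻¹ * a ∈ A := by
    intro a ha
    rw [← ValuationSubring.valuation_le_one_iff, map_mul, map_inv₀]
    rw [mul_comm, ← div_eq_mul_inv]
    exact div_le_one_of_le₀ ha zero_le
  set ξ : Fin ν → A := fun y => ⟨(x y0)⁻¹ * x y, hdiv _ (hmax y)⟩ with hξ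
  set T' : Matrix (Fin ν) (Fin n) A := Matrix.of fun y c => ⟨(x y0)⁻¹ * T y c, hdiv _ (hTy y c)⟩
    with hT'
  have hcoe : ∀ P : MvPolynomial (Fin ν) k, ((ek (cOO σ v) ξ P : A) : G k σ) =
      aeval (fun y => (x y0)⁻¹ * x y) P := fun P => coe_ek v ξ P
  have hcoeh : ∀ (P : MvPolynomial (Fin ν) k) (e : ℕ) (_ : P.IsHomogeneous e),
      ((ek (cOO σ v) ξ P : A) : G k σ) = (x y0)⁻¹ ^ e * aeval x P := by
    intro P e hP
    rw [hcoe, aeval_smul_hom P e hP]
  have hsum : ∀ (P : MvPolynomial (Fin ν) k) (e : ℕ) (_ : P.IsHomogeneous e) (c : Fin n),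
      ((∑ y, ek (cOO σ v) ξ (pderiv y P) * T' y c : A) : G k σ) =
        (x y0)⁻¹ ^ e * ∑ y, aeval x (pderiv y P) * T y c := by
    intro P e hP c
    rw [← sum_pderiv_smul P e hP, AddSubmonoidClass.coe_finsetSum]
    refine Finset.sum_congr rfl fun y _ => ?_
    rw [MulMemClass.coe_mul, hcoe]
    rfl
  have hdetT : ∀ J : Fin n → Fin ν, (((T'.submatrix J id).det : A) : G k σ) =
      (x y0)⁻¹ ^ n * (T.submatrix J id).det := by
    intro J
    have h1 : (((T'.submatrix J id).det : A) : G k σ) = ((T'.submatrix J id).map A.subtype).det :=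
      RingHom.map_det A.subtype (T'.submatrix J id)
    rw [h1]
    have h2 : (T'.submatrix J id).map A.subtype = (x y0)⁻¹ • (T.submatrix J id) := by
      ext i c
      rfl
    rw [h2, Matrix.det_smul, Fintype.card_fin]
  obtain ⟨jj, hjj, hb'⟩ := nc_bound A (cOO σ v) hν Gp F hnc ξ ⟨y0, by
      rw [ValuationSubring.valuation_eq_one_iff]
      change A.valuation ((x y0)⁻¹ * x y0) = 1
      rw [inv_mul_cancel₀ hy0, map_one]⟩ (by
      intro a
      apply Subtype.ext
      rw [hcoeh _ _ (hGh a), hGx, mul_zero]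
      rfl) T' (by
      intro a c
      apply Subtype.ext
      rw [hsum _ _ (hGh a)]
      have h1 := hder (Gp a) (e a) (hGh a) c
      rw [hGx, map_zero] at h1
      have h2 := le_antisymm h1 zero_le
      rw [Valuation.zero_iff] at h2
      rw [h2, mul_zero]
      rfl) (by
      intro i j c
      rw [hsum _ _ (hFh i j), hcoeh _ _ (hFh i j), map_mul, map_mul]
      exact mul_le_mul_right (hder _ _ (hFh i j) c) _) J0 (by
      intro h0
      have h1 := hdetT J0
      rw [h0, ZeroMemClass.coe_zero] at h1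
      rcases mul_eq_zero.1 h1.symm with h2 | h2
      · exact pow_ne_zero _ (inv_ne_zero hy0) h2
      · exact hdet h2)
  refine ⟨jj, ?_, ?_⟩
  · intro i h0
    apply hjj i
    apply Subtype.ext
    rw [hcoeh _ _ (hFh i (jj i)), h0, mul_zero]
    rfl
  · intro J
    have h1 := hb' J
    rw [hdetT J, map_mul] at h1
    have h2 : ∀ i, A.valuation ((ek (cOO σ v) ξ (F i (jj i)) : A) : G k σ) =
        A.valuation ((x y0)⁻¹ ^ (d i (jj i))) * A.valuation (aeval x (F i (jj i))) := by
      intro i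
      rw [hcoeh _ _ (hFh i (jj i)), map_mul]
    rw [Finset.prod_congr rfl fun i _ => h2 i, Finset.prod_mul_distrib, ← map_prod, ← map_prod]
      at h1
    have h3 : A.valuation (x y0 ^ n) * A.valuation ((x y0)⁻¹ ^ n) = 1 := by
      rw [← map_mul, ← mul_pow, mul_inv_cancel₀ hy0, one_pow, map_one]
    have h4 : A.valuation (∏ i, x y0 ^ (d i (jj i))) *
        A.valuation (∏ i, (x y0)⁻¹ ^ (d i (jj i))) = 1 := by
      rw [← map_mul, ← Finset.prod_mul_distrib]
      have : ∀ i : Fin q, x y0 ^ (d i (jj i)) * (x y0)⁻¹ ^ (d i (jj i)) = 1 := by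
        intro i
        rw [← mul_pow, mul_inv_cancel₀ hy0, one_pow]
      rw [Finset.prod_congr rfl fun i _ => this i, Finset.prod_const_one, map_one]
    calc A.valuation ((T.submatrix J id).det * ∏ i, x y0 ^ (d i (jj i)))
        = (A.valuation (x y0 ^ n) * A.valuation ((x y0)⁻¹ ^ n)) *
            (A.valuation (T.submatrix J id).det * A.valuation (∏ i, x y0 ^ (d i (jj i)))) := by
          rw [h3, one_mul, map_mul]
      _ = A.valuation (x y0 ^ n) * A.valuation (∏ i, x y0 ^ (d i (jj i))) *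
            (A.valuation ((x y0)⁻¹ ^ n) * A.valuation (T.submatrix J id).det) := by
          ac_rfl
      _ ≤ A.valuation (x y0 ^ n) * A.valuation (∏ i, x y0 ^ (d i (jj i))) *
            (A.valuation (∏ i, (x y0)⁻¹ ^ (d i (jj i))) *
              A.valuation (∏ i, aeval x (F i (jj i)))) := mul_le_mul_right h1 _
      _ = (A.valuation (∏ i, x y0 ^ (d i (jj i))) *
            A.valuation (∏ i, (x y0)⁻¹ ^ (d i (jj i)))) *
              (A.valuation (x y0 ^ n) * A.valuation (∏ i, aeval x (F i (jj i)))) := by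
          ac_rfl
      _ = _ := by rw [h4, one_mul, map_mul]

end Pool.Agent.K1H83.VN
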