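import Pool.Agent.K1H83.VN.Place
import Pool.Agent.K1H83.VN.AtPt

/-!
The inequality of heights along a sequence of points.
-/

set_option autoImplicit false
set_option linter.unusedSectionVars false

namespace Pool.Agent.K1H83.VN

open NumberField IsDedekindDomain Height Filter Topology MvPolynomial
open Pool.Agent.W180.OP (Pl av wt fv fv_support_finite wt_nonneg)

section smul

variable {k : Type} [Field k] [NumberField k]

theorem aev {ν : ℕ} (x : Fin ν → k) (P : MvPolynomial (Fin ν) k) : aeval x P = eval x P := by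
  rw [← coe_aeval_eq_eval]
  rfl

theorem eval_smul_hom {ν : ℕ} (P : MvPolynomial (Fin ν) k) (e : ℕ) (hP : P.IsHomogeneous e)
    (c : k) (x : Fin ν → k) : eval (fun y => c * x y) P = c ^ e * eval x P := by
  have := aeval_smul_hom P e hP c x
  rwa [aev, aev] at this

theorem lam_smul (f : AbsoluteValue k ℝ) {ν w : ℕ} (F : Fin w → MvPolynomial (Fin ν) k)
    (d : Fin w → ℕ) (hF : ∀ j, (F j).IsHomogeneous (d j)) (x : Fin ν → k) (c : k) (hc : c ≠ 0) :
    lam f F d (fun y => c * x y) = lam f F d x := by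
  unfold lam
  congr 3
  funext j
  rw [eval_smul_hom _ _ (hF j), nm_smul, map_mul, map_pow, mul_pow]
  exact mul_div_mul_left _ _ (pow_ne_zero _ (f.ne_zero hc))

theorem prox_smul (S : Finset (Pl k)) {ν q w : ℕ} (F : Fin q → Fin w → MvPolynomial (Fin ν) k)
    (d : Fin q → Fin w → ℕ) (hF : ∀ i j, (F i j).IsHomogeneous (d i j)) (x : Fin ν → k) (c : k)
    (hc : c ≠ 0) : prox S F d (fun y => c * x y) = prox S F d x := by
  unfold prox
  refine Finset.sum_congr rfl fun v _ => ?_
  congr 1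
  exact Finset.sum_congr rfl fun i _ => lam_smul _ _ _ (hF i) x c hc

theorem hK_smul {ν n : ℕ} (x : Fin ν → k) (A : Matrix (Fin ν) (Fin n) k) (c : k) (hc : c ≠ 0) :
    hK (fun y => c * x y) A = hK x A := by
  unfold hK
  congr 2
  exact logHeight_smul_eq_logHeight x hc

theorem isTB_smul {ν g n : ℕ} (Gp : Fin g → MvPolynomial (Fin ν) k) (e : Fin g → ℕ)
    (hG : ∀ a, (Gp a).IsHomogeneous (e a)) (x : Fin ν → k) (A : Matrix (Fin ν) (Fin n) k) (c : k)
    (hc : c ≠ 0) (h : IsTB Gp (fun y => c * x y) A) : IsTB Gp x A := by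
  refine ⟨h.1, fun a b => ?_⟩
  have h1 := h.2 a b
  have h2 := sum_pderiv_smul (Gp a) (e a) (hG a) c x (fun y => A y b)
  have h3 : ∑ y, aeval (fun y => c * x y) (pderiv y (Gp a)) * (c * A y b) =
      c * ∑ y, eval (fun y => c * x y) (pderiv y (Gp a)) * A y b := by
    rw [Finset.mul_sum]
    refine Finset.sum_congr rfl fun y _ => ?_
    rw [aev]
    ring
  rw [h3, h1, mul_zero] at h2
  have h4 := (mul_eq_zero.1 h2.symm).resolve_left (pow_ne_zero _ hc)
  rw [← h4]
  exact Finset.sum_congr rfl fun y _ => by rw [aev]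

end smul

variable {k : Type} [Field k] [NumberField k] {σ : Sc}

theorem rep_det {n : ℕ} (M : Matrix (Fin n) (Fin n) (G k σ)) :
    ∀ᶠ t in (σ.𝒰 : Filter ℕ), rep M.det t = (Matrix.of fun i c => rep (M i c) t).det := by
  refine rep_eq _ _ ?_
  let P : Matrix (Fin n) (Fin n) (ℕ → k) := Matrix.of fun i c => rep (M i c)
  have h1 : M = P.map (gm σ) := by
    ext1 i c
    exact (gm_rep _).symm
  have h2 : (P.map (gm σ)).det = gm σ P.det := (RingHom.map_det _ _).symm
  have h3 : P.det = fun t => (Matrix.of fun i c => rep (M i c) t).det := by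
    funext t
    have h4 : (Pi.evalRingHom (fun _ => k) t) P.det = (P.map (Pi.evalRingHom (fun _ => k) t)).det :=
      RingHom.map_det _ _
    exact h4
  rw [← h3, ← h2, ← h1]

/-- the inequality of heights along a sequence -/
theorem seq_ineq (S : Finset (Pl k)) (hS : ∀ w : InfinitePlace k, Sum.inl w ∈ S)
    (hσ : (σ.𝒰 : Filter ℕ) ≤ atTop) {ν n sc g q w r : ℕ} (hν : ν = n + sc)
    (Gp : Fin g → MvPolynomial (Fin ν) k) (e : Fin g → ℕ) (hGh : ∀ a, (Gp a).IsHomogeneous (e a))
    (F : Fin q → Fin w → MvPolynomial (Fin ν) k) (d : Fin q → Fin w → ℕ)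
    (hFh : ∀ i j, (F i j).IsHomogeneous (d i j))
    (hnc : ∀ (L : Type) [Field L] (φ : k →+* L), NCh φ sc Gp F)
    (u : Fin r → G k σ) (hu : ∀ j, SU S (u j)) (hB : ∀ j, u j ∈ BB k σ)
    (V : Fin r → Fin ν → FF k σ) (X : Fin ν → G k σ)
    (hX : ∀ y, X y = ∑ j, u j * (V j y : G k σ)) (y1 : Fin ν) (hy1 : X y1 ≠ 0)
    (hGX : ∀ a, aeval X (Gp a) = 0) (J0 : Fin n → Fin ν)
    (hgen : ∀ (Φ : MvPolynomial (Fin n) k) (e : ℕ), Φ.IsHomogeneous e → Φ ≠ 0 →
      aeval (fun i => X (J0 i)) Φ ≠ 0) (ε : ℝ) (hε : 0 < ε) :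
    ∀ᶠ t in (σ.𝒰 : Filter ℕ), ∀ A : Matrix (Fin ν) (Fin n) k,
      IsTB Gp (fun y => rep (X y) t) A →
      prox S F d (fun y => rep (X y) t) + hK (fun y => rep (X y) t) A ≤ ε * σ.L t := by
  classical
  obtain ⟨m, T, R, μ, hT, hTB, hind, hμ, hXR, hR1, hho⟩ := gt S hS u hu hB V X hX y1 hy1
  obtain ⟨x, hx⟩ : ∃ x : Fin ν → G k σ, x = fun y => ev T (R y) := ⟨_, rfl⟩
  have hXx : X = fun y => μ * x y := by
    funext y
    rw [hXR, hx]
  have hGx : ∀ a, aeval x (Gp a) = 0 := by
    intro a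
    have h1 := hGX a
    rw [hXx, aeval_smul_hom _ _ (hGh a)] at h1
    exact (mul_eq_zero.1 h1).resolve_left (pow_ne_zero _ hμ)
  have hgenx : ∀ (Φ : MvPolynomial (Fin n) k) (e : ℕ), Φ.IsHomogeneous e → Φ ≠ 0 →
      aeval (fun i => ev T (R (J0 i))) Φ ≠ 0 := by
    intro Φ e' h1 h2 h3
    apply hgen Φ e' h1 h2
    have h4 : (fun i => X (J0 i)) = fun i => μ * ev T (R (J0 i)) := funext fun i => hXR _
    rw [h4, aeval_smul_hom _ _ h1, h3, mul_zero]
  obtain ⟨W, hW, hWdet⟩ := exists_good hσ T (fun j => (hT j).ne_zero) R J0 hgenx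
  obtain ⟨Tm, hTm⟩ : ∃ Tm : Matrix (Fin ν) (Fin n) (G k σ), Tm = Matrix.of fun y c =>
    ev T (W c y) := ⟨_, rfl⟩
  have hdet0 : (Tm.submatrix J0 id).det ≠ 0 := by
    rw [hTm]
    exact hWdet
  have hder : ∀ v ∈ S, ∀ (P : MvPolynomial (Fin ν) k) (e : ℕ) (_ : P.IsHomogeneous e)
      (c : Fin n), (OO σ (av v)).valuation (∑ y, aeval x (pderiv y P) * Tm y c) ≤
        (OO σ (av v)).valuation (aeval x P) := by
    intro v hv P e' hP c
    rw [hx, hTm]
    exact val_deriv_le S hS T hT hTB hind R (W c) (hW c) v hv P e' hP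
  have hν1 : Nonempty (Fin ν) := ⟨y1⟩
  have hx1 : x y1 ≠ 0 := by
    intro h
    apply hy1
    rw [hXx]
    show μ * x y1 = 0
    rw [h, mul_zero]
  -- the places
  have hy : ∀ v : Pl k, ∃ y0 : Fin ν, ∀ᶠ t in (σ.𝒰 : Filter ℕ), ∀ y,
      av v (rep (x y) t) ≤ av v (rep (x y0) t) := fun v =>
    exists_max fun y t => av v (rep (x y) t)
  choose y0 hy0 using hy
  have hxy0 : ∀ v, x (y0 v) ≠ 0 := by
    intro v
    refine ne_of_rep _ ?_
    filter_upwards [hy0 v, rep_ne _ hx1] with t h1 h2 h3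
    have h4 := h1 y1
    rw [h3, map_zero] at h4
    exact absurd h4 (not_le.2 ((av v).pos h2))
  have hplace : ∀ v : Pl k, ∃ jj : Fin q → Fin w, v ∈ S → ((∀ i, aeval x (F i (jj i)) ≠ 0) ∧
      ∀ J : Fin n → Fin ν, (OO σ (av v)).valuation ((Tm.submatrix J id).det *
        ∏ i, x (y0 v) ^ (d i (jj i))) ≤ (OO σ (av v)).valuation (x (y0 v) ^ n *
          ∏ i, aeval x (F i (jj i)))) := by
    intro v
    by_cases hv : v ∈ S
    · obtain ⟨jj, h1, h2⟩ := place_ineq v hν x Tm (hder v hv) Gp e hGh F d hFh (hnc _ _) hGx J0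
        hdet0 (y0 v) (hxy0 v) (by
          intro y
          apply le_val
          intro ε' hε'
          filter_upwards [hy0 v, L_pos (σ := σ)] with t ht ht2
          refine (ht y).trans ?_
          exact le_mul_of_one_le_right ((av v).nonneg _) (Real.one_le_exp (by positivity)))
      exact ⟨jj, fun _ => ⟨h1, h2⟩⟩
    · by_cases hw : Nonempty (Fin q → Fin w)
      · exact ⟨Classical.arbitrary _, fun h => absurd h hv⟩
      · exfalso
        obtain ⟨jj, -, -⟩ := place_ineq (Sum.inl (Classical.arbitrary (InfinitePlace k))) hν x Tm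
          (hder _ (hS _)) Gp e hGh F d hFh (hnc _ _) hGx J0
          hdet0 (y0 _) (hxy0 _) (by
            intro y
            apply le_val
            intro ε' hε'
            filter_upwards [hy0 (Sum.inl (Classical.arbitrary (InfinitePlace k))),
              L_pos (σ := σ)] with t ht ht2
            refine (ht y).trans ?_
            exact le_mul_of_one_le_right ((av _).nonneg _) (Real.one_le_exp (by positivity)))
        exact hw ⟨jj⟩
  choose jj hjj using hplace
  -- the small terms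
  obtain ⟨Wt, hWt⟩ : ∃ Wt : ℝ, Wt = ∑ v ∈ S, wt v := ⟨_, rfl⟩
  have hWt0 : 0 ≤ Wt := hWt ▸ Finset.sum_nonneg fun v _ => wt_nonneg v
  have hminor : ∀ J : Fin n → Fin ν, (Tm.submatrix J id).det =
      ev T ((Matrix.of fun (i c : Fin n) => W c (J i)).det) := by
    intro J
    have h1 : ev T ((Matrix.of fun (i c : Fin n) => W c (J i)).det) =
        ((Matrix.of fun (i c : Fin n) => W c (J i)).map (ev T)).det :=
      AlgHom.map_det (ev T) _
    rw [h1, hTm]
    rfl
  have hho2 : Sm σ fun t => ho S (fun J : Fin n → Fin ν => rep ((Tm.submatrix J id).det) t) := by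
    refine (poly_ho T S hS hT (fun J : Fin n → Fin ν =>
      (Matrix.of fun (i c : Fin n) => W c (J i)).det)).mono ?_
    filter_upwards [rep_ne _ hdet0] with t h1
    simp only [hminor] at h1 ⊢
    refine ho_le S _ (ne_of_coord (i := J0) h1) _ (ne_of_one _ none rfl) fun v _ => ?_
    refine nm_le _ (nm_nonneg _ _) fun J => ?_
    exact le_nm (fv v) (c1 fun J : Fin n → Fin ν =>
      rep (ev T ((Matrix.of fun (i c : Fin n) => W c (J i)).det)) t) (some J)
  have hho1 : Sm σ fun t => -ho S (fun y => rep (x y) t) := by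
    rw [hx]
    exact hho
  have hsm := hho2.add (hho1.smul (c := (n : ℝ)) (Nat.cast_nonneg _))
  -- the facts at a point
  have f1 : ∀ᶠ t in (σ.𝒰 : Filter ℕ), ∀ J : Fin n → Fin ν, rep ((Tm.submatrix J id).det) t =
      ((Matrix.of fun y c => rep (Tm y c) t).submatrix J id).det := by
    rw [Filter.eventually_all]
    intro J
    exact rep_det _
  have f2 : ∀ᶠ t in (σ.𝒰 : Filter ℕ), ∀ a c,
      ∑ y, eval (fun y => rep (x y) t) (pderiv y (Gp a)) *
        (Matrix.of fun y c => rep (Tm y c) t) y c = 0 := by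
    rw [Filter.eventually_all]
    intro a
    rw [Filter.eventually_all]
    intro c
    have h1 := hder (Sum.inl (Classical.arbitrary (InfinitePlace k))) (hS _) (Gp a) (e a)
      (hGh a) c
    rw [hGx, map_zero] at h1
    have h2 := le_antisymm h1 zero_le
    rw [Valuation.zero_iff] at h2
    have h3 : ∀ᶠ t in (σ.𝒰 : Filter ℕ), ∀ y, rep (aeval x (pderiv y (Gp a)) * Tm y c) t =
        rep (aeval x (pderiv y (Gp a))) t * rep (Tm y c) t := by
      rw [Filter.eventually_all]
      exact fun y => rep_mul _ _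
    have h4 : ∀ᶠ t in (σ.𝒰 : Filter ℕ), ∀ y, rep (aeval x (pderiv y (Gp a))) t =
        aeval (fun y => rep (x y) t) (pderiv y (Gp a)) := by
      rw [Filter.eventually_all]
      exact fun y => rep_aeval _ _
    have h5 := rep_sum (σ := σ) Finset.univ fun y => aeval x (pderiv y (Gp a)) * Tm y c
    rw [h2] at h5
    filter_upwards [h3, h4, h5, rep_zero (k := k) (σ := σ)] with t e1 e2 e3 e4
    rw [e4] at e3
    rw [e3]
    refine Finset.sum_congr rfl fun y _ => ?_
    rw [e1, e2, aev]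
    rfl
  have f3 : ∀ᶠ t in (σ.𝒰 : Filter ℕ), ∀ v ∈ S, ∀ y,
      av v (rep (x y) t) ≤ av v (rep (x (y0 v)) t) := by
    rw [Filter.eventually_all_finset]
    exact fun v _ => hy0 v
  have f4 : ∀ᶠ t in (σ.𝒰 : Filter ℕ), ∀ i j, rep (aeval x (F i j)) t =
      eval (fun y => rep (x y) t) (F i j) := by
    rw [Filter.eventually_all]
    intro i
    rw [Filter.eventually_all]
    intro j
    filter_upwards [rep_aeval x (F i j)] with t ht
    rw [ht, aev]
  have f5 : ∀ᶠ t in (σ.𝒰 : Filter ℕ), ∀ v ∈ S, ∀ i, rep (aeval x (F i (jj v i))) t ≠ 0 := by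
    rw [Filter.eventually_all_finset]
    intro v hv
    rw [Filter.eventually_all]
    exact fun i => rep_ne _ ((hjj v hv).1 i)
  have f6 : ∀ᶠ t in (σ.𝒰 : Filter ℕ), ∀ v ∈ S, ∀ J : Fin n → Fin ν,
      av v (rep ((Tm.submatrix J id).det) t * ∏ i, rep (x (y0 v)) t ^ (d i (jj v i))) ≤
      av v (rep (x (y0 v)) t ^ n * ∏ i, rep (aeval x (F i (jj v i))) t) *
        Real.exp (ε / (2 * (Wt + 1)) * σ.L t) := by
    rw [Filter.eventually_all_finset]
    intro v hv
    rw [Filter.eventually_all]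
    intro J
    have h1 : ∀ᶠ t in (σ.𝒰 : Filter ℕ), ∀ i, rep (x (y0 v) ^ (d i (jj v i))) t =
        rep (x (y0 v)) t ^ (d i (jj v i)) := by
      rw [Filter.eventually_all]
      exact fun i => rep_pow _ _
    filter_upwards [val_le (av v) ((hjj v hv).2 J) (ε / (2 * (Wt + 1))) (by positivity), h1,
      rep_mul (Tm.submatrix J id).det (∏ i, x (y0 v) ^ (d i (jj v i))),
      rep_prod Finset.univ fun i => x (y0 v) ^ (d i (jj v i)),
      rep_mul (x (y0 v) ^ n) (∏ i, aeval x (F i (jj v i))), rep_pow (x (y0 v)) n,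
      rep_prod Finset.univ fun i => aeval x (F i (jj v i))] with t e1 e2 e3 e4 e5 e6 e7
    rw [e3, e4, e5, e6, e7, Finset.prod_congr rfl fun i _ => e2 i] at e1
    exact e1
  have f7 : ∀ᶠ t in (σ.𝒰 : Filter ℕ), ∀ y, rep (X y) t = rep μ t * rep (x y) t := by
    rw [Filter.eventually_all]
    intro y
    rw [hXx]
    exact rep_mul _ _
  have f8 : ∀ᶠ t in (σ.𝒰 : Filter ℕ), ∀ a, eval (fun y => rep (x y) t) (Gp a) = 0 := by
    rw [Filter.eventually_all]
    intro a
    filter_upwards [rep_aeval x (Gp a), rep_zero (k := k) (σ := σ)] with t e1 e2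
    rw [hGx, e2, aev] at e1
    exact e1.symm
  filter_upwards [hsm (ε / 2) (by positivity), f1, f2, f3, f4, f5, f6, f7, f8, rep_ne _ hdet0,
    rep_ne _ hx1, rep_ne _ hμ, L_pos (σ := σ)] with t g0 g1 g2 g3 g4 g5 g6 g7 g8 g9 g10 g11 g12
  intro A hA
  have hXt : (fun y => rep (X y) t) = fun y => rep μ t * rep (x y) t := funext g7
  rw [hXt] at hA ⊢
  rw [prox_smul S F d hFh (fun y => rep (x y) t) _ g11, hK_smul (fun y => rep (x y) t) A _ g11]
  have hA' := isTB_smul Gp e hGh (fun y => rep (x y) t) A _ g11 hA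
  have hxt : (fun y => rep (x y) t) ≠ 0 := ne_of_coord (i := y1) g10
  have hek : ∀ P : MvPolynomial (Fin ν) k, ek (RingHom.id k) (fun y => rep (x y) t) P =
      eval (fun y => rep (x y) t) P := fun P => eval₂_id P
  obtain ⟨K, J', hli⟩ := hnc k (RingHom.id k) (fun y => rep (x y) t) hxt (fun a => by
    rw [hek]
    exact g8 a)
  have hK' : LinearIndependent k fun a : Fin sc => fun y =>
      eval (fun y => rep (x y) t) (pderiv y (Gp (K a))) := by
    have h1 := hli.comp Sum.inl Sum.inl_injective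
    exact h1
  have key := at_point S hS hν Gp F d (fun y => rep (x y) t) hxt K hK'
    (Matrix.of fun y c => rep (Tm y c) t) g2 J0 (by rw [← g1 J0]; exact g9) y0 g3 jj
    (fun v hv i => by rw [← g4]; exact g5 v hv i) (ε / (2 * (Wt + 1)) * σ.L t)
    (fun v hv J => by
      have h1 := g6 v hv J
      rw [g1 J, Finset.prod_congr rfl fun i _ => g4 i (jj v i)] at h1
      exact h1) A hA'
  rw [← funext g1, ← hWt] at key
  refine key.trans ?_
  have h1 : Wt * (ε / (2 * (Wt + 1)) * σ.L t) ≤ ε / 2 * σ.L t := by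
    have h2 : Wt * (ε / (2 * (Wt + 1))) ≤ ε / 2 := by
      rw [mul_div_assoc', div_le_div_iff₀ (by positivity) (by norm_num)]
      nlinarith
    calc Wt * (ε / (2 * (Wt + 1)) * σ.L t) = Wt * (ε / (2 * (Wt + 1))) * σ.L t := by ring
      _ ≤ _ := mul_le_mul_of_nonneg_right h2 g12.le
  linarith

end Pool.Agent.K1H83.VN
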