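import Pool.Agent.K1H83.VN.Val
import Pool.Agent.R847.SN.Fld

/-!
The subspace theorem for germs.
-/

set_option autoImplicit false
set_option linter.unusedSectionVars false

namespace Pool.Agent.K1H83.VN

open NumberField IsDedekindDomain Height Filter Topology
open Pool.Agent.W180.OP (Pl av wt fv fv_support_finite wt_nonneg nrm)

variable {k : Type} [Field k] [NumberField k] {σ : Sc}

theorem wt_nonneg' (v : Pl k) : 0 ≤ wt v := wt_nonneg v

/-- germs of bounded height are constant -/
theorem const_of_bounded (x : G k σ) (M : ℝ)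
    (h : ∀ᶠ t in (σ.𝒰 : Filter ℕ), logHeight₁ (rep x t) ≤ M) :
    ∃ c : k, x = algebraMap k (G k σ) c := by
  obtain ⟨c, -, hc⟩ := const_of_finite (σ := σ) (rep x) _
    (NumberField.finite_setOfPred_logHeight₁_le k M) h
  refine ⟨c, ?_⟩
  rw [← gm_rep x, alg_eq, gm_eq]
  exact hc

theorem sub_ind {K : Type} [Field K] [NumberField K] [Algebra k K] {n : ℕ} (z : Fin n → G k σ)
    (hz : LinearIndependent k z) (d : Fin n → K) (hd : d ≠ 0) :
    ∀ᶠ t in (σ.𝒰 : Filter ℕ), ∑ j, d j * algebraMap k K (rep (z j) t) ≠ 0 := by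
  rw [Ultrafilter.eventually_not]
  intro h
  apply hd
  let b := Module.Free.chooseBasis k K
  funext j
  apply b.ext_elem
  intro i
  show (b.coord i) (d j) = _
  rw [Pi.zero_apply, map_zero, Finsupp.zero_apply]
  refine (Fintype.linearIndependent_iff.1 hz) (fun j => b.coord i (d j)) ?_ j
  rw [← gm_rep (∑ j, (b.coord i) (d j) • z j)]
  have h0 : (gm σ (fun _ => 0) : G k σ) = 0 := map_zero (gm σ)
  rw [← h0, gm_eq]
  have h1 : ∀ᶠ t in (σ.𝒰 : Filter ℕ), ∀ j, rep (b.coord i (d j) • z j) t =
      b.coord i (d j) * rep (z j) t := by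
    rw [Filter.eventually_all]
    exact fun j => rep_smul _ _
  filter_upwards [h, rep_sum Finset.univ fun j => b.coord i (d j) • z j, h1] with t h2 h3 h4
  rw [h3]
  have h5 := congrArg (b.coord i) h2
  rw [map_sum, map_zero] at h5
  rw [← h5]
  refine Finset.sum_congr rfl fun j _ => ?_
  rw [h4, mul_comm (d j), ← Algebra.smul_def, map_smul, smul_eq_mul, mul_comm]

theorem germ_sub (S : Finset (Pl k)) (hS : ∀ w : InfinitePlace k, Sum.inl w ∈ S) {n : ℕ}
    (hn : 1 ≤ n) (z : Fin n → G k σ) (hz : LinearIndependent k z)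
    (hB : ∃ C : ℝ, ∀ᶠ t in (σ.𝒰 : Filter ℕ), logHeight (fun j => rep (z j) t) ≤ C * σ.L t)
    (B : Pl k → Fin n → Fin n → k) (hdet : ∀ v ∈ S, (Matrix.of (B v)).det ≠ 0) :
    Sm σ fun t => -(∑ v ∈ S, wt v * ∑ a, Real.log (av v (∑ j, B v a j * rep (z j) t))) -
      n * ho S (fun j => rep (z j) t) := by
  classical
  have hz0 : ∀ j, z j ≠ 0 := fun j => hz.ne_zero j
  have hz1 : ∀ᶠ t in (σ.𝒰 : Filter ℕ), ∀ j, rep (z j) t ≠ 0 := by
    rw [Filter.eventually_all]
    exact fun j => rep_ne _ (hz0 j)
  rcases Nat.lt_or_ge 1 n with hn2 | hn1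
  · -- at least two germs
    have hT : Tendsto (fun t => logHeight (fun j => rep (z j) t)) (σ.𝒰 : Filter ℕ) atTop := by
      by_contra hc
      rw [Filter.tendsto_atTop] at hc
      push Not at hc
      obtain ⟨M, hM⟩ := hc
      have h1 : ∀ᶠ t in (σ.𝒰 : Filter ℕ),
          logHeight₁ (rep (z ⟨1, hn2⟩ / z ⟨0, hn⟩) t) ≤ M := by
        have hM' : ∀ᶠ t in (σ.𝒰 : Filter ℕ), logHeight (fun j => rep (z j) t) < M := hM
        filter_upwards [hM', rep_div (z ⟨1, hn2⟩) (z ⟨0, hn⟩)] with t h2 h3
        rw [h3]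
        exact (logHeight₁_div_le (fun j => rep (z j) t) _ _).trans h2.le
      obtain ⟨c, hc⟩ := const_of_bounded _ _ h1
      rw [div_eq_iff (hz0 _), ← Algebra.smul_def] at hc
      have h2 := (Fintype.linearIndependent_iff.1 hz)
        (fun j => if j = ⟨1, hn2⟩ then 1 else if j = ⟨0, hn⟩ then -c else 0) (by
          rw [Fintype.sum_eq_add ⟨1, hn2⟩ ⟨0, hn⟩ (by
            intro h
            have := congrArg Fin.val h
            simp at this)]
          · rw [if_pos rfl, if_neg (by
              intro h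
              have := congrArg Fin.val h
              simp at this), if_pos rfl, one_smul, hc, neg_smul, add_neg_cancel]
          · rintro j ⟨h1, h2⟩
            rw [if_neg h1, if_neg h2, zero_smul]) ⟨1, hn2⟩
      rw [if_pos rfl] at h2
      exact one_ne_zero h2
    obtain ⟨K, _, _, _, _, φ, hi, -⟩ := Pool.Agent.R847.SN.exists_gal k ∅ Set.finite_empty
    have hf := fun v : Pl k => Pool.Agent.R405.exists_good (k := k) (K := K) v
    choose f hf using hf
    obtain ⟨C, hC⟩ := hB
    intro ε hε
    have hC1 : 0 < |C| + 1 := by positivity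
    have key := Pool.Agent.R405.schF hi (σ.𝒰 : Filter ℕ) hn S f (fun v _ => hf v)
      (fun v a j => algebraMap k K (B v a j)) (fun v hv => by
        have h1 : (Matrix.of fun a j => algebraMap k K (B v a j)) =
            (Matrix.of (B v)).map (algebraMap k K) := by
          ext a j
          rfl
        have h2 : ((Matrix.of (B v)).map (algebraMap k K)).det =
            algebraMap k K (Matrix.of (B v)).det := (RingHom.map_det _ _).symm
        rw [h1, h2]
        exact (map_ne_zero _).2 (hdet v hv))
      (fun t j => rep (z j) t) hT (fun d hd => sub_ind z hz d hd) (ε / (|C| + 1)) (by positivity)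
    filter_upwards [key, hC, L_pos (σ := σ), hz1] with t h1 h2 h3 h4
    have hx0 : (fun j => rep (z j) t) ≠ 0 := ne_of_coord (i := ⟨0, hn⟩) (h4 _)
    have h5 := logHeight_split S hS _ hx0
    have h6 : ∀ v ∈ S, ∑ a, (Real.log (nrm (av v) (fun j => rep (z j) t)) -
        Real.log (f v (∑ j, algebraMap k K (B v a j) * algebraMap k K (rep (z j) t)))) =
        n * Real.log (nm (av v) (fun j => rep (z j) t)) -
        ∑ a, Real.log (av v (∑ j, B v a j * rep (z j) t)) := by
      intro v _
      rw [Finset.sum_sub_distrib, Finset.sum_const, Finset.card_univ, Fintype.card_fin,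
        nsmul_eq_mul]
      congr 1
      refine Finset.sum_congr rfl fun a _ => ?_
      have h7 : ∑ j, algebraMap k K (B v a j) * algebraMap k K (rep (z j) t) =
          algebraMap k K (∑ j, B v a j * rep (z j) t) := by
        rw [map_sum]
        exact Finset.sum_congr rfl fun j _ => (map_mul _ _ _).symm
      rw [h7, (hf v).ext]
    rw [Finset.sum_congr rfl fun v hv => by rw [h6 v hv]] at h1
    have h8 : ∑ v ∈ S, wt v * (n * Real.log (nm (av v) (fun j => rep (z j) t)) -
        ∑ a, Real.log (av v (∑ j, B v a j * rep (z j) t))) =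
        n * (logHeight (fun j => rep (z j) t) - ho S (fun j => rep (z j) t)) -
        ∑ v ∈ S, wt v * ∑ a, Real.log (av v (∑ j, B v a j * rep (z j) t)) := by
      rw [h5, add_sub_cancel_right, Finset.mul_sum, ← Finset.sum_sub_distrib]
      exact Finset.sum_congr rfl fun v _ => by ring
    rw [h8] at h1
    have h9 : ε / (|C| + 1) * logHeight (fun j => rep (z j) t) ≤ ε * σ.L t := by
      have h10 : logHeight (fun j => rep (z j) t) ≤ (|C| + 1) * σ.L t := by
        have := le_abs_self C
        nlinarith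
      calc ε / (|C| + 1) * logHeight (fun j => rep (z j) t)
          ≤ ε / (|C| + 1) * ((|C| + 1) * σ.L t) :=
            mul_le_mul_of_nonneg_left h10 (by positivity)
        _ = ε * σ.L t := by field_simp
    linarith
  · -- one germ
    have hn' : n = 1 := le_antisymm hn1 hn
    subst hn'
    refine (Sm.const (-(∑ v ∈ S, wt v * Real.log (av v (B v 0 0))))).mono ?_
    filter_upwards [hz1] with t h1
    have h2 := logHeight_split S hS (fun j : Fin 1 => rep (z j) t) (ne_of_coord (i := 0) (h1 0))
    rw [logHeight_eq_zero_of_subsingleton] at h2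
    have h3 : ∀ v : Pl k, nm (av v) (fun j : Fin 1 => rep (z j) t) = av v (rep (z 0) t) := by
      intro v
      unfold nm
      rw [ciSup_unique]
      rfl
    have h4 : ∀ v ∈ S, wt v * ∑ a : Fin 1, Real.log (av v (∑ j, B v a j * rep (z j) t)) =
        wt v * Real.log (av v (B v 0 0)) + wt v * Real.log (av v (rep (z 0) t)) := by
      intro v hv
      have h5 : B v 0 0 ≠ 0 := by
        have := hdet v hv
        rwa [Matrix.det_fin_one] at this
      rw [Fin.sum_univ_one, Fin.sum_univ_one, map_mul, Real.log_mul ((av v).ne_zero h5)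
        ((av v).ne_zero (h1 0)), mul_add]
    rw [Finset.sum_congr rfl h4, Finset.sum_add_distrib]
    simp only [h3] at h2
    push_cast
    linarith

/-- the subspace theorem for germs, with an arbitrary index type -/
theorem germ_sub' (S : Finset (Pl k)) (hS : ∀ w : InfinitePlace k, Sum.inl w ∈ S) {ι : Type}
    [Fintype ι] [DecidableEq ι] [Nonempty ι] (z : ι → G k σ) (hz : LinearIndependent k z)
    (hB : ∃ C : ℝ, ∀ᶠ t in (σ.𝒰 : Filter ℕ), logHeight (fun j => rep (z j) t) ≤ C * σ.L t)
    (B : Pl k → ι → ι → k) (hdet : ∀ v ∈ S, (Matrix.of (B v)).det ≠ 0) :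
    Sm σ fun t => -(∑ v ∈ S, wt v * ∑ a, Real.log (av v (∑ j, B v a j * rep (z j) t))) -
      Fintype.card ι * ho S (fun j => rep (z j) t) := by
  classical
  let e := Fintype.equivFin ι
  have h := germ_sub S hS (n := Fintype.card ι) Fintype.card_pos (fun a => z (e.symm a))
    ((linearIndependent_equiv e.symm).2 hz) (by
      obtain ⟨C, hC⟩ := hB
      refine ⟨C, ?_⟩
      filter_upwards [hC] with t ht
      exact (logHeight_comp_le e.symm (fun j => rep (z j) t)).trans ht)
    (fun v a j => B v (e.symm a) (e.symm j)) (fun v hv => by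
      have h1 : (Matrix.of fun a j => B v (e.symm a) (e.symm j)) =
          (Matrix.of (B v)).submatrix e.symm e.symm := rfl
      rw [h1, Matrix.det_submatrix_equiv_self]
      exact hdet v hv)
  refine h.mono (Eventually.of_forall fun t => ?_)
  have h1 : ho S (fun j => rep (z (e.symm j)) t) = ho S (fun j => rep (z j) t) := by
    unfold ho
    congr 1
    funext v
    unfold lo
    have h2 : nm (fv v) (fun j => rep (z (e.symm j)) t) = nm (fv v) (fun j => rep (z j) t) :=
      e.symm.iSup_comp (g := fun j => fv v (rep (z j) t))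
    rw [h2]
  have h2 : ∀ v, ∑ a, Real.log (av v (∑ j, B v (e.symm a) (e.symm j) * rep (z (e.symm j)) t)) =
      ∑ a, Real.log (av v (∑ j, B v a j * rep (z j) t)) := by
    intro v
    rw [← e.symm.sum_comp fun a => Real.log (av v (∑ j, B v a j * rep (z j) t))]
    refine Finset.sum_congr rfl fun a _ => ?_
    rw [e.symm.sum_comp fun j => B v (e.symm a) j * rep (z j) t]
  rw [h1]
  simp only [h2]
  exact le_rfl

end Pool.Agent.K1H83.VN
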