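import Pool.Agent.K1H83.VN.Mov2

/-!
Upper bounds for germs, values of polynomials at unit germs.
-/

set_option autoImplicit false
set_option linter.unusedSectionVars false

namespace Pool.Agent.K1H83.VN

open NumberField IsDedekindDomain Height Filter Topology MvPolynomial
open Pool.Agent.W180.OP (Pl av wt fv fv_support_finite wt_nonneg)

variable {k : Type} [Field k] [NumberField k] {σ : Sc}

/-- `|g|_v ≤ exp ((c + o(1)) L)` -/
def Ub (v : Pl k) (g : G k σ) (c : ℝ) : Prop :=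
  ∀ ε : ℝ, 0 < ε → ∀ᶠ t in (σ.𝒰 : Filter ℕ), av v (rep g t) ≤ Real.exp ((c + ε) * σ.L t)

theorem Ub.add {v : Pl k} {g h : G k σ} {c : ℝ} (hg : Ub v g c) (hh : Ub v h c) :
    Ub v (g + h) c := by
  intro ε hε
  filter_upwards [hg (ε / 2) (by positivity), hh (ε / 2) (by positivity), rep_add g h,
    two_le_exp σ (show 0 < ε / 2 by positivity)] with t h1 h2 h3 h4
  rw [h3]
  calc av v (rep g t + rep h t) ≤ av v (rep g t) + av v (rep h t) := (av v).add_le _ _
    _ ≤ 2 * Real.exp ((c + ε / 2) * σ.L t) := by linarith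
    _ ≤ Real.exp (ε / 2 * σ.L t) * Real.exp ((c + ε / 2) * σ.L t) :=
        mul_le_mul_of_nonneg_right h4 (Real.exp_pos _).le
    _ = _ := by rw [← Real.exp_add]; ring_nf

theorem Ub.mul {v : Pl k} {g h : G k σ} {c c' : ℝ} (hg : Ub v g c) (hh : Ub v h c') :
    Ub v (g * h) (c + c') := by
  intro ε hε
  filter_upwards [hg (ε / 2) (by positivity), hh (ε / 2) (by positivity), rep_mul g h]
    with t h1 h2 h3
  rw [h3, map_mul]
  calc av v (rep g t) * av v (rep h t) ≤
      Real.exp ((c + ε / 2) * σ.L t) * Real.exp ((c' + ε / 2) * σ.L t) :=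
        mul_le_mul h1 h2 ((av v).nonneg _) (Real.exp_pos _).le
    _ = _ := by rw [← Real.exp_add]; ring_nf

theorem Ub.mono {v : Pl k} {g : G k σ} {c c' : ℝ} (hg : Ub v g c) (h : c ≤ c') : Ub v g c' := by
  intro ε hε
  filter_upwards [hg ε hε, L_pos (σ := σ)] with t h1 h2
  refine h1.trans (Real.exp_le_exp.2 ?_)
  exact mul_le_mul_of_nonneg_right (by linarith) h2.le

theorem Ub.zero {v : Pl k} {c : ℝ} : Ub v (0 : G k σ) c := by
  intro ε hε
  filter_upwards [rep_zero (k := k) (σ := σ)] with t h1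
  rw [h1, map_zero]
  exact (Real.exp_pos _).le

theorem Ub.of_FF {v : Pl k} {g : G k σ} (hg : g ∈ FF k σ) : Ub v g 0 := by
  intro ε hε
  have h1 := FF_mem_OO v hg
  rw [mem_OO] at h1
  filter_upwards [h1 ε hε] with t ht
  rwa [zero_add]

theorem Ub.one {v : Pl k} : Ub v (1 : G k σ) 0 := Ub.of_FF (FF k σ).one_mem

theorem Ub.pow {v : Pl k} {g : G k σ} {c : ℝ} (hg : Ub v g c) (n : ℕ) : Ub v (g ^ n) (n * c) := by
  induction n with
  | zero => simpa using Ub.one
  | succ n ih =>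
    rw [pow_succ]
    have := ih.mul hg
    push_cast
    rwa [add_mul, one_mul]

theorem Ub.prod {v : Pl k} {ι : Type} (s : Finset ι) (g : ι → G k σ) (c : ι → ℝ)
    (h : ∀ i ∈ s, Ub v (g i) (c i)) : Ub v (∏ i ∈ s, g i) (∑ i ∈ s, c i) := by
  classical
  induction s using Finset.induction_on with
  | empty => simpa using Ub.one
  | insert a s ha ih =>
    rw [Finset.prod_insert ha, Finset.sum_insert ha]
    exact (h a (Finset.mem_insert_self _ _)).mul
      (ih fun i hi => h i (Finset.mem_insert_of_mem hi))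

theorem Ub.sum {v : Pl k} {ι : Type} (s : Finset ι) (g : ι → G k σ) (c : ℝ)
    (h : ∀ i ∈ s, Ub v (g i) c) : Ub v (∑ i ∈ s, g i) c :=
  Finset.sum_induction g (fun x => Ub v x c) (fun _ _ => Ub.add) Ub.zero h

theorem Ub.lv {v : Pl k} {g : G k σ} {c : ℝ} (hg : Ub v g c) (h0 : g ≠ 0) :
    Sm σ fun t => lv v g t - c * σ.L t := by
  intro ε hε
  filter_upwards [hg ε hε, rep_ne g h0] with t h1 h2
  have h3 := Real.log_le_log ((av v).pos h2) h1
  rw [Real.log_exp] at h3
  unfold VN.lv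
  linarith

/-- existence of the limits -/
theorem exists_lim (v : Pl k) (g : G k σ) (hg : g ≠ 0) (hB : g ∈ BB k σ) :
    ∃ c : ℝ, Tendsto (fun t => lv v g t / σ.L t) (σ.𝒰 : Filter ℕ) (𝓝 c) := by
  obtain ⟨C, hC0, hC⟩ := lv_bound v g hg hB
  have h1 : ∀ᶠ t in (σ.𝒰 : Filter ℕ), lv v g t / σ.L t ∈ Set.Icc (-C) C := by
    filter_upwards [hC, L_pos (σ := σ)] with t h2 h3
    have h4 := abs_le.1 h2
    constructor
    · rw [le_div_iff₀ h3]
      linarith
    · rw [div_le_iff₀ h3]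
      exact h4.2
  have h2 : ((σ.𝒰.map (fun t => lv v g t / σ.L t) : Ultrafilter ℝ) : Filter ℝ) ≤
      𝓟 (Set.Icc (-C) C) := by
    rw [le_principal_iff]
    exact h1
  obtain ⟨c, -, hc⟩ := (isCompact_Icc (a := -C) (b := C)).ultrafilter_le_nhds _ h2
  exact ⟨c, hc⟩

theorem lim_small {f : ℕ → ℝ} {c : ℝ}
    (h : Tendsto (fun t => f t / σ.L t) (σ.𝒰 : Filter ℕ) (𝓝 c)) :
    Sm σ fun t => |f t - c * σ.L t| := by
  intro ε hε
  have h1 := (Metric.tendsto_nhds.1 h) ε hε
  filter_upwards [h1, L_pos (σ := σ)] with t h2 h3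
  rw [Real.dist_eq] at h2
  have h4 : f t - c * σ.L t = (f t / σ.L t - c) * σ.L t := by
    field_simp
  rw [h4, abs_mul, abs_of_pos h3]
  exact mul_le_mul_of_nonneg_right h2.le h3.le

theorem lim_Ub {v : Pl k} {g : G k σ} {c : ℝ} (hg : g ≠ 0)
    (h : Tendsto (fun t => lv v g t / σ.L t) (σ.𝒰 : Filter ℕ) (𝓝 c)) : Ub v g c := by
  intro ε hε
  filter_upwards [lim_small h ε hε, rep_ne g hg] with t h1 h2
  rw [← Real.log_le_iff_le_exp ((av v).pos h2)]
  have h3 := (abs_le.1 h1).2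
  unfold VN.lv at h3
  linarith

/-! ## values of polynomials -/

section poly
variable {m : ℕ} (T : Fin m → G k σ)

/-- evaluation -/
noncomputable def ev : MvPolynomial (Fin m) (FF k σ) →ₐ[FF k σ] G k σ := aeval T

theorem ev_eq (p : MvPolynomial (Fin m) (FF k σ)) :
    ev T p = ∑ d ∈ p.support, ((coeff d p : FF k σ) : G k σ) * ∏ j, T j ^ d j := by
  unfold ev
  rw [aeval_def, eval₂_eq']
  rfl

theorem rep_ev (p : MvPolynomial (Fin m) (FF k σ)) : ∀ᶠ t in (σ.𝒰 : Filter ℕ),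
    rep (ev T p) t = ∑ d ∈ p.support, rep ((coeff d p : FF k σ) : G k σ) t * ∏ j, rep (T j) t ^ d j := by
  have h1 : ∀ᶠ t in (σ.𝒰 : Filter ℕ), ∀ d ∈ p.support,
      rep (((coeff d p : FF k σ) : G k σ) * ∏ j, T j ^ d j) t =
        rep ((coeff d p : FF k σ) : G k σ) t * ∏ j, rep (T j) t ^ d j := by
    rw [Filter.eventually_all_finset]
    intro d _
    have h2 : ∀ᶠ t in (σ.𝒰 : Filter ℕ), ∀ j, rep (T j ^ d j) t = rep (T j) t ^ d j := by
      rw [Filter.eventually_all]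
      exact fun j => rep_pow _ _
    filter_upwards [rep_mul ((coeff d p : FF k σ) : G k σ) (∏ j, T j ^ d j),
      rep_prod Finset.univ fun j => T j ^ d j, h2] with t e1 e2 e3
    rw [e1, e2]
    congr 1
    exact Finset.prod_congr rfl fun j _ => e3 j
  filter_upwards [rep_sum p.support fun d => ((coeff d p : FF k σ) : G k σ) * ∏ j, T j ^ d j, h1]
    with t e1 e2
  rw [ev_eq, e1]
  exact Finset.sum_congr rfl e2

theorem ev_Ub (v : Pl k) (c : Fin m → ℝ) (hc : ∀ j, Ub v (T j) (c j))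
    (p : MvPolynomial (Fin m) (FF k σ)) (ω : ℝ) (hp : ∀ d ∈ p.support, ∑ j, (d j : ℝ) * c j ≤ ω) :
    Ub v (ev T p) ω := by
  rw [ev_eq]
  refine Ub.sum _ _ _ fun d hd => ?_
  have h1 := (Ub.of_FF (v := v) (coeff d p).2).mul
    (Ub.prod Finset.univ (fun j => T j ^ d j) (fun j => (d j : ℝ) * c j)
      fun j _ => (hc j).pow _)
  rw [zero_add] at h1
  exact h1.mono (hp d hd)

theorem sum_le_of_na (v : HeightOneSpectrum (𝓞 k)) {ι : Type} (s : Finset ι) (f : ι → k) (B : ℝ)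
    (hB : 0 ≤ B) (h : ∀ i ∈ s, fv v (f i) ≤ B) : fv v (∑ i ∈ s, f i) ≤ B := by
  refine Finset.sum_induction f (fun x => fv v x ≤ B) (fun a b ha hb => ?_) ?_ h
  · exact (fv_na v a b).trans (max_le ha hb)
  · rw [map_zero]
    exact hB

/-- the part outside of `S` of the values of finitely many polynomials at units is small -/
theorem poly_ho (S : Finset (Pl k)) (hS : ∀ w : InfinitePlace k, Sum.inl w ∈ S)
    (hT : ∀ j, SU S (T j)) {ι : Type} [Fintype ι] (p : ι → MvPolynomial (Fin m) (FF k σ)) :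
    Sm σ fun t => ho S (c1 fun i => rep (ev T (p i)) t) := by
  classical
  let κ : Type := Σ i : ι, {d : Fin m →₀ ℕ // d ∈ (p i).support}
  let c : κ → G k σ := fun x => ((coeff x.2.1 (p x.1) : FF k σ) : G k σ)
  have h1 : Sm σ fun t => ∑ x, logHeight₁ (rep (c x) t) := Sm.sum _ fun x _ =>
    (mem_FF (c x)).1 (coeff x.2.1 (p x.1)).2
  refine h1.mono ?_
  have h2 : ∀ᶠ t in (σ.𝒰 : Filter ℕ), ∀ i, rep (ev T (p i)) t =
      ∑ d ∈ (p i).support, rep ((coeff d (p i) : FF k σ) : G k σ) t * ∏ j, rep (T j) t ^ d j := by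
    rw [Filter.eventually_all]
    exact fun i => rep_ev T (p i)
  have h3 : ∀ᶠ t in (σ.𝒰 : Filter ℕ), ∀ j, IsSU S (rep (T j) t) := by
    rw [Filter.eventually_all]
    exact hT
  filter_upwards [h2, h3] with t e1 e2
  refine le_trans ?_ (logHeight_c1 fun x => rep (c x) t)
  refine le_trans ?_ (ho_le_height S hS (c1 fun x => rep (c x) t) none rfl)
  refine ho_le S _ (ne_of_one _ none rfl) _ (ne_of_one _ none rfl) fun v hv => ?_
  refine nm_le _ (nm_nonneg _ _) fun o => ?_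
  rcases o with _ | i
  · exact le_nm (fv v) (c1 fun x => rep (c x) t) none
  · show fv v (rep (ev T (p i)) t) ≤ _
    rw [e1 i]
    refine sum_le_of_na v _ _ _ (nm_nonneg _ _) fun d hd => ?_
    have h4 : fv v (∏ j, rep (T j) t ^ d j) = 1 := by
      rw [map_prod]
      refine Finset.prod_eq_one fun j _ => ?_
      rw [map_pow, (e2 j).2 v hv, one_pow]
    rw [map_mul, h4, mul_one]
    exact le_nm (fv v) (c1 fun x => rep (c x) t) (some ⟨i, d, hd⟩)

end poly

end Pool.Agent.K1H83.VN
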