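import Pool.Agent.K1H83.VN.Sub

/-!
Germs of units, sums of unit germs with small coefficients.
-/

set_option autoImplicit false
set_option linter.unusedSectionVars false

namespace Pool.Agent.K1H83.VN

open NumberField IsDedekindDomain Height Filter Topology
open Pool.Agent.W180.OP (Pl av wt fv fv_support_finite wt_nonneg)

variable {k : Type} [Field k] [NumberField k] {σ : Sc}

/-- germs of units -/
def SU (S : Finset (Pl k)) (g : G k σ) : Prop := ∀ᶠ t in (σ.𝒰 : Filter ℕ), IsSU S (rep g t)

variable {S : Finset (Pl k)}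

theorem SU.one : SU S (1 : G k σ) := by
  filter_upwards [rep_one (k := k) (σ := σ)] with t h
  rw [h]
  exact IsSU.one S

theorem SU.mul {g h : G k σ} (hg : SU S g) (hh : SU S h) : SU S (g * h) := by
  filter_upwards [hg, hh, rep_mul g h] with t h1 h2 h3
  rw [h3]
  exact h1.mul h2

theorem SU.inv {g : G k σ} (hg : SU S g) : SU S g⁻¹ := by
  filter_upwards [hg, rep_inv g] with t h1 h3
  rw [h3]
  exact h1.inv

theorem SU.div {g h : G k σ} (hg : SU S g) (hh : SU S h) : SU S (g / h) := by
  rw [div_eq_mul_inv]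
  exact hg.mul hh.inv

theorem SU.pow {g : G k σ} (hg : SU S g) (n : ℕ) : SU S (g ^ n) := by
  induction n with
  | zero => simpa using SU.one
  | succ n ih => rw [pow_succ]; exact ih.mul hg

theorem SU.zpow {g : G k σ} (hg : SU S g) (n : ℤ) : SU S (g ^ n) := by
  obtain ⟨n, rfl | rfl⟩ := Int.eq_nat_or_neg n
  · rw [zpow_natCast]
    exact hg.pow n
  · rw [zpow_neg, zpow_natCast]
    exact (hg.pow n).inv

theorem SU.prod {ι : Type} (s : Finset ι) (f : ι → G k σ) (h : ∀ i ∈ s, SU S (f i)) :
    SU S (∏ i ∈ s, f i) :=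
  Finset.prod_induction f (SU S) (fun _ _ => SU.mul) SU.one h

theorem SU.ne_zero {g : G k σ} (hg : SU S g) : g ≠ 0 :=
  ne_of_rep _ (by filter_upwards [hg] with t ht using ht.1)

theorem BB_height {ι : Type} [Fintype ι] (z : ι → G k σ) (hz : ∀ i, z i ∈ BB k σ) :
    ∃ C : ℝ, ∀ᶠ t in (σ.𝒰 : Filter ℕ), logHeight (fun j => rep (z j) t) ≤ C * σ.L t := by
  choose C hC using hz
  refine ⟨∑ i, C i, ?_⟩
  have h1 : ∀ᶠ t in (σ.𝒰 : Filter ℕ), ∀ i, logHeight₁ (rep (z i) t) ≤ C i * σ.L t := by
    rw [Filter.eventually_all]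
    exact hC
  filter_upwards [h1] with t ht
  refine (logHeight_le_sum _).trans ?_
  rw [Finset.sum_mul]
  exact Finset.sum_le_sum fun i _ => ht i

/-- the product formula for small multiples of units -/
theorem near_sum (hS : ∀ w : InfinitePlace k, Sum.inl w ∈ S) (c u : G k σ) (hc : c ∈ FF k σ)
    (hc0 : c ≠ 0) (hu : SU S u) : Sm σ fun t => |∑ v ∈ S, wt v * lv v (c * u) t| := by
  refine Sm.mono hc ?_
  filter_upwards [rep_mul c u, rep_ne c hc0, hu] with t h1 h2 h3
  have h4 : ∑ v ∈ S, wt v * lv v (c * u) t = ∑ v ∈ S, wt v * Real.log (av v (rep c t)) := by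
    have h5 := h3.prod_formula hS
    rw [← add_zero (∑ v ∈ S, wt v * Real.log (av v (rep c t))), ← h5, ← Finset.sum_add_distrib]
    refine Finset.sum_congr rfl fun v _ => ?_
    unfold lv
    rw [h1, map_mul, Real.log_mul ((av v).ne_zero h2) ((av v).ne_zero h3.1), mul_add]
  rw [h4]
  exact abs_prod_formula S hS _ h2

theorem near_ho (hS : ∀ w : InfinitePlace k, Sum.inl w ∈ S) {ι : Type} [Fintype ι] [Nonempty ι]
    (c u : ι → G k σ) (hc : ∀ i, c i ∈ FF k σ) (hc0 : ∀ i, c i ≠ 0) (hu : ∀ i, SU S (u i)) :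
    Sm σ fun t => ho S (fun i => rep (c i * u i) t) := by
  have h1 : Sm σ fun t => ∑ i, logHeight₁ (rep (c i) t) := Sm.sum _ fun i _ => hc i
  refine h1.mono ?_
  have h2 : ∀ᶠ t in (σ.𝒰 : Filter ℕ), ∀ i, rep (c i * u i) t = rep (c i) t * rep (u i) t ∧
      rep (c i) t ≠ 0 ∧ IsSU S (rep (u i) t) := by
    rw [Filter.eventually_all]
    intro i
    filter_upwards [rep_mul (c i) (u i), rep_ne _ (hc0 i), hu i] with t h1 h2 h3
    exact ⟨h1, h2, h3⟩
  filter_upwards [h2] with t h3
  have h4 : (fun i => rep (c i * u i) t) = fun i => rep (c i) t * rep (u i) t :=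
    funext fun i => (h3 i).1
  rw [h4]
  exact ho_near S hS _ _ (fun i => (h3 i).2.2) (ne_of_coord (i := Classical.arbitrary ι)
    (mul_ne_zero (h3 _).2.1 (h3 _).2.2.1))

/-- a nonempty finite family of sequences has a maximal one along the ultrafilter -/
theorem exists_max {ι : Type} [Finite ι] [Nonempty ι] (f : ι → ℕ → ℝ) :
    ∃ i, ∀ᶠ t in (σ.𝒰 : Filter ℕ), ∀ j, f j t ≤ f i t := by
  have h1 : ∀ t, ∃ i, ∀ j, f j t ≤ f i t := fun t => Finite.exists_max fun i => f i t
  choose m hm using h1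
  obtain ⟨i, -, hi⟩ := const_of_finite (σ := σ) m Set.univ Set.finite_univ
    (Eventually.of_forall fun _ => Set.mem_univ _)
  refine ⟨i, ?_⟩
  filter_upwards [hi] with t ht j
  rw [← ht]
  exact hm t j

/-- the identity matrix with one row replaced by ones -/
def Rk (k : Type) [Field k] {ι : Type} [DecidableEq ι] (i0 : ι) : ι → ι → k :=
  fun l j => if l = i0 then 1 else if j = l then 1 else 0

/-- the identity matrix -/
def Ik (k : Type) [Field k] {ι : Type} [DecidableEq ι] : ι → ι → k :=
  fun l j => if j = l then 1 else 0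

section Rk
variable {ι : Type} [DecidableEq ι] [Fintype ι] (i0 : ι)

theorem Rk_self (x : ι → k) : ∑ j, Rk k i0 i0 j * x j = ∑ j, x j := by
  refine Finset.sum_congr rfl fun j _ => ?_
  unfold Rk
  rw [if_pos rfl, one_mul]

theorem Rk_ne (l : ι) (h : l ≠ i0) (x : ι → k) : ∑ j, Rk k i0 l j * x j = x l := by
  rw [Finset.sum_eq_single l]
  · unfold Rk
    rw [if_neg h, if_pos rfl, one_mul]
  · intro j _ hj
    unfold Rk
    rw [if_neg h, if_neg hj, zero_mul]
  · intro h'
    exact absurd (Finset.mem_univ _) h'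

theorem Rk_det : (Matrix.of (Rk k i0)).det ≠ 0 := by
  intro h
  obtain ⟨x, hx, h1⟩ := Matrix.exists_mulVec_eq_zero_iff.2 h
  apply hx
  have h2 : ∀ l, l ≠ i0 → x l = 0 := by
    intro l hl
    rw [← Rk_ne i0 l hl x]
    exact congrFun h1 l
  have h3 : ∑ j, x j = 0 := by
    rw [← Rk_self i0 x]
    exact congrFun h1 i0
  funext l
  by_cases hl : l = i0
  · rw [Finset.sum_eq_single i0 (fun j _ hj => h2 j hj)
      (fun h' => absurd (Finset.mem_univ _) h')] at h3
    rw [hl]
    exact h3
  · exact h2 l hl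

theorem Ik_row (l : ι) (x : ι → k) : ∑ j, Ik k l j * x j = x l := by
  unfold Ik
  rw [Finset.sum_eq_single l (fun j _ hj => by rw [if_neg hj, zero_mul])
    (fun h => absurd (Finset.mem_univ _) h), if_pos rfl, one_mul]

theorem Ik_det : (Matrix.of (Ik k (ι := ι))).det ≠ 0 := by
  have h : Matrix.of (Ik k (ι := ι)) = 1 := by
    ext i j
    show (if j = i then (1 : k) else 0) = _
    rw [Matrix.one_apply]
    by_cases h : i = j
    · rw [if_pos h, if_pos h.symm]
    · rw [if_neg h, if_neg (fun h' => h h'.symm)]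
  rw [h, Matrix.det_one]
  exact one_ne_zero

end Rk

theorem FF_BB {x : G k σ} (h : x ∈ FF k σ) : x ∈ BB k σ := FF_le h

theorem sm_wt (v : Pl k) {f : ℕ → ℝ} (h : Sm σ fun t => wt v * f t) : Sm σ f := by
  intro ε hε
  filter_upwards [h ε hε, L_pos (σ := σ)] with t h1 h2
  rcases le_total (f t) 0 with h3 | h3
  · exact h3.trans (by positivity)
  · exact (le_mul_of_one_le_left h3 (one_le_wt v)).trans h1

/-- the height of independent germs which satisfy a relation -/
theorem near_height (hS : ∀ w : InfinitePlace k, Sum.inl w ∈ S) {ι : Type} [Fintype ι]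
    [DecidableEq ι] [Nonempty ι] (c u : Option ι → G k σ) (hc : ∀ i, c i ∈ FF k σ)
    (hc0 : ∀ i, c i ≠ 0) (hu : ∀ i, SU S (u i)) (hB : ∀ i, u i ∈ BB k σ)
    (hind : LinearIndependent k fun i : ι => c (some i) * u (some i))
    (hsum : ∑ i : ι, c (some i) * u (some i) = -(c none * u none)) :
    Sm σ fun t => logHeight fun i : ι => rep (c (some i) * u (some i)) t := by
  classical
  have hz0 : ∀ o, c o * u o ≠ 0 := fun o => mul_ne_zero (hc0 o) (hu o).ne_zero
  have hz1 : ∀ᶠ t in (σ.𝒰 : Filter ℕ), ∀ o, rep (c o * u o) t ≠ 0 := by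
    rw [Filter.eventually_all]
    exact fun o => rep_ne _ (hz0 o)
  have hmax := fun v : Pl k => exists_max (σ := σ) fun o : Option ι => lv v (c o * u o)
  choose m hm using hmax
  -- the forms
  have hform : ∀ v, ∃ B : ι → ι → k, (Matrix.of B).det ≠ 0 ∧ ∀ᶠ t in (σ.𝒰 : Filter ℕ),
      ∑ a, Real.log (av v (∑ j, B a j * rep (c (some j) * u (some j)) t)) =
        ∑ o, lv v (c o * u o) t - lv v (c (m v) * u (m v)) t := by
    intro v
    rcases h : m v with _ | i
    · refine ⟨Ik k, Ik_det, ?_⟩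
      · refine Eventually.of_forall fun t => ?_
        rw [Fintype.sum_option, add_sub_cancel_left]
        refine Finset.sum_congr rfl fun a _ => ?_
        rw [Ik_row]
        rfl
    · refine ⟨Rk k i, Rk_det i, ?_⟩
      have h1 := rep_sum (σ := σ) Finset.univ fun i : ι => c (some i) * u (some i)
      rw [hsum] at h1
      filter_upwards [h1, rep_neg (c none * u none)] with t h2 h3
      rw [Fintype.sum_option, ← Finset.add_sum_erase _ _ (Finset.mem_univ i),
        ← Finset.add_sum_erase (a := i) Finset.univ (fun o => lv v (c (some o) * u (some o)) t)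
          (Finset.mem_univ i), Rk_self, ← h2, h3, AbsoluteValue.map_neg]
      have h4 : ∑ a ∈ Finset.univ.erase i, Real.log (av v (∑ j, Rk k i a j *
          rep (c (some j) * u (some j)) t)) =
          ∑ a ∈ Finset.univ.erase i, lv v (c (some a) * u (some a)) t := by
        refine Finset.sum_congr rfl fun a ha => ?_
        rw [Rk_ne i a (Finset.ne_of_mem_erase ha)]
        rfl
      rw [h4]
      unfold lv
      ring
  choose B hB1 hB2 using hform
  have hBB : ∀ i, c i * u i ∈ BB k σ := fun i => (BB k σ).mul_mem (FF_le (hc i)) (hB i)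
  have h1 := germ_sub' S hS (fun i => c (some i) * u (some i)) hind
    (BB_height _ fun i => hBB (some i)) B fun v _ => hB1 v
  have h2 : Sm σ fun t => ∑ o, |∑ v ∈ S, wt v * lv v (c o * u o) t| :=
    Sm.sum _ fun o _ => near_sum hS (c o) (u o) (hc o) (hc0 o) (hu o)
  have h3 : Sm σ fun t => ho S (fun i : ι => rep (c (some i) * u (some i)) t) :=
    near_ho hS (fun i => c (some i)) (fun i => u (some i)) (fun i => hc _) (fun i => hc0 _)
      fun i => hu _
  have h4 : (0 : ℝ) ≤ Fintype.card ι + 1 := by positivity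
  refine ((h1.add h2).add (h3.smul h4)).mono ?_
  have h5 : ∀ᶠ t in (σ.𝒰 : Filter ℕ), ∀ v ∈ S, ∑ a, Real.log (av v (∑ j, B v a j *
      rep (c (some j) * u (some j)) t)) =
        ∑ o, lv v (c o * u o) t - lv v (c (m v) * u (m v)) t := by
    rw [Filter.eventually_all_finset]
    exact fun v _ => hB2 v
  have h6 : ∀ᶠ t in (σ.𝒰 : Filter ℕ), ∀ v ∈ S, ∀ o,
      lv v (c o * u o) t ≤ lv v (c (m v) * u (m v)) t := by
    rw [Filter.eventually_all_finset]
    exact fun v _ => hm v
  filter_upwards [h5, h6, hz1] with t e1 e2 e3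
  rw [Finset.sum_congr rfl fun v hv => by rw [e1 v hv]]
  have hx0 : (fun i : ι => rep (c (some i) * u (some i)) t) ≠ 0 :=
    ne_of_coord (i := Classical.arbitrary ι) (e3 _)
  rw [logHeight_split S hS _ hx0]
  have e4 : ∑ v ∈ S, wt v * Real.log (nm (av v) fun i : ι => rep (c (some i) * u (some i)) t) ≤
      ∑ v ∈ S, wt v * lv v (c (m v) * u (m v)) t := by
    refine Finset.sum_le_sum fun v hv => mul_le_mul_of_nonneg_left ?_ (wt_nonneg v)
    obtain ⟨i, hi⟩ := exists_nm (av v) fun i : ι => rep (c (some i) * u (some i)) t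
    rw [← hi]
    exact e2 v hv (some i)
  have e5 : ∑ v ∈ S, wt v * (∑ o, lv v (c o * u o) t - lv v (c (m v) * u (m v)) t) =
      ∑ o, ∑ v ∈ S, wt v * lv v (c o * u o) t - ∑ v ∈ S, wt v * lv v (c (m v) * u (m v)) t := by
    rw [Finset.sum_comm, ← Finset.sum_sub_distrib]
    refine Finset.sum_congr rfl fun v _ => ?_
    rw [mul_sub, Finset.mul_sum]
  have e6 : ∑ o, ∑ v ∈ S, wt v * lv v (c o * u o) t ≤
      ∑ o, |∑ v ∈ S, wt v * lv v (c o * u o) t| := Finset.sum_le_sum fun o _ => le_abs_self _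
  rw [e5]
  linarith

/-- sums of pairwise independent unit germs with small coefficients -/
theorem sui (hS : ∀ w : InfinitePlace k, Sum.inl w ∈ S) {ι : Type} [Fintype ι] (u : ι → G k σ)
    (hu : ∀ i, SU S (u i)) (hB : ∀ i, u i ∈ BB k σ) (hne : ∀ i j, i ≠ j → u i / u j ∉ FF k σ)
    (c : ι → G k σ) (hc : ∀ i, c i ∈ FF k σ) (hsum : ∑ i, c i * u i = 0) : ∀ i, c i = 0 := by
  classical
  by_contra hcon
  push Not at hcon
  -- a minimal relation
  let P : ℕ → Prop := fun n => ∃ (c : ι → G k σ), (∀ i, c i ∈ FF k σ) ∧ (∃ i, c i ≠ 0) ∧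
    ∑ i, c i * u i = 0 ∧ (Finset.univ.filter fun i => c i ≠ 0).card = n
  have hP : ∃ n, P n := ⟨_, c, hc, hcon, hsum, rfl⟩
  obtain ⟨c, hc, ⟨i1, hi1⟩, hsum, hcard⟩ := Nat.find_spec hP
  have hmin : ∀ c' : ι → G k σ, (∀ i, c' i ∈ FF k σ) → ∑ i, c' i * u i = 0 →
      (∀ i, c' i ≠ 0 → c i ≠ 0 ∧ i ≠ i1) → ∀ i, c' i = 0 := by
    intro c' h1 h2 h3
    by_contra h4
    push Not at h4
    have h5 := Nat.find_min' hP ⟨c', h1, h4, h2, rfl⟩
    rw [← hcard] at h5
    have h6 : (Finset.univ.filter fun i => c' i ≠ 0) ⊆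
        (Finset.univ.filter fun i => c i ≠ 0).erase i1 := by
      intro i hi
      rw [Finset.mem_filter] at hi
      rw [Finset.mem_erase, Finset.mem_filter]
      exact ⟨(h3 i hi.2).2, Finset.mem_univ _, (h3 i hi.2).1⟩
    have h7 := Finset.card_le_card h6
    have h8 : ((Finset.univ.filter fun i => c i ≠ 0).erase i1).card <
        (Finset.univ.filter fun i => c i ≠ 0).card :=
      Finset.card_erase_lt_of_mem (Finset.mem_filter.2 ⟨Finset.mem_univ _, hi1⟩)
    omega
  -- the terms different from the first one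
  let κ : Type := {i : ι // c i ≠ 0 ∧ i ≠ i1}
  let e : Option κ → ι := fun o => o.elim i1 Subtype.val
  have he0 : ∀ o, c (e o) ≠ 0 := by
    rintro (_ | ⟨i, hi⟩)
    · exact hi1
    · exact hi.1
  have hsplit : ∀ f : ι → G k σ, (∀ i, c i = 0 → f i = 0) →
      ∑ i, f i = f i1 + ∑ i : κ, f i.1 := by
    intro f hf
    rw [← Finset.add_sum_erase _ _ (Finset.mem_univ i1)]
    congr 1
    have h1 : ∑ i : κ, f i.1 = ∑ i ∈ Finset.univ.filter (fun i => c i ≠ 0 ∧ i ≠ i1), f i := by
      rw [← Finset.sum_subtype (s := Finset.univ.filter fun i => c i ≠ 0 ∧ i ≠ i1)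
        (f := fun i => f i) (by simp)]
    rw [h1]
    symm
    refine Finset.sum_subset ?_ ?_
    · intro i hi
      rw [Finset.mem_filter] at hi
      exact Finset.mem_erase.2 ⟨hi.2.2, Finset.mem_univ _⟩
    · intro i hi h2
      by_contra h3
      apply h2
      rw [Finset.mem_filter]
      exact ⟨Finset.mem_univ _, fun h => h3 (hf i h), Finset.ne_of_mem_erase hi⟩
  have hs1 : ∑ i : κ, c (e (some i)) * u (e (some i)) = -(c (e none) * u (e none)) := by
    have := hsplit (fun i => c i * u i) (fun i hi => by rw [hi, zero_mul])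
    rw [hsum] at this
    exact (neg_eq_of_add_eq_zero_right this.symm).symm
  have hκ : Nonempty κ := by
    by_contra h
    rw [not_nonempty_iff] at h
    rw [Fintype.sum_empty] at hs1
    exact mul_ne_zero (he0 none) (hu _).ne_zero (neg_eq_zero.1 hs1.symm)
  have hind : LinearIndependent k fun i : κ => c (e (some i)) * u (e (some i)) := by
    rw [Fintype.linearIndependent_iff]
    intro d hd i
    have h1 := hmin (fun i => if h : c i ≠ 0 ∧ i ≠ i1 then algebraMap k (G k σ) (d ⟨i, h⟩) * c i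
      else 0) (by
        intro i
        split_ifs with h
        · exact (FF k σ).mul_mem (alg_mem _) (hc i)
        · exact (FF k σ).zero_mem) (by
        rw [hsplit _ (by
          intro i hi
          rw [dif_neg (fun h => h.1 hi), zero_mul])]
        rw [dif_neg (fun h => h.2 rfl), zero_mul, zero_add]
        refine Eq.trans ?_ hd
        refine Finset.sum_congr rfl fun i _ => ?_
        rw [dif_pos i.2, Algebra.smul_def, mul_assoc]
        rfl) (by
        intro i hi
        by_contra h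
        exact hi (dif_neg h)) i.1
    rw [dif_pos i.2] at h1
    have h2 := (mul_eq_zero.1 h1).resolve_right i.2.1
    exact (map_eq_zero _).1 h2
  have hht := near_height hS (fun o => c (e o)) (fun o => u (e o)) (fun o => hc _) he0
    (fun o => hu _) (fun o => hB _) hind hs1
  -- the quotients are small
  have hq : ∀ i j : κ, u i.1 / u j.1 ∈ FF k σ := by
    intro i j
    have h1 : (c i.1 * u i.1) / (c j.1 * u j.1) ∈ FF k σ := by
      rw [mem_FF]
      refine hht.mono ?_
      filter_upwards [rep_div (c i.1 * u i.1) (c j.1 * u j.1)] with t ht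
      rw [ht]
      exact logHeight₁_div_le (fun i : κ => rep (c i.1 * u i.1) t) i j
    have h2 : u i.1 / u j.1 = (c i.1 * u i.1) / (c j.1 * u j.1) * (c j.1 / c i.1) := by
      have := i.2.1
      have := j.2.1
      have := (hu i.1).ne_zero
      have := (hu j.1).ne_zero
      field_simp
    rw [h2]
    exact (FF k σ).mul_mem h1 ((FF k σ).div_mem (hc _) (hc _))
  -- there is only one further term
  have hone : ∀ i j : κ, i = j := by
    intro i j
    by_contra h
    exact hne i.1 j.1 (fun h' => h (Subtype.ext h')) (hq i j)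
  obtain ⟨i2⟩ := hκ
  have h1 : ∑ i : κ, c (e (some i)) * u (e (some i)) = c i2.1 * u i2.1 := by
    rw [Fintype.sum_eq_single i2 fun j hj => absurd (hone j i2) hj]
    rfl
  rw [h1] at hs1
  refine hne i1 i2.1 (fun h => i2.2.2 h.symm) ?_
  have h2 : u i1 / u i2.1 = -(c i2.1 / c i1) := by
    have h3 : c i2.1 * u i2.1 = -(c i1 * u i1) := hs1
    have := (hu i2.1).ne_zero
    rw [div_eq_iff this, ← neg_div, div_mul_eq_mul_div, eq_div_iff hi1, neg_mul, h3]
    ring
  rw [h2]
  exact (FF k σ).neg_mem ((FF k σ).div_mem (hc _) (hc _))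

/-- lower bounds for sums of units with small coefficients -/
theorem lb (hS : ∀ w : InfinitePlace k, Sum.inl w ∈ S) {ι : Type} [Fintype ι] (u : ι → G k σ)
    (hu : ∀ i, SU S (u i)) (hB : ∀ i, u i ∈ BB k σ) (hne : ∀ i j, i ≠ j → u i / u j ∉ FF k σ)
    (c : ι → G k σ) (hc : ∀ i, c i ∈ FF k σ) (hc0 : ∀ i, c i ≠ 0) (v0 : Pl k) (hv0 : v0 ∈ S)
    (i0 : ι) :
    (OO σ (av v0)).valuation (u i0) ≤ (OO σ (av v0)).valuation (∑ i, c i * u i) := by
  classical
  have : Nonempty ι := ⟨i0⟩
  have hsum : ∑ i, c i * u i ≠ 0 := fun h => hc0 i0 (sui hS u hu hB hne c hc h i0)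
  have hind : LinearIndependent k fun i : ι => c i * u i := by
    rw [Fintype.linearIndependent_iff]
    intro d hd i
    have h1 := sui hS u hu hB hne (fun i => algebraMap k (G k σ) (d i) * c i)
      (fun i => (FF k σ).mul_mem (alg_mem _) (hc i)) (by
        rw [← hd]
        refine Finset.sum_congr rfl fun i _ => ?_
        rw [Algebra.smul_def, mul_assoc]) i
    exact (map_eq_zero _).1 ((mul_eq_zero.1 h1).resolve_right (hc0 i))
  have hBB : ∀ i, c i * u i ∈ BB k σ := fun i => (BB k σ).mul_mem (FF_le (hc i)) (hB i)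
  have h1 := germ_sub' S hS (fun i => c i * u i) hind (BB_height _ fun i => hBB i)
    (fun v => if v = v0 then Rk k i0 else Ik k) (by
      intro v _
      split_ifs
      · exact Rk_det i0
      · exact Ik_det)
  have h2 : Sm σ fun t => ∑ i, |∑ v ∈ S, wt v * lv v (c i * u i) t| :=
    Sm.sum _ fun i _ => near_sum hS (c i) (u i) (hc i) (hc0 i) (hu i)
  have h3 : Sm σ fun t => ho S (fun i : ι => rep (c i * u i) t) := near_ho hS c u hc hc0 hu
  have h4 : (0 : ℝ) ≤ Fintype.card ι := by positivity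
  have h5 : Sm σ fun t => wt v0 * (lv v0 (c i0 * u i0) t - lv v0 (∑ i, c i * u i) t) := by
    refine ((h1.add h2).add (h3.smul h4)).mono ?_
    filter_upwards [rep_sum (σ := σ) Finset.univ fun i => c i * u i] with t e1
    have e2 : ∑ v ∈ S, wt v * ∑ a, Real.log (av v (∑ j,
        (if v = v0 then Rk k i0 else Ik k) a j * rep (c j * u j) t)) =
        ∑ i, ∑ v ∈ S, wt v * lv v (c i * u i) t -
          wt v0 * (lv v0 (c i0 * u i0) t - lv v0 (∑ i, c i * u i) t) := by
      have e3 : ∀ v ∈ S, wt v * ∑ a, Real.log (av v (∑ j,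
          (if v = v0 then Rk k i0 else Ik k) a j * rep (c j * u j) t)) =
          wt v * ∑ i, lv v (c i * u i) t - (if v = v0 then
          wt v0 * (lv v0 (c i0 * u i0) t - lv v0 (∑ i, c i * u i) t) else 0) := by
        intro v _
        by_cases hv : v = v0
        · subst hv
          rw [if_pos rfl, if_pos rfl, ← Finset.add_sum_erase _ _ (Finset.mem_univ i0), Rk_self,
            ← e1, ← Finset.add_sum_erase (a := i0) Finset.univ (fun i => lv v (c i * u i) t)
              (Finset.mem_univ i0)]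
          have e4 : ∑ a ∈ Finset.univ.erase i0, Real.log (av v (∑ j, Rk k i0 a j *
              rep (c j * u j) t)) = ∑ a ∈ Finset.univ.erase i0, lv v (c a * u a) t := by
            refine Finset.sum_congr rfl fun a ha => ?_
            rw [Rk_ne i0 a (Finset.ne_of_mem_erase ha)]
            rfl
          rw [e4]
          unfold lv
          ring
        · rw [if_neg hv, if_neg hv, sub_zero]
          congr 1
          refine Finset.sum_congr rfl fun a _ => ?_
          rw [Ik_row]
          rfl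
      rw [Finset.sum_congr rfl e3, Finset.sum_sub_distrib, Finset.sum_ite_eq' S v0, if_pos hv0,
        Finset.sum_comm]
      congr 1
      exact Finset.sum_congr rfl fun v _ => by rw [Finset.mul_sum]
    have e6 : ∑ i, ∑ v ∈ S, wt v * lv v (c i * u i) t ≤
        ∑ i, |∑ v ∈ S, wt v * lv v (c i * u i) t| := Finset.sum_le_sum fun i _ => le_abs_self _
    rw [e2]
    linarith
  have h6 := (val_le_iff v0 (mul_ne_zero (hc0 i0) (hu i0).ne_zero) hsum).2 (sm_wt v0 h5)
  rwa [map_mul, val_FF v0 (hc i0) (hc0 i0), one_mul] at h6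

end Pool.Agent.K1H83.VN
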