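import Pool.Agent.K1H83.VN.Gm

/-!
Places of the field of germs, relative to a scale.
-/

set_option autoImplicit false
set_option linter.unusedSectionVars false

namespace Pool.Agent.K1H83.VN

open NumberField IsDedekindDomain Height Filter Topology
open Pool.Agent.W180.OP (Pl av wt fv fv_support_finite wt_nonneg)

variable {k : Type} [Field k] [NumberField k] {σ : Sc}

theorem two_le_exp (σ : Sc) {ε : ℝ} (hε : 0 < ε) :
    ∀ᶠ t in (σ.𝒰 : Filter ℕ), 2 ≤ Real.exp (ε * σ.L t) := by
  filter_upwards [σ.lim.eventually_ge_atTop (1 / ε)] with t h1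
  rw [div_le_iff₀ hε] at h1
  have h2 := Real.add_one_le_exp (ε * σ.L t)
  linarith

/-- the germs of size at most `exp (o(L))` for the absolute value `w` -/
noncomputable def OO (σ : Sc) (w : AbsoluteValue k ℝ) : ValuationSubring (G k σ) where
  carrier := {g | ∀ ε : ℝ, 0 < ε → ∀ᶠ t in (σ.𝒰 : Filter ℕ), w (rep g t) ≤ Real.exp (ε * σ.L t)}
  mul_mem' := by
    intro a b ha hb ε hε
    filter_upwards [ha (ε / 2) (by positivity), hb (ε / 2) (by positivity), rep_mul a b]
      with n h1 h2 h3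
    rw [h3, map_mul]
    calc w (rep a n) * w (rep b n) ≤ Real.exp (ε / 2 * σ.L n) * Real.exp (ε / 2 * σ.L n) :=
          mul_le_mul h1 h2 (w.nonneg _) (Real.exp_pos _).le
      _ = Real.exp (ε * σ.L n) := by rw [← Real.exp_add]; ring_nf
  one_mem' := by
    intro ε hε
    filter_upwards [L_pos (σ := σ), rep_one (k := k) (σ := σ)] with n hn h1
    rw [h1, map_one]
    exact Real.one_le_exp (by positivity)
  add_mem' := by
    intro a b ha hb ε hε
    filter_upwards [ha (ε / 2) (by positivity), hb (ε / 2) (by positivity), rep_add a b,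
      two_le_exp σ (show 0 < ε / 2 by positivity)] with n h1 h2 h4 h3
    rw [h4]
    calc w (rep a n + rep b n) ≤ w (rep a n) + w (rep b n) := w.add_le _ _
      _ ≤ Real.exp (ε / 2 * σ.L n) + Real.exp (ε / 2 * σ.L n) := add_le_add h1 h2
      _ = 2 * Real.exp (ε / 2 * σ.L n) := by ring
      _ ≤ Real.exp (ε / 2 * σ.L n) * Real.exp (ε / 2 * σ.L n) := by gcongr
      _ = Real.exp (ε * σ.L n) := by rw [← Real.exp_add]; ring_nf
  zero_mem' := by
    intro ε hε
    filter_upwards [rep_zero (k := k) (σ := σ)] with n hn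
    rw [hn, map_zero]
    exact (Real.exp_pos _).le
  neg_mem' := by
    intro a ha ε hε
    filter_upwards [ha ε hε, rep_neg a] with n hn h1
    rw [h1, w.map_neg]
    exact hn
  mem_or_inv_mem' := by
    intro x
    by_cases h : ∀ ε : ℝ, 0 < ε → ∀ᶠ n in (σ.𝒰 : Filter ℕ), w (rep x n) ≤ Real.exp (ε * σ.L n)
    · exact Or.inl h
    · right
      push Not at h
      obtain ⟨ε, hε, h⟩ := h
      have h' : ∀ᶠ n in (σ.𝒰 : Filter ℕ), Real.exp (ε * σ.L n) < w (rep x n) := h
      intro ε' hε'
      filter_upwards [h', L_pos (σ := σ), rep_inv x] with n h2 h3 h6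
      rw [h6, map_inv₀]
      have h4 : (1 : ℝ) ≤ Real.exp (ε * σ.L n) := Real.one_le_exp (by positivity)
      have h5 : (1 : ℝ) ≤ Real.exp (ε' * σ.L n) := Real.one_le_exp (by positivity)
      exact (inv_le_one_of_one_le₀ (h4.trans h2.le)).trans h5

variable (w : AbsoluteValue k ℝ)

theorem mem_OO (x : G k σ) : x ∈ OO σ w ↔
    ∀ ε : ℝ, 0 < ε → ∀ᶠ n in (σ.𝒰 : Filter ℕ), w (rep x n) ≤ Real.exp (ε * σ.L n) := Iff.rfl

/-- inequality of valuations, in terms of sequences -/
theorem val_le {x y : G k σ} (h : (OO σ w).valuation x ≤ (OO σ w).valuation y)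
    (ε : ℝ) (hε : 0 < ε) :
    ∀ᶠ n in (σ.𝒰 : Filter ℕ), w (rep x n) ≤ w (rep y n) * Real.exp (ε * σ.L n) := by
  by_cases hb : y = 0
  · rw [hb, map_zero] at h
    have h1 : x = 0 := by
      have := le_antisymm h zero_le
      rwa [map_eq_zero] at this
    subst h1
    filter_upwards [rep_zero (k := k) (σ := σ)] with n hn
    rw [hn, map_zero]
    have := w.nonneg (rep y n)
    positivity
  · have h1 : (OO σ w).valuation (x / y) ≤ 1 := by
      rw [map_div₀]
      exact div_le_one_of_le₀ h zero_le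
    rw [ValuationSubring.valuation_le_one_iff, mem_OO] at h1
    filter_upwards [h1 ε hε, rep_ne _ hb, rep_div x y] with n h2 h3 h4
    rw [h4, map_div₀, div_le_iff₀ (w.pos h3)] at h2
    linarith

theorem le_val {x y : G k σ} (h : ∀ ε : ℝ, 0 < ε → ∀ᶠ n in (σ.𝒰 : Filter ℕ),
    w (rep x n) ≤ w (rep y n) * Real.exp (ε * σ.L n)) :
    (OO σ w).valuation x ≤ (OO σ w).valuation y := by
  by_cases hb : y = 0
  · subst hb
    have h1 : x = 0 := by
      by_contra hx
      obtain ⟨n, h2, h3, h4⟩ := ((h 1 one_pos).and ((rep_ne x hx).and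
        (rep_zero (k := k) (σ := σ)))).exists
      rw [h4, map_zero, zero_mul] at h2
      exact h3 ((w.eq_zero).1 (le_antisymm h2 (w.nonneg _)))
    rw [h1]
  · have h1 : x / y ∈ OO σ w := by
      rw [mem_OO]
      intro ε hε
      filter_upwards [h ε hε, rep_ne _ hb, rep_div x y] with n h2 h3 h4
      rw [h4, map_div₀, div_le_iff₀ (w.pos h3)]
      linarith
    rw [← ValuationSubring.valuation_le_one_iff, map_div₀] at h1
    have h2 : 0 < (OO σ w).valuation y := by
      rw [zero_lt_iff]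
      exact (Valuation.ne_zero_iff _).2 hb
    rwa [div_le_one₀ h2] at h1

/-- the logarithmic form -/
theorem val_le_iff (v : Pl k) {x y : G k σ} (hx : x ≠ 0) (hy : y ≠ 0) :
    (OO σ (av v)).valuation x ≤ (OO σ (av v)).valuation y ↔
      Sm σ fun t => lv v x t - lv v y t := by
  constructor
  · intro h ε hε
    filter_upwards [val_le (av v) h ε hε, rep_ne x hx, rep_ne y hy] with t h1 h2 h3
    unfold lv
    have h4 := Real.log_le_log ((av v).pos h2) h1
    rw [Real.log_mul ((av v).ne_zero h3) (Real.exp_pos _).ne', Real.log_exp] at h4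
    linarith
  · intro h
    refine le_val (av v) fun ε hε => ?_
    filter_upwards [h ε hε, rep_ne x hx, rep_ne y hy] with t h1 h2 h3
    unfold lv at h1
    rw [← Real.log_le_log_iff ((av v).pos h2) (mul_pos ((av v).pos h3) (Real.exp_pos _)),
      Real.log_mul ((av v).ne_zero h3) (Real.exp_pos _).ne', Real.log_exp]
    linarith

theorem FF_mem_OO (v : Pl k) {x : G k σ} (hx : x ∈ FF k σ) : x ∈ OO σ (av v) := by
  by_cases h0 : x = 0
  · subst h0
    exact (OO σ (av v)).zero_mem
  rw [mem_OO]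
  intro ε hε
  filter_upwards [lv_small v x h0 hx ε hε, rep_ne x h0] with t h1 h2
  rw [← Real.log_le_iff_le_exp ((av v).pos h2)]
  exact (le_abs_self _).trans h1

theorem val_FF_le (v : Pl k) {x : G k σ} (hx : x ∈ FF k σ) : (OO σ (av v)).valuation x ≤ 1 :=
  ((OO σ (av v)).valuation_le_one_iff x).2 (FF_mem_OO v hx)

theorem val_FF (v : Pl k) {x : G k σ} (hx : x ∈ FF k σ) (h0 : x ≠ 0) :
    (OO σ (av v)).valuation x = 1 := by
  apply le_antisymm (val_FF_le v hx)
  have h1 := val_FF_le v ((FF k σ).inv_mem hx)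
  rw [map_inv₀] at h1
  have h2 : 0 < (OO σ (av v)).valuation x := by
    rw [zero_lt_iff]
    exact (Valuation.ne_zero_iff _).2 h0
  rwa [inv_le_one₀ h2] at h1

end Pool.Agent.K1H83.VN
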